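import Pool.Agent.Lib.EPK.SORTK

/-!
From `K` to `ℂ`: the part of a finite dimensional space outside `K`.
-/

set_option autoImplicit false

open Complex Module EPI

namespace EPK

/-- `K` as a subspace -/
noncomputable def KQ (K : IntermediateField ℚ ℂ) : Submodule ℚ ℂ := K.toSubalgebra.toSubmodule

theorem mem_KQ {K : IntermediateField ℚ ℂ} {z : ℂ} : z ∈ KQ K ↔ z ∈ K := Iff.rfl

/-- the numbers with real and imaginary part in `U` -/
def UC (U : Submodule ℚ ℝ) : Submodule ℚ ℂ where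
  carrier := {z | z.re ∈ U ∧ z.im ∈ U}
  zero_mem' := by simp [U.zero_mem]
  add_mem' := by
    rintro a b ⟨h1, h2⟩ ⟨h3, h4⟩
    exact ⟨by rw [Complex.add_re]; exact U.add_mem h1 h3,
      by rw [Complex.add_im]; exact U.add_mem h2 h4⟩
  smul_mem' := by
    rintro q a ⟨h1, h2⟩
    exact ⟨by rw [Complex.smul_re]; exact U.smul_mem q h1,
      by rw [Complex.smul_im]; exact U.smul_mem q h2⟩

theorem memK_iff (hCL : S_CL) (hCLK : S_CLK) {K : IntermediateField ℚ ℂ} (hK : Good K) (z : ℂ) :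
    z ∈ K ↔ z.re ∈ RR K ∧ z.im ∈ RR K := by
  constructor
  · exact fun h => reim hCL hCLK hK h
  · rintro ⟨h1, h2⟩
    have h3 := K.add_mem (mem_RR.1 h1) (K.mul_mem (mem_RR.1 h2) (Imem hCL hCLK hK))
    rwa [Complex.re_add_im] at h3

theorem isComplUC (hCL : S_CL) (hCLK : S_CLK) {K : IntermediateField ℚ ℂ} (hK : Good K)
    {U : Submodule ℚ ℝ} (hU : IsCompl (RR K) U) : IsCompl (KQ K) (UC U) := by
  rw [isCompl_iff]
  constructor
  · rw [Submodule.disjoint_def]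
    intro z h1 h2
    obtain ⟨h3, h4⟩ := (memK_iff hCL hCLK hK z).1 h1
    have h5 := (Submodule.disjoint_def.1 hU.disjoint) _ h3 h2.1
    have h6 := (Submodule.disjoint_def.1 hU.disjoint) _ h4 h2.2
    exact Complex.ext h5 h6
  · rw [codisjoint_iff, eq_top_iff]
    intro z _
    have hr : z.re ∈ RR K ⊔ U := by rw [hU.sup_eq_top]; trivial
    have hi : z.im ∈ RR K ⊔ U := by rw [hU.sup_eq_top]; trivial
    obtain ⟨a, ha, b, hb, hab⟩ := Submodule.mem_sup.1 hr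
    obtain ⟨c, hc, d, hd, hcd⟩ := Submodule.mem_sup.1 hi
    refine Submodule.mem_sup.2 ⟨⟨a, c⟩, (memK_iff hCL hCLK hK _).2 ⟨ha, hc⟩, ⟨b, d⟩, ⟨hb, hd⟩, ?_⟩
    exact Complex.ext (by simpa using hab) (by simpa using hcd)

/-- `E` maps `K` into `K` -/
theorem EKmem (hCL : S_CL) (hCLK : S_CLK) {K : IntermediateField ℚ ℂ} (hK : Good K)
    (r0 r1 : ℝ ≃ₗ[ℚ] ℝ) (h0 : ∀ x ∈ RR K, r0 x ∈ RR K) (h1 : ∀ x ∈ RR K, r1 x ∈ RR K) {z : ℂ}
    (hz : z ∈ K) : EE r0 r1 z ∈ K := by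
  obtain ⟨h2, h3⟩ := reim hCL hCLK hK hz
  unfold EE
  exact hK.2.1 _ (K.add_mem (h0 _ h2) (K.mul_mem (h1 _ h3) (Imem hCL hCLK hK)))

/-- `E = exp` on `UC U` -/
theorem EUeq {U : Submodule ℚ ℝ} (r0 r1 : ℝ ≃ₗ[ℚ] ℝ) (h0 : ∀ x ∈ U, r0 x = x)
    (h1 : ∀ x ∈ U, r1 x = x) {z : ℂ} (hz : z ∈ UC U) : EE r0 r1 z = cexp z := by
  unfold EE
  rw [h0 _ hz.1, h1 _ hz.2, Complex.re_add_im]

theorem kADD (hCL : S_CL) (hCLK : S_CLK) (hPICK : S_PICK) (hREL : S_REL)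
    (K : IntermediateField ℚ ℂ) (hKc : Closed K) (hK : Good K) (U : Submodule ℚ ℝ)
    (hU : IsCompl (RR K) U) (r0 r1 : ℝ ≃ₗ[ℚ] ℝ)
    (hadd : ∀ x y, EE r0 r1 (x + y) = EE r0 r1 x * EE r0 r1 y) (hne : ∀ x, EE r0 r1 x ≠ 0)
    (h0 : ∀ x ∈ RR K, r0 x ∈ RR K) (h1 : ∀ x ∈ RR K, r1 x ∈ RR K)
    (h0U : ∀ x ∈ U, r0 x = x) (h1U : ∀ x ∈ U, r1 x = x)
    (V : Submodule ℚ ℂ) (hV : FiniteDimensional ℚ V) (m : ℕ)
    (hm : Ge (((V ⊓ KQ K : Submodule ℚ ℂ) : Set ℂ) ∪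
      EE r0 r1 '' ((V ⊓ KQ K : Submodule ℚ ℂ) : Set ℂ)) m) :
    Ge ((V : Set ℂ) ∪ EE r0 r1 '' (V : Set ℂ))
      (m + (finrank ℚ V - finrank ℚ (V ⊓ KQ K : Submodule ℚ ℂ))) := by
  classical
  obtain ⟨hCLK1, hCLK2, hCLK3, hCLK4, hCLK5, hCLK6⟩ := hCLK K
  have hcompl := isComplUC hCL hCLK hK hU
  -- the projection onto `UC U` along `K`
  obtain ⟨u, hu1, hu2⟩ : ∃ u : ℂ →ₗ[ℚ] ℂ, (∀ z, u z ∈ UC U) ∧ ∀ z, z - u z ∈ K := by
    refine ⟨(UC U).subtype ∘ₗ (Submodule.projectionOnto (UC U) (KQ K) hcompl.symm), ?_, ?_⟩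
    · intro z
      exact (Submodule.projectionOnto (UC U) (KQ K) hcompl.symm z).2
    · intro z
      have h2 : z - (Submodule.projectionOnto (UC U) (KQ K) hcompl.symm z : ℂ) ∈
          LinearMap.ker (Submodule.projectionOnto (UC U) (KQ K) hcompl.symm) := by
        rw [LinearMap.mem_ker, map_sub, Submodule.projectionOnto_apply_left, sub_self]
      rw [Submodule.ker_projectionOnto] at h2
      exact h2
  -- a complement of `V ⊓ K` in `V`
  obtain ⟨V0, hV0⟩ : ∃ V0 : Submodule ℚ ℂ, V0 = V ⊓ KQ K := ⟨_, rfl⟩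
  have hV0V : V0 ≤ V := by rw [hV0]; exact inf_le_left
  obtain ⟨V1, hV1V, hd, hs⟩ : ∃ V1 : Submodule ℚ ℂ, V1 ≤ V ∧ Disjoint V0 V1 ∧ V0 ⊔ V1 = V := by
    obtain ⟨W, hW⟩ := Submodule.exists_isCompl (Submodule.comap V.subtype V0)
    refine ⟨W.map V.subtype, Submodule.map_subtype_le _ _, ?_, ?_⟩
    · rw [Submodule.disjoint_def]
      rintro z hz ⟨w, hw, rfl⟩
      have h2 : w ∈ Submodule.comap V.subtype V0 := hz
      have h3 := (Submodule.disjoint_def.1 hW.disjoint) w h2 hw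
      rw [h3]
      rfl
    · have h2 : (Submodule.comap V.subtype V0).map V.subtype = V0 := by
        rw [Submodule.map_comap_subtype, inf_eq_right.2 hV0V]
      rw [← h2, ← Submodule.map_sup, hW.sup_eq_top, Submodule.map_top, Submodule.range_subtype]
  have hfV1 : FiniteDimensional ℚ V1 := Submodule.finiteDimensional_of_le hV1V
  have hfV0 : FiniteDimensional ℚ V0 := Submodule.finiteDimensional_of_le hV0V
  have hdim : finrank ℚ V = finrank ℚ V0 + finrank ℚ V1 := by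
    have h2 := Submodule.finrank_sup_add_finrank_inf_eq V0 V1
    rw [hs, hd.eq_bot, finrank_bot, add_zero] at h2
    exact h2
  -- its image under the projection
  have huinj : ∀ z ∈ V1, u z = 0 → z = 0 := by
    intro z hz h2
    have h3 := hu2 z
    rw [h2, sub_zero] at h3
    have h4 : z ∈ V0 := by
      rw [hV0]
      exact ⟨hV1V hz, h3⟩
    exact (Submodule.disjoint_def.1 hd) z h4 hz
  have hfin : FiniteDimensional ℚ (V1.map u) := by infer_instance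
  have hfr : finrank ℚ (V1.map u) = finrank ℚ V1 := by
    have h2 : Function.Injective (u.domRestrict V1) := by
      rw [← LinearMap.ker_eq_bot, Submodule.eq_bot_iff]
      intro w hw
      exact Subtype.ext (huinj w w.2 hw)
    have h3 := LinearMap.finrank_range_of_inj h2
    rw [LinearMap.range_domRestrict] at h3
    exact h3
  obtain ⟨h, hh1, hh2⟩ := hREL K hKc (V1.map u) hfin (by
    rintro _ ⟨z, hz, rfl⟩ h2
    have h3 : u z ∈ KQ K := h2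
    exact (Submodule.disjoint_def.1 hcompl.disjoint) _ h3 (hu1 z))
  have hsub : ((V1.map u : Submodule ℚ ℂ) : Set ℂ) ∪ cexp '' ((V1.map u : Submodule ℚ ℂ) : Set ℂ) ⊆
      clK K ((V : Set ℂ) ∪ EE r0 r1 '' (V : Set ℂ)) := by
    rintro _ (⟨z, hz, rfl⟩ | ⟨_, ⟨z, hz, rfl⟩, rfl⟩)
    · have h2 : z ∈ clK K ((V : Set ℂ) ∪ EE r0 r1 '' (V : Set ℂ)) := hCLK1 _ (Or.inl (hV1V hz))
      have h3 : z - u z ∈ clK K ((V : Set ℂ) ∪ EE r0 r1 '' (V : Set ℂ)) := hCLK2 _ _ (hu2 z)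
      have h4 := sub_mem h2 h3
      rwa [sub_sub_cancel] at h4
    · have h2 : EE r0 r1 z ∈ clK K ((V : Set ℂ) ∪ EE r0 r1 '' (V : Set ℂ)) :=
        hCLK1 _ (Or.inr ⟨z, hV1V hz, rfl⟩)
      have h3 : EE r0 r1 (z - u z) ∈ clK K ((V : Set ℂ) ∪ EE r0 r1 '' (V : Set ℂ)) :=
        hCLK2 _ _ (EKmem hCL hCLK hK r0 r1 h0 h1 (hu2 z))
      have h4 : cexp (u z) = EE r0 r1 z / EE r0 r1 (z - u z) := by
        rw [eq_div_iff (hne _), ← EUeq r0 r1 h0U h1U (hu1 z), ← hadd]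
        congr 1
        ring
      rw [h4]
      exact div_mem h2 h3
  obtain ⟨h', hh1', hh2'⟩ := hPICK K _ _ ⟨h, hh1, fun i => hCLK3 _ _ hsub (hh2 i)⟩
  obtain ⟨f, hf1, hf2⟩ := hm
  have hfK : ∀ i, f i ∈ K := by
    intro i
    refine clsub hCLK hK ?_ (hf2 i)
    rintro x (hx | ⟨w, hw, rfl⟩)
    · exact hx.2
    · exact EKmem hCL hCLK hK r0 r1 h0 h1 hw.2
  have hcomb : AlgebraicIndependent ℚ (Sum.elim h' f) := by
    refine AlgebraicIndependent.sumElim_of_tower (S := K) hf1 ?_ hh1'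
    rintro _ ⟨i, rfl⟩
    exact ⟨⟨f i, hfK i⟩, rfl⟩
  rw [hV0] at hdim
  have hcard : m + (finrank ℚ V - finrank ℚ (V ⊓ KQ K : Submodule ℚ ℂ)) =
      finrank ℚ (V1.map u) + m := by
    rw [hfr, hdim]
    omega
  rw [hcard]
  refine ⟨Sum.elim h' f ∘ finSumFinEquiv.symm, hcomb.comp _ finSumFinEquiv.symm.injective,
    fun i => ?_⟩
  rcases hi : finSumFinEquiv.symm i with j | j
  · simp only [Function.comp_apply, hi, Sum.elim_inl]
    exact hCL.1 _ (hh2' j)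
  · simp only [Function.comp_apply, hi, Sum.elim_inr]
    refine hCL.2.1 _ _ ?_ (hf2 j)
    rintro x (hx | ⟨w, hw, rfl⟩)
    · exact hCL.1 _ (Or.inl hx.1)
    · exact hCL.1 _ (Or.inr ⟨w, hw.1, rfl⟩)

end EPK
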