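import Mathlib

/-!
Specification, part 1 (MP_4c2ad3_nt, extension B): Ax's theorem for one derivation.
All fields have characteristic `0`. Complete proofs in the docstrings.
-/

set_option autoImplicit false

open Module

namespace EPK

/-- **DIM** Let the functionals `d ↦ d (y i) / y i - d (x i)` on `Der_C(F, F)` be linearly
independent over `F`. Then their number is at most `trdeg C F`.
PROOF. If `trdeg C F` is infinite, nothing is to prove (`m < ℵ₀`). Otherwise take a finite
transcendence basis `b : Fin k → F`. The `F`-linear map `Der_C(F, F) → (Fin k → F)`,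
`d ↦ (d (b j))`, is injective: a derivation over `C` with `d (b j) = 0` vanishes on `C(b)`, and for
`a ∈ F` with minimal polynomial `f` over `C(b)`: `0 = d (f(a)) = f'(a) d a`, `f'(a) ≠ 0`
(characteristic `0`). So `Der_C(F, F)` has dimension at most `k` over `F` and so has its dual. -/
def S_DIM : Prop := ∀ (C F : Type) [Field C] [Field F] [CharZero F] [Algebra C F] (m : ℕ)
  (x y : Fin m → F),
  (∀ f : Fin m → F, (∀ d : Derivation C F F, ∑ i, f i * (d (y i) / y i - d (x i)) = 0) → f = 0) →
  (m : Cardinal) ≤ Algebra.trdeg C F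

/-- **MIN** minimal relations have constant coefficients. Let `D y_i = y_i D x_i` and let `C` be the
field of constants of `D`. If the functionals `w_i (d) = d (y i) / y i - d (x i)` on `Der_C(F, F)`
satisfy a nontrivial relation over `F`, they satisfy one over `C`.
PROOF. Take a nonzero relation `f` with the least number of nonzero entries, scaled so that
`f i0 = 1`. For `d ∈ Der_C(F, F)`: `w_i ([D, d]) = D (w_i d)` (compute, using `D y_i = y_i D x_i`).
So `0 = D (∑ f_i w_i (d)) = ∑ (D f_i) w_i (d) + ∑ f_i w_i ([D, d]) = ∑ (D f_i) w_i (d)`. So `D f` is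
a relation with fewer nonzero entries (`D f_{i0} = D 1 = 0`), so `D f = 0`, `f_i ∈ C`. (Mathlib:
Lie bracket of derivations, `Derivation.commutator_apply`.) -/
def S_MIN : Prop := ∀ (C F : Type) [Field C] [Field F] [CharZero F] [Algebra C F]
  (D : Derivation C F F), (∀ x : F, D x = 0 → ∃ c : C, algebraMap C F c = x) →
  ∀ (m : ℕ) (x y : Fin m → F), (∀ i, y i ≠ 0) → (∀ i, D (y i) = y i * D (x i)) →
  (∃ f : Fin m → F, f ≠ 0 ∧
    ∀ d : Derivation C F F, ∑ i, f i * (d (y i) / y i - d (x i)) = 0) →
  ∃ c : Fin m → C, c ≠ 0 ∧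
    ∀ d : Derivation C F F, ∑ i, algebraMap C F (c i) * (d (y i) / y i - d (x i)) = 0

/-- **DER** existence of a partial derivative. PROOF. Take a transcendence basis `B` of `F` over
`C` which contains `u`; `k = C(B \ {u})`. `u` is transcendental over `k`, and `F` is algebraic over
`k(u)`. The derivation `d/du` of `k(u)` over `k` extends to the algebraic extension `F` of `k(u)`
(characteristic `0`). -/
def S_DER : Prop := ∀ (C F : Type) [Field C] [Field F] [CharZero F] [Algebra C F] (u : F),
  Transcendental C u → ∃ (k : IntermediateField C F) (d : Derivation k F F),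
    Transcendental k u ∧ (∀ z : F, IsAlgebraic (IntermediateField.adjoin k {u}) z) ∧ d u = 1

/-- **RES** residue at `u = 0`. `v h` is the order of `h ∈ k(u)` at `u = 0`.
PROOF. `O` = the elements `p(u)/q(u)` of `k(u)` with `q(0) ≠ 0`, a ring with `d O ⊆ O`
and an evaluation `O → k` at `0`. A nonzero `h ∈ k(u)` is `u^a w` with `a = v h ∈ ℤ` and a unit
`w` of `O`; `d h / h = a / u + d w / w`, `d w / w ∈ O`. So the left hand side is
`c / u + o`, `c = ∑ e_j v(h_j)`, `o ∈ O`. If `G ∈ O`, then `d G ∈ O`, so `c / u ∈ O`, so `c = 0`.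
Otherwise `G = u^(-m) w` with `m ≥ 1`, `w` a unit of `O`, and
`u^(m+1) d G = - m w + u d w` has the value `- m w(0) ≠ 0` at `0`, but `u^(m+1) (c/u + o)` has the
value `0` there. (`v z = 0` for `z` not in `k(u)` or `z = 0`; or use `RatFunc k`, `LaurentSeries`.) -/
def S_RES : Prop := ∀ (k F : Type) [Field k] [Field F] [CharZero F] [Algebra k F] (u : F)
  (d : Derivation k F F), Transcendental k u → d u = 1 →
  ∃ v : F → ℤ, (∀ n : ℕ, v (u ^ n) = n) ∧
    ∀ (s : ℕ) (e : Fin s → k) (h : Fin s → F) (G : F),
      (∀ j, h j ∈ IntermediateField.adjoin k {u}) → (∀ j, h j ≠ 0) →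
      G ∈ IntermediateField.adjoin k {u} →
      ∑ j, algebraMap k F (e j) * (d (h j) / h j) = d G → ∑ j, e j * (v (h j) : k) = 0

/-- **TR** descent by norm and trace. PROOF. `N = k(u)`, `M = N(a_1, …, a_s, g) ⊆ F` finite over
`N`, `n = [M : N]`, `h_j = Norm_{M/N} (a_j)`, `G = Tr_{M/N} (g)`. `d` maps `N` into `N` and `M` into
`M` (for `a` algebraic over `N` with minimal polynomial `f`: `f'(a) d a = - f^d (a)`). For `b ∈ M`:
`Tr (d b) = d (Tr b)`, and `Tr (d b / b) = d (Norm b) / Norm b` for `b ≠ 0`. Proof 1: the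
`N`-embeddings `σ` of `M` into an algebraic closure `E` of `M` commute with the unique extension of
`d` to `E`; `Tr b = ∑ σ b`, `Norm b = ∏ σ b`. Proof 2: with a basis `m_i` of `M` over `N`, the matrix
`A` of multiplication by `b` and the matrix `Γ` of `d` on the basis, the matrix of `d b` is
`d A` plus or minus the commutator of `A` and `Γ`, whose trace is `0`; and Jacobi's formula
`d (det A) = det A * Tr (A⁻¹ d A)`. Mathlib/FieldTheory/Differential/*.lean may help. Apply the
trace (`N`-linear) to `∑ e_j d a_j / a_j = d g`. For `a_j ∈ N`: `Norm a_j = a_j ^ n`. -/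
def S_TR : Prop := ∀ (k F : Type) [Field k] [Field F] [CharZero F] [Algebra k F] (u : F)
  (d : Derivation k F F), Transcendental k u →
  (∀ z : F, IsAlgebraic (IntermediateField.adjoin k {u}) z) → d u = 1 →
  ∀ (s : ℕ) (a : Fin s → F) (g : F), (∀ j, a j ≠ 0) →
  ∃ (n : ℕ) (h : Fin s → F) (G : F), 0 < n ∧
    (∀ j, h j ∈ IntermediateField.adjoin k {u} ∧ h j ≠ 0) ∧
    G ∈ IntermediateField.adjoin k {u} ∧
    (∀ j, a j ∈ IntermediateField.adjoin k {u} → h j = a j ^ n) ∧
    (∀ e : Fin s → k, ∑ j, algebraMap k F (e j) * (d (a j) / a j) = d g →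
      ∑ j, algebraMap k F (e j) * (d (h j) / h j) = d G)

/-- **KEY** Let `C` be relatively algebraically closed in `F`, the `e_j ∈ C` linearly independent
over `ℚ`, and `∑ e_j d a_j / a_j = d g` for all `d ∈ Der_C(F, F)`. Then all `a_j` are in `C`.
PROOF. Otherwise some `u = a_{j0}` is not in `C`, so it is transcendental over `C`. S_DER gives `k`
and `d`; `d` is also a derivation over `C` (`Derivation.restrictScalars`), so
`∑ e_j d a_j / a_j = d g`. S_TR gives `n`, `h_j`, `G`, then S_RES: `∑ e_j v(h_j) = 0` in `k`, so in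
`C`; so all `v(h_j) = 0`, but `v (h_{j0}) = v (u^n) = n > 0`. From S_DER, S_TR, S_RES. -/
def S_KEY : Prop := ∀ (C F : Type) [Field C] [Field F] [CharZero F] [Algebra C F],
  (∀ x : F, IsAlgebraic C x → ∃ c : C, algebraMap C F c = x) →
  ∀ (s : ℕ) (e : Fin s → C) (a : Fin s → F) (g : F),
  (∀ q : Fin s → ℤ, ∑ j, (q j : C) * e j = 0 → q = 0) → (∀ j, a j ≠ 0) →
  (∀ d : Derivation C F F, ∑ j, algebraMap C F (e j) * (d (a j) / a j) = d g) →
  ∀ j, ∃ c : C, algebraMap C F c = a j

/-- **AX** (Ax, one derivation, weak form). `C` is the field of constants of `D`. PROOF. Suppose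
`trdeg C F < m`. By S_DIM the functionals satisfy a nontrivial relation over `F`, by S_MIN one with
coefficients `c_i ∈ C`. The `c_i` span a finitely generated torsion free group; let `e_1, …, e_s` be
a `ℤ`-basis of this group: `c_i = ∑_j q_ij e_j`, `q_ij ∈ ℤ`. Put `a_j = ∏_i y_i ^ q_ij`,
`g = ∑_i c_i x_i`. For all `d`: `∑_j e_j d a_j / a_j = ∑_i c_i d y_i / y_i = d g`. The constants of a
derivation are relatively algebraically closed in characteristic `0`. S_KEY: `a_j ∈ C`, so
`0 = D a_j / a_j = ∑_i q_ij D x_i = D (∑_i q_ij x_i)`, so `q_ij = 0` for all `i, j`, so `c = 0`,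
a contradiction. From S_DIM, S_MIN, S_KEY. -/
def S_AX : Prop := ∀ (C F : Type) [Field C] [Field F] [CharZero F] [Algebra C F]
  (D : Derivation C F F), (∀ x : F, D x = 0 → ∃ c : C, algebraMap C F c = x) →
  ∀ (m : ℕ) (x y : Fin m → F), (∀ i, y i ≠ 0) → (∀ i, D (y i) = y i * D (x i)) →
  (∀ q : Fin m → ℤ, D (∑ i, (q i : F) * x i) = 0 → q = 0) →
  (m : Cardinal) ≤ Algebra.trdeg C F

/-- **EXT** extension of a derivation. PROOF. The derivation `MvPolynomial ι K → F` (an
`MvPolynomial`-module by `aeval w`) with `X i ↦ a i`, i.e. `p ↦ ∑ aeval w (pderiv i p) * a i`,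
vanishes on the kernel of `aeval w`, so it gives a derivation of `K[w]` into `F`, which extends to
the fraction field `K(w)` and to its algebraic extension `F` (characteristic `0`; e.g. formally etale,
or Zorn, or minimal polynomials). -/
def S_EXT : Prop := ∀ (K F ι : Type) [Field K] [Field F] [CharZero F] [Algebra K F] [Fintype ι]
  (w a : ι → F),
  (∀ p : MvPolynomial ι K, MvPolynomial.aeval w p = 0 →
    ∑ i, MvPolynomial.aeval w (MvPolynomial.pderiv i p) * a i = 0) →
  (∀ x : F, IsAlgebraic (IntermediateField.adjoin K (Set.range w)) x) →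
  ∃ D : Derivation K F F, ∀ i, D (w i) = a i

end EPK
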