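import Pool.Agent.Lib.EPI.Defs
import Pool.Agent.Lib.EPK.Spec1

/-!
Specification, part 2 (MP_4c2ad3_nt, extension B): countable closed subfields of `ℂ` and the
relative inequality of Schanuel. Complete proofs in the docstrings.
-/

set_option autoImplicit false

open Complex Module

namespace EPK

/-- the point `(z, e^z)` -/
noncomputable def pt {n : ℕ} (z : Fin n → ℂ) : Fin n ⊕ Fin n → ℂ :=
  Sum.elim z (fun i => cexp (z i))

/-- the Jacobian matrix of the functions `z ↦ p_j (z, e^z)` -/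
noncomputable def jac {n : ℕ} (p : Fin n → MvPolynomial (Fin n ⊕ Fin n) ℂ) (z : Fin n → ℂ) :
    Matrix (Fin n) (Fin n) ℂ := fun j i =>
  MvPolynomial.eval (pt z) (MvPolynomial.pderiv (Sum.inl i) (p j)) +
    cexp (z i) * MvPolynomial.eval (pt z) (MvPolynomial.pderiv (Sum.inr i) (p j))

/-- nondegenerate zeros of a system of `n` exponential polynomials in `n` unknowns -/
def NZ {n : ℕ} (p : Fin n → MvPolynomial (Fin n ⊕ Fin n) ℂ) : Set (Fin n → ℂ) :=
  {z | (∀ j, MvPolynomial.eval (pt z) (p j) = 0) ∧ (jac p z).det ≠ 0}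

/-- `K` contains the coordinates of the nondegenerate zeros of all systems over `K` -/
def Closed (K : IntermediateField ℚ ℂ) : Prop :=
  ∀ (n : ℕ) (p : Fin n → MvPolynomial (Fin n ⊕ Fin n) ℂ), (∀ j m, (p j).coeff m ∈ K) →
    ∀ z ∈ NZ p, ∀ i, z i ∈ K

/-- the relative algebraic closure in `ℂ` of `K(S)` -/
noncomputable def clK (K : IntermediateField ℚ ℂ) (S : Set ℂ) : IntermediateField K ℂ :=
  (algebraicClosure (IntermediateField.adjoin K S) ℂ).restrictScalars K

/-- **CNT** PROOF. `Φ(z) = (p_j (z, e^z))_j` is strictly differentiable with the derivative given by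
the matrix `jac p z` (polynomials and `exp`), invertible at `z ∈ NZ p`, so `Φ` is injective near `z`
(inverse function theorem, `HasStrictFDerivAt.toOpenPartialHomeomorph` or
`HasStrictFDerivAt.eventually_left_inverse` or similar), so `z` is isolated in the zero set and in
`NZ p`; a subset of `Fin n → ℂ` all of whose points are isolated in it is countable (second
countable). -/
def S_CNT : Prop := ∀ (n : ℕ) (p : Fin n → MvPolynomial (Fin n ⊕ Fin n) ℂ), (NZ p).Countable

/-- **CLO** PROOF. `A_0 = A`, `A_{k+1} = A_k ∪ conj A_k ∪` all coordinates of the points of `NZ p`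
for all `n` and all systems `p` with coefficients in `ℚ(A_k)`; countable since `ℚ(A_k)` is countable,
so there are countably many `p` (images of polynomials over the countable field `ℚ(A_k)`) and each
`NZ p` is countable. `K = ⋃ ℚ(A_k)` (increasing union of subfields; a system has finitely many
coefficients, so they are all in some `ℚ(A_k)`). From S_CNT. -/
def S_CLO : Prop := ∀ A : Set ℂ, A.Countable → ∃ K : IntermediateField ℚ ℂ,
  (K : Set ℂ).Countable ∧ A ⊆ K ∧ Closed K ∧ ∀ z ∈ K, (starRingEnd ℂ) z ∈ K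

/-- **CON** consequences. PROOF. (1) `n = 1`, `p = f(X_{inl 0})` with the minimal polynomial `f` of
`x` over `K`, mapped to `ℂ`: `f(x) = 0`, `f'(x) ≠ 0`. (2) `n = 2`, `p_0 = X_{inl 0} - z`,
`p_1 = X_{inl 1} - X_{inr 0}` at the point `(z, e^z)`; the Jacobian matrix is
`[[1, 0], [- e^z, 1]]`. (3) `n = 1`, `p = X_{inr 0} - e^z` at `z`; the Jacobian is `e^z ≠ 0`. -/
def S_CON : Prop := ∀ K : IntermediateField ℚ ℂ, Closed K →
  (∀ x : ℂ, IsAlgebraic K x → x ∈ K) ∧ (∀ z ∈ K, cexp z ∈ K) ∧ (∀ z : ℂ, cexp z ∈ K → z ∈ K)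

/-- **JAC** tangent vectors. PROOF. Let `ℓ_p (v) = ∑_i (aeval (pt z) (pderiv (inl i) p) +
e^{z_i} aeval (pt z) (pderiv (inr i) p)) v_i` for the `p` over `K` with `aeval (pt z) p = 0`; these
are functionals on `F^n` with coefficients in `F`. If they had no common nonzero zero in `F^n`, they
would span the dual of `F^n`, so there would be `p_1, …, p_n` with linearly independent functionals,
i.e. with Jacobian determinant `≠ 0` at `z`; then `z ∈ NZ (p_j mapped to ℂ)`, so all `z i ∈ K` by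
`Closed K`. -/
def S_JAC : Prop := ∀ K : IntermediateField ℚ ℂ, Closed K → ∀ (n : ℕ) (z : Fin n → ℂ)
  (F : IntermediateField K ℂ), (∀ i, z i ∈ F) → (∀ i, cexp (z i) ∈ F) → (∃ i, z i ∉ K) →
  ∃ v : Fin n → ℂ, (∀ i, v i ∈ F) ∧ v ≠ 0 ∧
    ∀ p : MvPolynomial (Fin n ⊕ Fin n) K, MvPolynomial.aeval (pt z) p = 0 →
      ∑ i, (MvPolynomial.aeval (pt z) (MvPolynomial.pderiv (Sum.inl i) p) +
        cexp (z i) * MvPolynomial.aeval (pt z) (MvPolynomial.pderiv (Sum.inr i) p)) * v i = 0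

/-- **TAN** an exponential derivation. PROOF. `z : Fin n → ℂ` a basis of `V` over `ℚ`; `z_i`,
`e^{z_i}` are in `F`, and some `z_i ∉ K`. S_JAC gives `v`. S_EXT with `ι = Fin n ⊕ Fin n`,
`w = pt z`, `a = Sum.elim v (e^{z_i} v_i)` (as elements of `F`) gives `D`; `F` is algebraic over
`K(w)`, because `V ⊆ K(w)` and `e^v`, `v = ∑ (m_i / N) z_i`, has `(e^v)^N = ∏ (e^{z_i})^{m_i}` in
`K(w)`. `D z_i = v_i`, `D e^{z_i} = e^{z_i} D z_i`; for `v = ∑ (m_i / N) z_i` and `w = e^v`:
`N w^(N-1) D w = w^N ∑ m_i D z_i`, so `D w = w D v`. Some `v_i ≠ 0`. From S_JAC, S_EXT. -/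
def S_TAN : Prop := ∀ K : IntermediateField ℚ ℂ, Closed K → ∀ V : Submodule ℚ ℂ,
  FiniteDimensional ℚ V → (∃ v ∈ V, v ∉ K) →
  ∀ F : IntermediateField K ℂ, F = clK K ((V : Set ℂ) ∪ cexp '' (V : Set ℂ)) →
  ∃ D : Derivation K F F, (∃ v : F, (v : ℂ) ∈ V ∧ D v ≠ 0) ∧
    ∀ v w : F, (v : ℂ) ∈ V → (w : ℂ) = cexp (v : ℂ) → D w = w * D v

/-- **REL** the relative inequality of Schanuel over a closed field. PROOF. Strong induction on
`n = finrank V`. `n = 0`: trivial. `n ≥ 1`: `V` is not contained in `K`. `F = clK K (V ∪ e^V)`, `D`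
from S_TAN. `C = {x ∈ F : D x = 0}`, an intermediate field of `F / K`, relatively algebraically
closed in `F`, so algebraically closed in `ℂ` (`F` is). `V_0 = {v ∈ V : D v = 0}`, `V_1` a complement
of `V_0` in `V`, `k = dim V_0 < n` (some `D v ≠ 0`). `e^{V_0} ⊆ C` (`D e^v = e^v D v`). By induction
there is `h_0 : Fin k → ℂ`, algebraically independent over `K`, with values in `clK K (V_0 ∪ e^{V_0})
⊆ C`. S_AX for `C ⊆ F`, `D`, `m = n - k`, `x` a basis of `V_1`, `y = e^x` (an integer combination of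
the `x_i` in `C` lies in `V_0 ⊓ V_1 = 0`): `n - k ≤ trdeg C F`, so there is `h_1 : Fin (n-k) → F`
algebraically independent over `C`. `Sum.elim h_1 h_0` is algebraically independent over `K`
(`AlgebraicIndependent.sumElim_of_tower` or `sumElim_iff`) and has values in `F`. From S_AX, S_TAN. -/
def S_REL : Prop := ∀ K : IntermediateField ℚ ℂ, Closed K → ∀ V : Submodule ℚ ℂ,
  FiniteDimensional ℚ V → (∀ v ∈ V, v ∈ K → v = 0) →
  ∃ h : Fin (finrank ℚ V) → ℂ, AlgebraicIndependent K h ∧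
    ∀ i, h i ∈ clK K ((V : Set ℂ) ∪ cexp '' (V : Set ℂ))

/-- **PICK** PROOF. Let `T ⊆ S` be maximal algebraically independent over `K`
(`exists_maximal_algebraicIndependent`); then `S ⊆ clK K T`, `clK K S = clK K T`, so `T` is a
transcendence basis of `clK K S`; the `n` independent elements give `n ≤ #T`; take `n` elements of
`T`. (Matroid of algebraic independence, `AlgebraicIndependent.matroid`.) -/
def S_PICK : Prop := ∀ (K : IntermediateField ℚ ℂ) (S : Set ℂ) (n : ℕ),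
  (∃ h : Fin n → ℂ, AlgebraicIndependent K h ∧ ∀ i, h i ∈ clK K S) →
  ∃ h : Fin n → ℂ, AlgebraicIndependent K h ∧ ∀ i, h i ∈ S

/-- **CLK** basic properties of `clK` (as in EPI/CL.lean). (1) `S ⊆ clK K S`; (2) `K ⊆ clK K S`;
(3) `S ⊆ clK K T → clK K S ≤ clK K T`; (4) `x ^ n ∈ clK K S → x ∈ clK K S` (`n > 0`);
(5) `EPI.cl S ⊆ clK K S`; (6) if `K` contains all numbers algebraic over it, `EPI.cl S ⊆ K` for
`S ⊆ K`. -/
def S_CLK : Prop := ∀ K : IntermediateField ℚ ℂ,
  (∀ S : Set ℂ, S ⊆ clK K S) ∧ (∀ (S : Set ℂ) (x : ℂ), x ∈ K → x ∈ clK K S) ∧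
  (∀ S T : Set ℂ, S ⊆ clK K T → clK K S ≤ clK K T) ∧
  (∀ (S : Set ℂ) (x : ℂ) (n : ℕ), 0 < n → x ^ n ∈ clK K S → x ∈ clK K S) ∧
  (∀ (S : Set ℂ) (x : ℂ), x ∈ EPI.cl S → x ∈ clK K S) ∧
  ((∀ x : ℂ, IsAlgebraic K x → x ∈ K) → ∀ (S : Set ℂ), S ⊆ K → ∀ x ∈ EPI.cl S, x ∈ K)

end EPK
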