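import Pool.Agent.Lib.EPK.Spec2

/-!
Countable closed subfields.
-/

set_option autoImplicit false

open Complex Module

namespace EPK

/-- one step of the closure -/
private noncomputable def CLOR_step (A : Set ℂ) : Set ℂ :=
  (A ∪ (fun z => (starRingEnd ℂ) z) '' A) ∪
    ⋃ (x : Σ n : ℕ, (Fin n → MvPolynomial (Fin n ⊕ Fin n) (IntermediateField.adjoin ℚ A)) × Fin n),
      (fun z : Fin x.1 → ℂ => z x.2.2) ''
        NZ (fun j => MvPolynomial.map (algebraMap (IntermediateField.adjoin ℚ A) ℂ) (x.2.1 j))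

private theorem CLOR_adj {A : Set ℂ} (hA : A.Countable) :
    Countable (IntermediateField.adjoin ℚ A) := by
  have h1 := IntermediateField.cardinalMk_adjoin_le ℚ A
  rw [← Cardinal.mk_le_aleph0_iff]
  refine h1.trans ?_
  have h2 : Cardinal.mk ℚ ≤ Cardinal.aleph0 := Cardinal.mk_le_aleph0
  have h3 : Cardinal.mk A ≤ Cardinal.aleph0 := by
    have := hA.to_subtype
    exact Cardinal.mk_le_aleph0
  exact sup_le (sup_le h2 h3) le_rfl

private theorem CLOR_mv {σ R : Type} [Finite σ] [CommRing R] [Countable R] :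
    Countable (MvPolynomial σ R) := by
  rw [← Cardinal.mk_le_aleph0_iff]
  refine MvPolynomial.cardinalMk_le_max.trans ?_
  exact sup_le (sup_le Cardinal.mk_le_aleph0 Cardinal.mk_le_aleph0) le_rfl

private theorem CLOR_count (hCNT : S_CNT) {A : Set ℂ} (hA : A.Countable) :
    (CLOR_step A).Countable := by
  refine (hA.union (hA.image _)).union ?_
  have h1 := CLOR_adj hA
  have h2 : ∀ n : ℕ, Countable
      (MvPolynomial (Fin n ⊕ Fin n) (IntermediateField.adjoin ℚ A)) := fun n => CLOR_mv
  refine Set.countable_iUnion fun x => ?_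
  exact (hCNT _ _).image _

theorem kCLOR (hCNT : S_CNT) : S_CLO := by
  intro A0 hA0
  let A : ℕ → Set ℂ := fun n => CLOR_step^[n] A0
  have hA1 : ∀ n, A (n + 1) = CLOR_step (A n) := fun n => Function.iterate_succ_apply' _ _ _
  have hAc : ∀ n, (A n).Countable := by
    intro n
    induction n with
    | zero => exact hA0
    | succ n ih => rw [hA1]; exact CLOR_count hCNT ih
  have hmono1 : ∀ n, A n ⊆ A (n + 1) := by
    intro n x hx
    rw [hA1]
    exact Or.inl (Or.inl hx)
  have hmono : Monotone A := monotone_nat_of_le_succ hmono1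
  let K : IntermediateField ℚ ℂ := IntermediateField.adjoin ℚ (⋃ n, A n)
  have hAK : ∀ n, A n ⊆ K := fun n x hx =>
    IntermediateField.subset_adjoin ℚ _ (Set.mem_iUnion.2 ⟨n, hx⟩)
  have hmem : ∀ x ∈ K, ∃ n, x ∈ IntermediateField.adjoin ℚ (A n) := by
    intro x hx
    obtain ⟨T, hT, hxT⟩ := IntermediateField.exists_finset_of_mem_adjoin hx
    have h1 : ∃ n, (T : Set ℂ) ⊆ A n := by
      clear hxT
      induction T using Finset.induction_on with
      | empty => exact ⟨0, by simp⟩
      | insert w T hw ih =>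
        obtain ⟨n, hn⟩ := ih (fun y hy => hT (by simp [Finset.mem_coe.1 hy]))
        obtain ⟨m, hm⟩ := Set.mem_iUnion.1 (hT (by simp : w ∈ ((insert w T : Finset ℂ) : Set ℂ)))
        refine ⟨max n m, ?_⟩
        intro y hy
        rcases Finset.mem_insert.1 (Finset.mem_coe.1 hy) with rfl | hy
        · exact hmono (le_max_right n m) hm
        · exact hmono (le_max_left n m) (hn (Finset.mem_coe.2 hy))
    obtain ⟨n, hn⟩ := h1
    exact ⟨n, IntermediateField.adjoin.mono ℚ _ _ hn hxT⟩
  have hfin : ∀ T : Finset ℂ, (∀ x ∈ T, x ∈ K) →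
      ∃ n, ∀ x ∈ T, x ∈ IntermediateField.adjoin ℚ (A n) := by
    intro T
    induction T using Finset.induction_on with
    | empty => intro _; exact ⟨0, by simp⟩
    | insert w T hw ih =>
      intro h
      obtain ⟨n, hn⟩ := ih (fun y hy => h y (Finset.mem_insert_of_mem hy))
      obtain ⟨m, hm⟩ := hmem w (h w (Finset.mem_insert_self w T))
      refine ⟨max n m, ?_⟩
      intro y hy
      rcases Finset.mem_insert.1 hy with rfl | hy
      · exact IntermediateField.adjoin.mono ℚ _ _ (hmono (le_max_right n m)) hm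
      · exact IntermediateField.adjoin.mono ℚ _ _ (hmono (le_max_left n m)) (hn y hy)
  refine ⟨K, ?_, hAK 0, ?_, ?_⟩
  · have h1 : (⋃ n, A n).Countable := Set.countable_iUnion hAc
    have h2 := CLOR_adj h1
    exact Set.to_countable (K : Set ℂ)
  · intro n p hp z hz i
    classical
    obtain ⟨N, hN⟩ := hfin (Finset.univ.biUnion (fun j => (p j).coeffs)) (by
      intro x hx
      obtain ⟨j, -, hj⟩ := Finset.mem_biUnion.1 hx
      obtain ⟨m, -, rfl⟩ := MvPolynomial.mem_coeffs_iff.1 hj
      exact hp j m)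
    have h1 : ∀ j, ∃ q : MvPolynomial (Fin n ⊕ Fin n) (IntermediateField.adjoin ℚ (A N)),
        MvPolynomial.map (algebraMap (IntermediateField.adjoin ℚ (A N)) ℂ) q = p j := by
      intro j
      have h2 : p j ∈ Set.range
          (MvPolynomial.map (σ := Fin n ⊕ Fin n)
            (algebraMap (IntermediateField.adjoin ℚ (A N)) ℂ)) := by
        rw [MvPolynomial.mem_range_map_iff_coeffs_subset]
        intro x hx
        have h3 := hN x (Finset.mem_biUnion.2 ⟨j, Finset.mem_univ j, hx⟩)
        exact ⟨⟨x, h3⟩, rfl⟩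
      exact h2
    choose q hq using h1
    refine hAK (N + 1) ?_
    rw [hA1]
    refine Or.inr (Set.mem_iUnion.2 ⟨⟨n, q, i⟩, z, ?_, rfl⟩)
    have h4 : (fun j => MvPolynomial.map
        (algebraMap (IntermediateField.adjoin ℚ (A N)) ℂ) (q j)) = p := funext hq
    show z ∈ NZ (fun j => MvPolynomial.map
        (algebraMap (IntermediateField.adjoin ℚ (A N)) ℂ) (q j))
    rw [h4]
    exact hz
  · intro z hz
    have h1 : K ≤ IntermediateField.comap (Complex.conjAe.restrictScalars ℚ).toAlgHom K := by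
      rw [IntermediateField.adjoin_le_iff]
      intro x hx
      obtain ⟨n, hn⟩ := Set.mem_iUnion.1 hx
      show (starRingEnd ℂ) x ∈ K
      refine hAK (n + 1) ?_
      rw [hA1]
      exact Or.inl (Or.inr ⟨x, hn, rfl⟩)
    exact h1 hz

end EPK
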