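import Pool.Agent.Lib.EPK.Spec2

/-!
MP_4c2ad3_nt, extension B, module CNT: the nondegenerate zeros of a system of exponential
polynomials are isolated, so there are only countably many of them.
-/

set_option autoImplicit false

open Module Topology

namespace EPK

/-- the derivative of `z ↦ q (z, e^z)` -/
private noncomputable def cntL {n : ℕ} (z : Fin n → ℂ) (q : MvPolynomial (Fin n ⊕ Fin n) ℂ) :
    (Fin n → ℂ) →L[ℂ] ℂ :=
  ∑ i, (MvPolynomial.eval (pt z) (MvPolynomial.pderiv (Sum.inl i) q) +
    Complex.exp (z i) * MvPolynomial.eval (pt z) (MvPolynomial.pderiv (Sum.inr i) q)) •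
      (ContinuousLinearMap.proj i : (Fin n → ℂ) →L[ℂ] ℂ)

private theorem cnt_apply {n : ℕ} (z v : Fin n → ℂ) (q : MvPolynomial (Fin n ⊕ Fin n) ℂ) :
    cntL z q v = ∑ i, (MvPolynomial.eval (pt z) (MvPolynomial.pderiv (Sum.inl i) q) +
      Complex.exp (z i) * MvPolynomial.eval (pt z) (MvPolynomial.pderiv (Sum.inr i) q)) * v i := by
  unfold cntL
  rw [ContinuousLinearMap.sum_apply]
  apply Finset.sum_congr rfl
  intro i _
  rfl

private theorem cnt_add {n : ℕ} (z : Fin n → ℂ) (q q' : MvPolynomial (Fin n ⊕ Fin n) ℂ) :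
    cntL z (q + q') = cntL z q + cntL z q' := by
  ext1 v
  rw [ContinuousLinearMap.add_apply, cnt_apply, cnt_apply, cnt_apply, ← Finset.sum_add_distrib]
  apply Finset.sum_congr rfl
  intro i _
  rw [map_add, map_add, map_add, map_add]
  ring

private theorem cnt_mul {n : ℕ} (z : Fin n → ℂ) (q q' : MvPolynomial (Fin n ⊕ Fin n) ℂ) :
    cntL z (q * q') = MvPolynomial.eval (pt z) q • cntL z q' + MvPolynomial.eval (pt z) q' • cntL z q := by
  ext1 v
  rw [ContinuousLinearMap.add_apply, ContinuousLinearMap.smul_apply, ContinuousLinearMap.smul_apply,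
    cnt_apply, cnt_apply, cnt_apply, smul_eq_mul, smul_eq_mul, Finset.mul_sum, Finset.mul_sum,
    ← Finset.sum_add_distrib]
  apply Finset.sum_congr rfl
  intro i _
  rw [Derivation.leibniz, Derivation.leibniz, smul_eq_mul, smul_eq_mul, smul_eq_mul, smul_eq_mul,
    map_add, map_add, map_mul, map_mul, map_mul, map_mul]
  ring

private theorem cnt_inl {n : ℕ} (z : Fin n → ℂ) (k : Fin n) :
    cntL z (MvPolynomial.X (Sum.inl k)) = (ContinuousLinearMap.proj k : (Fin n → ℂ) →L[ℂ] ℂ) := by
  ext1 v
  rw [cnt_apply, Finset.sum_eq_single k]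
  · rw [MvPolynomial.pderiv_X_self, MvPolynomial.pderiv_X_of_ne (by simp), map_one, map_zero,
      mul_zero, add_zero, one_mul]
    rfl
  · intro i _ hi
    rw [MvPolynomial.pderiv_X_of_ne (by simpa using fun h => hi h.symm),
      MvPolynomial.pderiv_X_of_ne (by simp), map_zero, mul_zero, add_zero, zero_mul]
  · intro h
    exact absurd (Finset.mem_univ k) h

private theorem cnt_inr {n : ℕ} (z : Fin n → ℂ) (k : Fin n) :
    cntL z (MvPolynomial.X (Sum.inr k)) =
      Complex.exp (z k) • (ContinuousLinearMap.proj k : (Fin n → ℂ) →L[ℂ] ℂ) := by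
  ext1 v
  rw [cnt_apply, Finset.sum_eq_single k]
  · rw [MvPolynomial.pderiv_X_self, MvPolynomial.pderiv_X_of_ne (by simp), map_one, map_zero,
      mul_one, zero_add]
    rfl
  · intro i _ hi
    rw [MvPolynomial.pderiv_X_of_ne (by simp),
      MvPolynomial.pderiv_X_of_ne (by simpa using fun h => hi h.symm), map_zero, mul_zero,
      add_zero, zero_mul]
  · intro h
    exact absurd (Finset.mem_univ k) h

private theorem cnt_der {n : ℕ} (q : MvPolynomial (Fin n ⊕ Fin n) ℂ) (z : Fin n → ℂ) :
    HasFDerivAt (fun w : Fin n → ℂ => MvPolynomial.eval (pt w) q) (cntL z q) z := by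
  induction q using MvPolynomial.induction_on with
  | C a =>
    have h1 : cntL z (MvPolynomial.C a) = 0 := by
      ext1 v
      rw [cnt_apply]
      apply Finset.sum_eq_zero
      intro i _
      rw [MvPolynomial.pderiv_C, MvPolynomial.pderiv_C, map_zero, mul_zero, add_zero, zero_mul]
    have h2 : (fun w : Fin n → ℂ => MvPolynomial.eval (pt w) (MvPolynomial.C a)) = fun _ => a := by
      funext w
      rw [MvPolynomial.eval_C]
    rw [h1, h2]
    exact hasFDerivAt_const a z
  | add q q' hq hq' =>
    have h2 : (fun w : Fin n → ℂ => MvPolynomial.eval (pt w) (q + q')) =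
        fun w => MvPolynomial.eval (pt w) q + MvPolynomial.eval (pt w) q' := by
      funext w
      rw [map_add]
    rw [cnt_add, h2]
    exact hq.add hq'
  | mul_X q s hq =>
    have h2 : (fun w : Fin n → ℂ => MvPolynomial.eval (pt w) (q * MvPolynomial.X s)) =
        fun w => MvPolynomial.eval (pt w) q * pt w s := by
      funext w
      rw [map_mul, MvPolynomial.eval_X]
    rw [cnt_mul, h2, MvPolynomial.eval_X]
    apply hq.mul
    rcases s with k | k
    · rw [cnt_inl]
      exact hasFDerivAt_apply k z
    · rw [cnt_inr]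
      exact (Complex.hasDerivAt_exp (z k)).comp_hasFDerivAt z (hasFDerivAt_apply k z)

/-- **CNT**. The nondegenerate zeros of a system of exponential polynomials are countable. -/
theorem kCNT : S_CNT := by
  intro n p
  have hD : DiscreteTopology (NZ p) := by
    rw [discreteTopology_subtype_iff]
    intro z hz
    obtain ⟨h0, hdet⟩ := hz
    have h1 : HasFDerivAt (fun w : Fin n → ℂ => fun j => MvPolynomial.eval (pt w) (p j))
        (ContinuousLinearMap.pi fun j => cntL z (p j)) z :=
      hasFDerivAt_pi.2 fun j => cnt_der (p j) z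
    have hker : LinearMap.ker ((ContinuousLinearMap.pi fun j => cntL z (p j)) :
        (Fin n → ℂ) →L[ℂ] (Fin n → ℂ)).toLinearMap = ⊥ := by
      rw [LinearMap.ker_eq_bot']
      intro v hv
      apply Matrix.eq_zero_of_mulVec_eq_zero hdet
      funext j
      have h2 : cntL z (p j) v = 0 := congrFun hv j
      rw [cnt_apply] at h2
      exact h2
    obtain ⟨C, hC, hanti⟩ := LinearMap.exists_antilipschitzWith _ hker
    have h3 := h1.eventually_ne (c := 0) ⟨C, hanti⟩
    apply disjoint_iff.1
    rw [Filter.disjoint_principal_right]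
    filter_upwards [h3] with w hw hwz
    apply hw
    funext j
    exact hwz.1 j
  have hc : Countable (NZ p) := TopologicalSpace.separableSpace_iff_countable.1 inferInstance
  exact hc

end EPK
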