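import Pool.Agent.Lib.EPK.Spec2

/-! Consequences of closedness (MP_4c2ad3_nt, extension B). -/

set_option autoImplicit false

open Module

namespace EPK

private theorem CON_gen (K : IntermediateField ℚ ℂ) (hK : Closed K) (n : ℕ)
    (P : Fin n → MvPolynomial (Fin n ⊕ Fin n) K) (z : Fin n → ℂ)
    (h0 : ∀ j, MvPolynomial.aeval (pt z) (P j) = 0)
    (h1 : (Matrix.of (fun j i : Fin n =>
      MvPolynomial.aeval (pt z) (MvPolynomial.pderiv (Sum.inl i) (P j)) +
      Complex.exp (z i) * MvPolynomial.aeval (pt z) (MvPolynomial.pderiv (Sum.inr i) (P j)))).det ≠ 0) :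
    ∀ i, z i ∈ K := by
  have hev : ∀ Q : MvPolynomial (Fin n ⊕ Fin n) K,
      MvPolynomial.eval (pt z) (MvPolynomial.map (algebraMap K ℂ) Q) =
        MvPolynomial.aeval (pt z) Q := by
    intro Q
    rw [MvPolynomial.eval_map, MvPolynomial.aeval_def]
  apply hK n (fun j => MvPolynomial.map (algebraMap K ℂ) (P j))
  · intro j m
    rw [MvPolynomial.coeff_map]
    exact (MvPolynomial.coeff m (P j)).2
  · refine ⟨fun j => by rw [hev]; exact h0 j, ?_⟩
    have h2 : jac (fun j => MvPolynomial.map (algebraMap K ℂ) (P j)) z =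
        Matrix.of (fun j i : Fin n =>
          MvPolynomial.aeval (pt z) (MvPolynomial.pderiv (Sum.inl i) (P j)) +
          Complex.exp (z i) *
            MvPolynomial.aeval (pt z) (MvPolynomial.pderiv (Sum.inr i) (P j))) := by
      ext j i
      show MvPolynomial.eval (pt z) (MvPolynomial.pderiv (Sum.inl i)
          (MvPolynomial.map (algebraMap K ℂ) (P j))) + Complex.exp (z i) *
          MvPolynomial.eval (pt z) (MvPolynomial.pderiv (Sum.inr i)
          (MvPolynomial.map (algebraMap K ℂ) (P j))) = _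
      rw [MvPolynomial.pderiv_map, MvPolynomial.pderiv_map, hev, hev]
      rfl
    rw [h2]
    exact h1

theorem kCON : S_CON := by
  intro K hK
  refine ⟨?_, ?_, ?_⟩
  · intro x hx
    have hi : IsIntegral K x := hx.isIntegral
    have hf0 : Polynomial.aeval x (minpoly K x) = 0 := minpoly.aeval K x
    have hf1 : Polynomial.aeval x (Polynomial.derivative (minpoly K x)) ≠ 0 :=
      ((minpoly.irreducible hi).separable).aeval_derivative_ne_zero hf0
    have hx0 : ∀ Q : Polynomial K, MvPolynomial.aeval (pt (fun _ : Fin 1 => x))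
        (Polynomial.aeval (MvPolynomial.X (Sum.inl 0) : MvPolynomial (Fin 1 ⊕ Fin 1) K) Q) =
        Polynomial.aeval x Q := by
      intro Q
      rw [← Polynomial.aeval_algHom_apply, MvPolynomial.aeval_X]
      rfl
    refine CON_gen K hK 1 (fun _ => Polynomial.aeval (MvPolynomial.X (Sum.inl 0)) (minpoly K x))
      (fun _ => x) (fun j => by rw [hx0]; exact hf0) ?_ 0
    rw [Matrix.det_fin_one, Matrix.of_apply, Derivation.map_aeval, Derivation.map_aeval,
      MvPolynomial.pderiv_X_self, MvPolynomial.pderiv_X_of_ne (by simp), smul_eq_mul, mul_one,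
      smul_zero, map_zero, mul_zero, add_zero, hx0]
    exact hf1
  · intro z hz
    have h := CON_gen K hK 2 ![MvPolynomial.X (Sum.inl 0) - MvPolynomial.C (⟨z, hz⟩ : K),
      MvPolynomial.X (Sum.inl 1) - MvPolynomial.X (Sum.inr 0)] ![z, Complex.exp z] ?_ ?_ 1
    · simpa using h
    · intro j
      fin_cases j
      · simp [pt]
      · simp [pt]
    · rw [Matrix.det_fin_two]
      simp [pt, MvPolynomial.pderiv_X, Pi.single_apply]
  · intro z hz
    refine CON_gen K hK 1 (fun _ => MvPolynomial.X (Sum.inr 0) -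
      MvPolynomial.C (⟨Complex.exp z, hz⟩ : K)) (fun _ => z) (fun j => ?_) ?_ 0
    · simp [pt]
    · rw [Matrix.det_fin_one]
      simp [pt, MvPolynomial.pderiv_X]

end EPK
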