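import Pool.Agent.Lib.EPI.Spec
import Pool.Agent.Lib.EPK.Spec2

/-!
The criterion CRIT for subspaces of the span (proof of the seat which wrote EPI/CRIT.lean, adapted).
-/

set_option autoImplicit false

open Complex Module EPI

namespace EPK

private theorem CRITK_zero {E : ℂ → ℂ} (ha : ∀ x y, E (x + y) = E x * E y) (hn : ∀ x, E x ≠ 0) :
    E 0 = 1 := by
  have h := ha 0 0
  rw [add_zero] at h
  exact mul_left_cancel₀ (hn 0) (by rw [← h, mul_one])

private theorem CRITK_nsmul {E : ℂ → ℂ} (ha : ∀ x y, E (x + y) = E x * E y) (hn : ∀ x, E x ≠ 0)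
    (n : ℕ) (x : ℂ) : E (n • x) = E x ^ n := by
  induction n with
  | zero => rw [zero_smul, pow_zero, CRITK_zero ha hn]
  | succ n ih => rw [succ_nsmul, ha, ih, pow_succ]

private theorem CRITK_neg {E : ℂ → ℂ} (ha : ∀ x y, E (x + y) = E x * E y) (hn : ∀ x, E x ≠ 0)
    (x : ℂ) : E (-x) = (E x)⁻¹ := by
  have h := ha x (-x)
  rw [add_neg_cancel, CRITK_zero ha hn] at h
  exact eq_inv_of_mul_eq_one_right h.symm

/-- the numbers `w` with `E w` in `cl S` -/
private noncomputable def CRITK_M {E : ℂ → ℂ} (ha : ∀ x y, E (x + y) = E x * E y)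
    (hn : ∀ x, E x ≠ 0) (S : Set ℂ) : Submodule ℚ ℂ where
  carrier := {w | E w ∈ cl S}
  zero_mem' := by
    show E 0 ∈ cl S
    rw [CRITK_zero ha hn]
    exact (cl S).one_mem
  add_mem' := by
    intro a b h1 h2
    show E (a + b) ∈ cl S
    rw [ha]
    exact (cl S).mul_mem h1 h2
  smul_mem' := by
    intro q x hx
    show E (q • x) ∈ cl S
    refine mem_cl_of_pow (n := q.den) q.den_pos ?_
    rw [← CRITK_nsmul ha hn]
    have h : q.den • (q • x) = q.num • x := by
      rw [← Nat.cast_smul_eq_nsmul ℚ, smul_smul, Rat.den_mul_eq_num, Int.cast_smul_eq_zsmul]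
    rw [h]
    rcases Int.eq_nat_or_neg q.num with ⟨k, hk | hk⟩
    · rw [hk, natCast_zsmul, CRITK_nsmul ha hn]
      exact pow_mem hx k
    · rw [hk, neg_smul, natCast_zsmul, CRITK_neg ha hn, CRITK_nsmul ha hn]
      exact inv_mem (pow_mem hx k)

private theorem CRITK_mem_M {E : ℂ → ℂ} (ha : ∀ x y, E (x + y) = E x * E y)
    (hn : ∀ x, E x ≠ 0) (S : Set ℂ) (w : ℂ) : w ∈ CRITK_M ha hn S ↔ E w ∈ cl S := Iff.rfl

/-- `cl S` as a subspace -/
private noncomputable def CRITK_K (S : Set ℂ) : Submodule ℚ ℂ := (cl S).toSubalgebra.toSubmodule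

private theorem CRITK_mem_K (S : Set ℂ) (w : ℂ) : w ∈ CRITK_K S ↔ w ∈ cl S := Iff.rfl

/-- the kernel of a functional on a subspace -/
private theorem CRITK_dim (V : Submodule ℚ ℂ) [FiniteDimensional ℚ V] (c : ℂ →ₗ[ℚ] ℚ)
    (hc : ∃ v ∈ V, c v ≠ 0) :
    finrank ℚ (V ⊓ LinearMap.ker c : Submodule ℚ ℂ) + 1 = finrank ℚ V := by
  obtain ⟨v, hv, hcv⟩ := hc
  have h1 := LinearMap.finrank_range_add_finrank_ker (c ∘ₗ V.subtype)
  have h2 : LinearMap.range (c ∘ₗ V.subtype) = ⊤ := by
    rw [eq_top_iff]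
    intro x _
    refine ⟨(x / c v) • ⟨v, hv⟩, ?_⟩
    rw [map_smul, LinearMap.comp_apply, Submodule.subtype_apply, smul_eq_mul]
    field_simp
  rw [h2, finrank_top, finrank_self, LinearMap.ker_comp] at h1
  rw [← Submodule.map_comap_subtype, Submodule.finrank_map_subtype_eq]
  omega

private theorem CRITK_fin {κ : Type} (B : Basis κ ℚ ℂ) (V : Submodule ℚ ℂ)
    [FiniteDimensional ℚ V] : {j : κ | ∃ v ∈ V, B.repr v j ≠ 0}.Finite := by
  classical
  obtain ⟨s, hs⟩ := (IsNoetherian.noetherian (⊤ : Submodule ℚ V)).map V.subtype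
  rw [Submodule.map_top, Submodule.range_subtype] at hs
  have h1 : (⋃ v ∈ (s : Set ℂ), {j : κ | B.repr v j ≠ 0}).Finite := by
    refine s.finite_toSet.biUnion fun v _ => ?_
    refine (B.repr v).support.finite_toSet.subset fun j hj => ?_
    exact Finsupp.mem_support_iff.2 hj
  refine h1.subset ?_
  rintro j ⟨v, hv, hj⟩
  by_contra hcon
  have h2 : ∀ w ∈ s, B.repr w j = 0 := by
    intro w hw
    by_contra h3
    exact hcon (Set.mem_biUnion (x := w) hw h3)
  have h4 : V ≤ LinearMap.ker (B.coord j) := by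
    rw [← hs, Submodule.span_le]
    intro w hw
    exact h2 w hw
  exact hj (h4 hv)

private theorem CRITK_ext {ι : Type} {v : ι → ℂ} (h : LinearIndependent ℚ v) :
    ∃ (κ : Type) (B : Basis (ι ⊕ κ) ℚ ℂ), ∀ j, B (Sum.inl j) = v j := by
  obtain ⟨N, hN⟩ := Submodule.exists_isCompl (Submodule.span ℚ (Set.range v))
  refine ⟨_, (((Basis.span h).prod (Basis.ofVectorSpace ℚ N)).map
    (Submodule.prodEquivOfIsCompl _ N hN)), fun j => ?_⟩
  rw [Basis.map_apply, Basis.prod_apply, Sum.elim_inl]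
  simp [Basis.span_apply]

theorem kCRITK (hCL : S_CL) (hTD : S_TD2) (E : ℂ → ℂ) (ha : ∀ x y, E (x + y) = E x * E y)
    (hn : ∀ x, E x ≠ 0) (ι : Type) (k0 : ℕ) (b0 : Fin k0 → ℂ) (b : ι → ℂ) (st : ι → ℕ)
    (T : ι → Set ℂ) (hli : LinearIndependent ℚ (Sum.elim b0 b))
    (H1 : ∀ h h', h' ≠ h → st h' ≤ st h → b h' ∈ cl (T h) ∧ E (b h') ∈ cl (T h))
    (H0 : ∀ h i, b0 i ∈ cl (T h) ∧ E (b0 i) ∈ cl (T h))
    (Hx : ∀ h, (b h ∈ cl (T h) ∧ E (b h) ∉ cl (T h)) ∨ (E (b h) ∈ cl (T h) ∧ b h ∉ cl (T h)))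
    (V : Submodule ℚ ℂ) (hVf : FiniteDimensional ℚ V)
    (hVM0 : V ≤ Submodule.span ℚ (Set.range (Sum.elim b0 b))) (k : ℕ)
    (hk0 : Ge (((V ⊓ Submodule.span ℚ (Set.range b0) : Submodule ℚ ℂ) : Set ℂ) ∪
      E '' ((V ⊓ Submodule.span ℚ (Set.range b0) : Submodule ℚ ℂ) : Set ℂ)) k) :
    Ge ((V : Set ℂ) ∪ E '' (V : Set ℂ))
      (k + (finrank ℚ V -
        finrank ℚ (V ⊓ Submodule.span ℚ (Set.range b0) : Submodule ℚ ℂ))) := by
  classical
  obtain ⟨hC1, -, -, -⟩ := hCL
  obtain ⟨κ, B, hB⟩ : ∃ (κ : Type) (B : Basis ((Fin k0 ⊕ ι) ⊕ κ) ℚ ℂ),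
      ∀ j, B (Sum.inl j) = Sum.elim b0 b j := CRITK_ext hli
  obtain ⟨M, hM0⟩ : ∃ M : Submodule ℚ ℂ, M = Submodule.span ℚ (Set.range (Sum.elim b0 b)) :=
    ⟨_, rfl⟩
  have hM : ∀ v ∈ M, ∀ x : κ, B.repr v (Sum.inr x) = 0 := by
    intro v hv x
    have h1 : M ≤ LinearMap.ker (B.coord (Sum.inr x)) := by
      rw [hM0, Submodule.span_le]
      rintro _ ⟨j, rfl⟩
      show B.repr (Sum.elim b0 b j) (Sum.inr x) = 0
      rw [← hB, B.repr_self, Finsupp.single_apply, if_neg Sum.inl_ne_inr]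
    exact h1 hv
  have hDz : ∀ v ∈ Submodule.span ℚ (Set.range b0), ∀ h, B.repr v (Sum.inl (Sum.inr h)) = 0 := by
    intro v hv h
    have h1 : Submodule.span ℚ (Set.range b0) ≤ LinearMap.ker (B.coord (Sum.inl (Sum.inr h))) := by
      rw [Submodule.span_le]
      rintro _ ⟨i, rfl⟩
      have h2 : b0 i = B (Sum.inl (Sum.inl i)) := by rw [hB]; rfl
      show B.repr (b0 i) (Sum.inl (Sum.inr h)) = 0
      rw [h2, B.repr_self, Finsupp.single_apply,
        if_neg (fun h9 => Sum.inl_ne_inr (Sum.inl_injective h9))]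
    exact h1 hv
  have hDm : ∀ v ∈ M, (∀ h, B.repr v (Sum.inl (Sum.inr h)) = 0) →
      v ∈ Submodule.span ℚ (Set.range b0) := by
    intro v hvM hv
    rw [← B.linearCombination_repr v, Finsupp.linearCombination_apply]
    refine Submodule.sum_mem _ fun j hj => ?_
    rcases j with (i | h) | x
    · refine Submodule.smul_mem _ _ ?_
      rw [hB]
      exact Submodule.subset_span ⟨i, rfl⟩
    · exact absurd (hv h) (Finsupp.mem_support_iff.1 hj)
    · exact absurd (hM v hvM x) (Finsupp.mem_support_iff.1 hj)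
  have hN : ∀ (h : ι), ∀ w ∈ M, B.repr w (Sum.inl (Sum.inr h)) = 0 →
      (∀ h', B.repr w (Sum.inl (Sum.inr h')) ≠ 0 → st h' ≤ st h) →
      w ∈ CRITK_K (T h) ⊓ CRITK_M ha hn (T h) := by
    intro h w hwM hw hw'
    rw [← B.linearCombination_repr w, Finsupp.linearCombination_apply]
    refine Submodule.sum_mem _ fun j hj => Submodule.smul_mem _ _ ?_
    rcases j with (i | h') | x
    · rw [hB]
      exact ⟨(H0 h i).1, (H0 h i).2⟩
    · rw [hB]
      have hj' := Finsupp.mem_support_iff.1 hj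
      have hne : h' ≠ h := by
        rintro rfl
        exact hj' hw
      exact ⟨(H1 h h' hne (hw' h' hj')).1, (H1 h h' hne (hw' h' hj')).2⟩
    · exact absurd (hM w hwM x) (Finsupp.mem_support_iff.1 hj)
  have main : ∀ (n : ℕ) (V : Submodule ℚ ℂ), FiniteDimensional ℚ V → V ≤ M → finrank ℚ V = n →
      ∀ k : ℕ, Ge (((V ⊓ Submodule.span ℚ (Set.range b0) : Submodule ℚ ℂ) : Set ℂ) ∪
        E '' ((V ⊓ Submodule.span ℚ (Set.range b0) : Submodule ℚ ℂ) : Set ℂ)) k →
      Ge ((V : Set ℂ) ∪ E '' (V : Set ℂ)) (k + (finrank ℚ V -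
        finrank ℚ (V ⊓ Submodule.span ℚ (Set.range b0) : Submodule ℚ ℂ))) := by
    intro n
    induction n using Nat.strong_induction_on with
    | _ n ih =>
      intro V hV hVM hVn k hk
      by_cases hVD : V ≤ Submodule.span ℚ (Set.range b0)
      · rw [inf_eq_left.2 hVD] at hk ⊢
        rw [Nat.sub_self, add_zero]
        exact hk
      · obtain ⟨F, hF⟩ : ∃ F : Set ι, F = {h : ι | ∃ v ∈ V, B.repr v (Sum.inl (Sum.inr h)) ≠ 0} :=
          ⟨_, rfl⟩
        have hFf : F.Finite := by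
          have h1 : ((fun h : ι => (Sum.inl (Sum.inr h) : (Fin k0 ⊕ ι) ⊕ κ)) ⁻¹'
              {j : (Fin k0 ⊕ ι) ⊕ κ | ∃ v ∈ V, B.repr v j ≠ 0}).Finite :=
            (CRITK_fin B V).preimage
              (fun a _ b _ hab => Sum.inr_injective (Sum.inl_injective hab))
          rw [hF]
          exact h1
        have hFn : F.Nonempty := by
          by_contra hcon
          refine hVD fun v hv => hDm v (hVM hv) fun h => ?_
          by_contra h3
          exact hcon ⟨h, by rw [hF]; exact ⟨v, hv, h3⟩⟩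
        obtain ⟨h, hh, hmax⟩ := Set.exists_max_image F st hFf hFn
        have hmax' : ∀ v ∈ V, ∀ h', B.repr v (Sum.inl (Sum.inr h')) ≠ 0 → st h' ≤ st h := by
          intro v hv h' hv'
          exact hmax h' (by rw [hF]; exact ⟨v, hv, hv'⟩)
        rw [hF] at hh
        obtain ⟨v, hv, hvh⟩ := hh
        obtain ⟨V1, hV1⟩ : ∃ V1 : Submodule ℚ ℂ, V1 = V ⊓ LinearMap.ker (B.coord (Sum.inl (Sum.inr h))) :=
          ⟨_, rfl⟩
        have hV1V : V1 ≤ V := by rw [hV1]; exact inf_le_left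
        have hV1z : ∀ w ∈ V1, B.repr w (Sum.inl (Sum.inr h)) = 0 := by
          intro w hw
          rw [hV1] at hw
          exact hw.2
        have hdim : finrank ℚ V1 + 1 = finrank ℚ V := by
          rw [hV1]
          exact CRITK_dim V (B.coord (Sum.inl (Sum.inr h))) ⟨v, hv, hvh⟩
        have hfd : FiniteDimensional ℚ V1 := Submodule.finiteDimensional_of_le hV1V
        have hinf : V1 ⊓ Submodule.span ℚ (Set.range b0) =
            V ⊓ Submodule.span ℚ (Set.range b0) := by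
          apply le_antisymm
          · exact inf_le_inf_right _ hV1V
          · intro w hw
            refine ⟨?_, hw.2⟩
            rw [hV1]
            exact ⟨hw.1, hDz w hw.2 h⟩
        have hle : finrank ℚ (V ⊓ Submodule.span ℚ (Set.range b0) : Submodule ℚ ℂ) ≤
            finrank ℚ V1 := by
          rw [← hinf]
          exact Submodule.finrank_mono inf_le_left
        have hG := ih (finrank ℚ V1) (by omega) V1 hfd (hV1V.trans hVM) rfl k (by rw [hinf]; exact hk)
        rw [hinf] at hG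
        have hcount : k + (finrank ℚ V -
            finrank ℚ (V ⊓ Submodule.span ℚ (Set.range b0) : Submodule ℚ ℂ)) =
            k + (finrank ℚ V1 -
            finrank ℚ (V ⊓ Submodule.span ℚ (Set.range b0) : Submodule ℚ ℂ)) + 1 := by
          omega
        rw [hcount]
        -- the space `V1` lies in `cl (T h)`
        have hS : (V1 : Set ℂ) ∪ E '' (V1 : Set ℂ) ⊆ cl (T h) := by
          rintro x (hx | ⟨w, hw, rfl⟩)
          · exact (hN h x (hVM (hV1V hx)) (hV1z x hx) (hmax' x (hV1V hx))).1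
          · exact (hN h w (hVM (hV1V hw)) (hV1z w hw) (hmax' w (hV1V hw))).2
        have hS' : (V1 : Set ℂ) ∪ E '' (V1 : Set ℂ) ⊆ cl ((V : Set ℂ) ∪ E '' (V : Set ℂ)) :=
          (Set.union_subset_union hV1V (Set.image_mono hV1V)).trans (hC1 _)
        -- the remaining part of `v`
        obtain ⟨c, hc⟩ : ∃ c : ℚ, c = B.repr v (Sum.inl (Sum.inr h)) := ⟨_, rfl⟩
        have hc0 : c ≠ 0 := by rw [hc]; exact hvh
        have hbh : b h = B (Sum.inl (Sum.inr h)) := by rw [hB]; rfl
        have hw : v - c • b h ∈ CRITK_K (T h) ⊓ CRITK_M ha hn (T h) := by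
          have hr : ∀ h', B.repr (v - c • b h) (Sum.inl (Sum.inr h')) =
              B.repr v (Sum.inl (Sum.inr h')) - if h = h' then c else 0 := by
            intro h'
            rw [map_sub, map_smul, hbh, B.repr_self, Finsupp.sub_apply, Finsupp.smul_apply,
              Finsupp.single_apply, smul_eq_mul]
            by_cases hh' : h = h'
            · rw [if_pos hh', if_pos (by rw [hh']), mul_one]
            · rw [if_neg hh', if_neg (fun h4 => hh' (Sum.inr_injective (Sum.inl_injective h4))), mul_zero]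
          have hbM : b h ∈ M := by
            rw [hM0]
            exact Submodule.subset_span ⟨Sum.inr h, rfl⟩
          apply hN h _ (M.sub_mem (hVM hv) (M.smul_mem c hbM))
          · rw [hr, if_pos rfl, hc, sub_self]
          · intro h' hh'
            rw [hr] at hh'
            by_cases h4 : h = h'
            · rw [h4]
            · rw [if_neg h4, sub_zero] at hh'
              exact hmax' v hv h' hh'
        have key : ∀ P : Submodule ℚ ℂ, v - c • b h ∈ P → v ∈ P → b h ∈ P := by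
          intro P h5 h6
          have h7 : c • b h ∈ P := by
            have h8 := P.sub_mem h6 h5
            rwa [sub_sub_cancel] at h8
          have h9 := P.smul_mem c⁻¹ h7
          rwa [smul_smul, inv_mul_cancel₀ hc0, one_smul] at h9
        rcases Hx h with ⟨_, h5⟩ | ⟨_, h5⟩
        · refine hTD _ _ (T h) (E v) _ hG hS hS' (hC1 _ (Or.inr ⟨v, hv, rfl⟩)) fun h6 => ?_
          exact h5 (key (CRITK_M ha hn (T h)) hw.2 h6)
        · refine hTD _ _ (T h) v _ hG hS hS' (hC1 _ (Or.inl hv)) fun h6 => ?_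
          exact h5 (key (CRITK_K (T h)) hw.1 h6)
  exact main _ V hVf (by rw [hM0]; exact hVM0) rfl k hk0

end EPK
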