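import Pool.Agent.Lib.EPK.Spec1

/-!
Existence of the derivation d/du (MP_4c2ad3_nt).
-/

set_option autoImplicit false

open Module

namespace EPK

open scoped TensorProduct IntermediateField.algebraAdjoinAdjoin

section

variable {K F : Type} [Field K] [Field F] [Algebra K F]

/-- `p ↦ p'(u)`. -/
private noncomputable def DER_E (u : F) (p : Polynomial K) : F :=
  Polynomial.aeval u (Polynomial.derivative p)

private theorem DER_E_add (u : F) (p q : Polynomial K) :
    DER_E u (p + q) = DER_E u p + DER_E u q := by
  unfold DER_E
  rw [Polynomial.derivative_add, map_add]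

private theorem DER_E_smul (u : F) (c : K) (p : Polynomial K) :
    DER_E u (c • p) = c • DER_E u p := by
  unfold DER_E
  rw [Polynomial.derivative_smul, map_smul]

private theorem DER_E_mul (u : F) (p q : Polynomial K) :
    DER_E u (p * q) = Polynomial.aeval u p * DER_E u q +
      Polynomial.aeval u q * DER_E u p := by
  unfold DER_E
  rw [Polynomial.derivative_mul, map_add, map_mul, map_mul]
  ring

private theorem DER_E_X (u : F) : DER_E (K := K) u Polynomial.X = 1 := by
  unfold DER_E
  rw [Polynomial.derivative_X, map_one]

private theorem DER_E_congr {u : F} (hu : Transcendental K u)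
    (p q : Polynomial K) (h : Polynomial.aeval u p = Polynomial.aeval u q) :
    DER_E u p = DER_E u q := by
  rw [transcendental_iff_injective.1 hu h]

private theorem DER_surj (u : F) (x : Algebra.adjoin K ({u} : Set F)) :
    ∃ p : Polynomial K, Polynomial.aeval u p = (x : F) := by
  obtain ⟨y, hy⟩ := x
  have h1 := hy
  rw [Algebra.adjoin_singleton_eq_range_aeval] at h1
  obtain ⟨p, hp⟩ := h1
  exact ⟨p, hp⟩

private theorem DER_der {u : F} (hu : Transcendental K u) :
    ∃ δ : Derivation K (Algebra.adjoin K ({u} : Set F)) F,
      ∀ (x : Algebra.adjoin K ({u} : Set F)), (x : F) = u → δ x = 1 := by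
  choose p hp using DER_surj (K := K) u
  have key := DER_E_congr hu
  let H : Algebra.adjoin K ({u} : Set F) →ₗ[K] F :=
    { toFun := fun x => DER_E u (p x)
      map_add' := fun x y => by
        rw [← DER_E_add]
        refine key _ _ ?_
        rw [map_add, hp, hp, hp]
        rfl
      map_smul' := fun c x => by
        rw [RingHom.id_apply, ← DER_E_smul]
        refine key _ _ ?_
        rw [map_smul, hp, hp]
        rfl }
  have hH : ∀ x, H x = DER_E u (p x) := fun _ => rfl
  refine ⟨Derivation.mk' H ?_, ?_⟩
  · intro x y
    rw [hH, hH, hH, Algebra.smul_def, Algebra.smul_def]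
    have e1 : DER_E u (p (x * y)) = DER_E u (p x * p y) := by
      refine key _ _ ?_
      rw [map_mul, hp, hp, hp]
      rfl
    rw [e1, DER_E_mul, hp, hp]
    rfl
  · intro x hx
    show DER_E u (p x) = 1
    rw [← DER_E_X (K := K) u]
    refine key _ _ ?_
    rw [hp, hx, Polynomial.aeval_X]

private theorem DER_ext [CharZero F] {u : F} (hu : Transcendental K u)
    (halg : ∀ z : F, IsAlgebraic (IntermediateField.adjoin K ({u} : Set F)) z) :
    ∃ d : Derivation K F F, d u = 1 := by
  obtain ⟨δ, hδ⟩ := DER_der hu
  have h1 : Algebra.FormallyEtale (Algebra.adjoin K ({u} : Set F))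
      (IntermediateField.adjoin K ({u} : Set F)) :=
    Algebra.FormallyEtale.of_isLocalization
      (nonZeroDivisors (Algebra.adjoin K ({u} : Set F)))
  have h2 : Algebra.IsAlgebraic (IntermediateField.adjoin K ({u} : Set F)) F := ⟨halg⟩
  have hc : CharZero (IntermediateField.adjoin K ({u} : Set F)) :=
    charZero_of_injective_algebraMap
      (algebraMap ℚ (IntermediateField.adjoin K ({u} : Set F))).injective
  have h3 : Algebra.IsSeparable (IntermediateField.adjoin K ({u} : Set F)) F := inferInstance
  have h4 : Algebra.FormallyEtale (IntermediateField.adjoin K ({u} : Set F)) F :=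
    Algebra.FormallyEtale.of_isSeparable _ _
  have h5 : Algebra.FormallyEtale (Algebra.adjoin K ({u} : Set F)) F :=
    Algebra.FormallyEtale.comp _ (IntermediateField.adjoin K ({u} : Set F)) _
  let L := (δ.liftKaehlerDifferential).liftBaseChange F
  refine ⟨(L ∘ₗ (KaehlerDifferential.tensorKaehlerEquivOfFormallyEtale K
    (Algebra.adjoin K ({u} : Set F)) F).symm.toLinearMap).compDer
      (KaehlerDifferential.D K F), ?_⟩
  have hwi : u ∈ Algebra.adjoin K ({u} : Set F) := Algebra.self_mem_adjoin_singleton K u
  have e1 : u = algebraMap (Algebra.adjoin K ({u} : Set F)) F ⟨u, hwi⟩ := rfl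
  have e2 := KaehlerDifferential.tensorKaehlerEquivOfFormallyEtale_symm_D_algebraMap K
    (Algebra.adjoin K ({u} : Set F)) F ⟨u, hwi⟩
  show L ((KaehlerDifferential.tensorKaehlerEquivOfFormallyEtale K
    (Algebra.adjoin K ({u} : Set F)) F).symm (KaehlerDifferential.D K F u)) = 1
  have e3 : KaehlerDifferential.D K F u = KaehlerDifferential.D K F
      (algebraMap (Algebra.adjoin K ({u} : Set F)) F ⟨u, hwi⟩) := rfl
  rw [e3, e2]
  show (δ.liftKaehlerDifferential).liftBaseChange F
    (1 ⊗ₜ KaehlerDifferential.D K (Algebra.adjoin K ({u} : Set F)) ⟨u, hwi⟩) = 1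
  rw [LinearMap.liftBaseChange_tmul, one_smul, Derivation.liftKaehlerDifferential_comp_D]
  exact hδ _ rfl

end

theorem kDER : S_DER := by
  intro C F _ _ _ _ u hu
  have hs : AlgebraicIndepOn C id ({u} : Set F) := by
    have h0 : AlgebraicIndependent C (fun i : ({u} : Set F) => id (i : F)) :=
      (algebraicIndependent_singleton_iff (⟨u, rfl⟩ : ({u} : Set F))).2 hu
    exact h0
  obtain ⟨t, hut, ht⟩ := exists_isTranscendenceBasis_superset hs
  have hu_t : u ∈ t := hut rfl
  -- the field `k`
  let s : Set t := {x | (x : F) ≠ u}
  let S : Set F := (fun x : t => (x : F)) '' s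
  have htr : Transcendental (Algebra.adjoin C S) u :=
    ht.1.transcendental_adjoin (s := s) (i := ⟨u, hu_t⟩) (fun h => h rfl)
  have htr' : Transcendental (IntermediateField.adjoin C S) u := fun h =>
    htr ((IsFractionRing.isAlgebraic_iff (Algebra.adjoin C S) (IntermediateField.adjoin C S) F).2 h)
  have halg : ∀ z : F, IsAlgebraic
      (IntermediateField.adjoin (IntermediateField.adjoin C S) ({u} : Set F)) z := by
    intro z
    have h1 := ht.isAlgebraic_field
    have h2 : IsAlgebraic (IntermediateField.adjoin C (Set.range ((↑) : t → F))) z :=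
      h1.isAlgebraic z
    have hle : ∀ x ∈ IntermediateField.adjoin C (Set.range ((↑) : t → F)),
        x ∈ IntermediateField.adjoin (IntermediateField.adjoin C S) ({u} : Set F) := by
      have h3 : IntermediateField.adjoin C (Set.range ((↑) : t → F)) ≤
          (IntermediateField.adjoin (IntermediateField.adjoin C S)
            ({u} : Set F)).restrictScalars C := by
        rw [IntermediateField.adjoin_le_iff]
        rintro x ⟨y, rfl⟩
        show (y : F) ∈ IntermediateField.adjoin (IntermediateField.adjoin C S) ({u} : Set F)
        by_cases hy : (y : F) = u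
        · rw [hy]
          exact IntermediateField.mem_adjoin_simple_self _ u
        · have h4 : (y : F) ∈ IntermediateField.adjoin C S :=
            IntermediateField.subset_adjoin C S ⟨y, hy, rfl⟩
          exact IntermediateField.algebraMap_mem
            (IntermediateField.adjoin (IntermediateField.adjoin C S) ({u} : Set F)) ⟨(y : F), h4⟩
      exact fun x hx => h3 hx
    let f : IntermediateField.adjoin C (Set.range ((↑) : t → F)) →+*
        IntermediateField.adjoin (IntermediateField.adjoin C S) ({u} : Set F) :=
      { toFun := fun x => ⟨x.1, hle x.1 x.2⟩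
        map_one' := rfl
        map_mul' := fun _ _ => rfl
        map_zero' := rfl
        map_add' := fun _ _ => rfl }
    exact h2.ringHom_of_comp_eq f (RingHom.id F) f.injective rfl
  obtain ⟨d, hd⟩ := DER_ext htr' halg
  exact ⟨IntermediateField.adjoin C S, d, htr', halg, hd⟩

end EPK
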