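import Pool.Agent.Lib.EPK.Spec1

/-!
EPK, module DIM: derivations and the transcendence degree.
-/

set_option autoImplicit false

open Module

namespace EPK

/-- a derivation over `C` which vanishes on a transcendence basis is zero -/
private theorem DIM_zero {C F : Type} [Field C] [Field F] [CharZero F] [Algebra C F] {ι : Type}
    {b : ι → F} (hb : IsTranscendenceBasis C b) (d : Derivation C F F) (hd : ∀ j, d (b j) = 0) :
    d = 0 := by
  have hK : ∀ x ∈ IntermediateField.adjoin C (Set.range b), d x = 0 := by
    intro x hx
    induction hx using IntermediateField.adjoin_induction with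
    | mem x hx => obtain ⟨j, rfl⟩ := hx; exact hd j
    | algebraMap x => exact d.map_algebraMap x
    | add x y _ _ h1 h2 => rw [map_add, h1, h2, add_zero]
    | inv x _ h => rw [d.leibniz_inv, h, smul_zero]
    | mul x y _ _ h1 h2 => rw [d.leibniz, h1, h2, smul_zero, smul_zero, add_zero]
  have hKalg : Algebra.IsAlgebraic (IntermediateField.adjoin C (Set.range b)) F :=
    hb.isAlgebraic_field
  have hc0 : CharZero (IntermediateField.adjoin C (Set.range b)) :=
    (algebraMap (IntermediateField.adjoin C (Set.range b)) F).charZero
  let l : F →ₗ[IntermediateField.adjoin C (Set.range b)] F :=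
    { toFun := fun x => d x
      map_add' := fun x y => map_add d x y
      map_smul' := by
        intro c x
        rw [RingHom.id_apply, Algebra.smul_def, Algebra.smul_def, d.leibniz]
        have h1 : d ((algebraMap (IntermediateField.adjoin C (Set.range b)) F) c) = 0 :=
          hK _ c.2
        rw [h1, smul_zero, add_zero, smul_eq_mul] }
  let d' : Derivation (IntermediateField.adjoin C (Set.range b)) F F :=
    Derivation.mk' l (fun x y => d.leibniz x y)
  have hd' : ∀ x, d' x = d x := fun x => rfl
  ext a
  have h1 := d'.map_aeval (minpoly (IntermediateField.adjoin C (Set.range b)) a) a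
  rw [minpoly.aeval, map_zero, hd'] at h1
  have h2 : Polynomial.aeval a (Polynomial.derivative
      (minpoly (IntermediateField.adjoin C (Set.range b)) a)) ≠ 0 :=
    (Algebra.IsSeparable.isSeparable _ _).aeval_derivative_ne_zero (minpoly.aeval _ _)
  rw [smul_eq_mul] at h1
  rcases mul_eq_zero.1 h1.symm with h3 | h3
  · exact absurd h3 h2
  · rw [h3]; rfl

theorem kDIM : S_DIM := by
  intro C F _ _ _ _ m x y hf
  obtain ⟨ι, b, hb⟩ := exists_isTranscendenceBasis' C F
  rw [← hb.cardinalMk_eq_trdeg]
  rcases lt_or_ge (Cardinal.mk ι) Cardinal.aleph0 with h | h
  · have hfin : Finite ι := Cardinal.lt_aleph0_iff_finite.1 h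
    have hft : Fintype ι := Fintype.ofFinite ι
    let Φ : Derivation C F F →ₗ[F] (ι → F) :=
      { toFun := fun d j => d (b j)
        map_add' := fun d e => rfl
        map_smul' := fun c d => rfl }
    have hΦ : Function.Injective Φ := by
      rw [injective_iff_map_eq_zero]
      intro d hd
      exact DIM_zero hb d (fun j => congrFun hd j)
    let W : Derivation C F F →ₗ[F] (Fin m → F) :=
      { toFun := fun d i => d (y i) / y i - d (x i)
        map_add' := by
          intro d e
          funext i
          show (d (y i) + e (y i)) / y i - (d (x i) + e (x i)) =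
            (d (y i) / y i - d (x i)) + (e (y i) / y i - e (x i))
          ring
        map_smul' := by
          intro c d
          funext i
          show (c * d (y i)) / y i - c * d (x i) = c * (d (y i) / y i - d (x i))
          ring }
    have hW : LinearMap.range W = ⊤ := by
      by_contra hne
      obtain ⟨φ, hφ, hle⟩ := Submodule.exists_le_ker_of_lt_top _ (lt_top_iff_ne_top.2 hne)
      apply hφ
      have h1 : (fun i => φ (Pi.single i 1)) = 0 := by
        apply hf
        intro d
        have h2 : φ (W d) = 0 := hle ⟨d, rfl⟩
        have h3 : φ (W d) = ∑ i, φ (Pi.single i 1) * (d (y i) / y i - d (x i)) := by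
          rw [LinearMap.pi_apply_eq_sum_univ φ (W d)]
          refine Finset.sum_congr rfl fun i _ => ?_
          have h4 : (fun j => if i = j then (1 : F) else 0) = Pi.single i 1 := by
            funext j
            rw [Pi.single_apply]
            by_cases hij : i = j
            · subst hij; simp
            · rw [if_neg hij, if_neg (fun h => hij h.symm)]
          rw [h4, smul_eq_mul, mul_comm]
          rfl
        rw [← h3]
        exact h2
      apply LinearMap.pi_ext'
      intro i
      apply LinearMap.ext_ring
      have h5 := congrFun h1 i
      show φ (Pi.single i 1) = 0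
      exact h5
    have hfinD : Module.Finite F (Derivation C F F) := Module.Finite.of_injective Φ hΦ
    have h6 : finrank F (Derivation C F F) ≤ finrank F (ι → F) :=
      LinearMap.finrank_le_finrank_of_injective hΦ
    have h7 : finrank F (Fin m → F) ≤ finrank F (Derivation C F F) := by
      have h8 := LinearMap.finrank_range_le W
      rw [hW, finrank_top] at h8
      exact h8
    rw [Module.finrank_fintype_fun_eq_card] at h6 h7
    rw [Fintype.card_fin] at h7
    rw [Cardinal.mk_fintype]
    exact_mod_cast h7.trans h6
  · exact (Cardinal.natCast_lt_aleph0 (n := m)).le.trans h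

end EPK
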