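import Pool.Agent.Lib.EPK.Spec1

/-!
Extension of a derivation to an algebraic extension (MP_4c2ad3_nt).
-/

set_option autoImplicit false

open Module

namespace EPK

open scoped TensorProduct IntermediateField.algebraAdjoinAdjoin

section

variable {K F ι : Type} [Field K] [Field F] [Algebra K F] [Fintype ι]

/-- The map `p ↦ ∑ (∂p/∂X_i)(w) a_i`. -/
private noncomputable def EXT_E (w a : ι → F) (p : MvPolynomial ι K) : F :=
  ∑ i, MvPolynomial.aeval w (MvPolynomial.pderiv i p) * a i

private theorem EXT_E_add (w a : ι → F) (p q : MvPolynomial ι K) :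
    EXT_E w a (p + q) = EXT_E w a p + EXT_E w a q := by
  unfold EXT_E
  rw [← Finset.sum_add_distrib]
  refine Finset.sum_congr rfl fun i _ => ?_
  rw [map_add, map_add, add_mul]

private theorem EXT_E_smul (w a : ι → F) (c : K) (p : MvPolynomial ι K) :
    EXT_E w a (c • p) = c • EXT_E w a p := by
  unfold EXT_E
  rw [Finset.smul_sum]
  refine Finset.sum_congr rfl fun i _ => ?_
  rw [Derivation.map_smul, map_smul, smul_mul_assoc]

private theorem EXT_E_mul (w a : ι → F) (p q : MvPolynomial ι K) :
    EXT_E w a (p * q) = MvPolynomial.aeval w p * EXT_E w a q +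
      MvPolynomial.aeval w q * EXT_E w a p := by
  unfold EXT_E
  rw [Finset.mul_sum, Finset.mul_sum, ← Finset.sum_add_distrib]
  refine Finset.sum_congr rfl fun i _ => ?_
  rw [Derivation.leibniz, map_add, smul_eq_mul, smul_eq_mul, map_mul, map_mul]
  ring

private theorem EXT_E_X (w a : ι → F) (j : ι) :
    EXT_E (K := K) w a (MvPolynomial.X j) = a j := by
  classical
  unfold EXT_E
  rw [Finset.sum_eq_single j]
  · rw [MvPolynomial.pderiv_X_self, map_one, one_mul]
  · intro i _ hij
    rw [MvPolynomial.pderiv_X_of_ne (Ne.symm hij), map_zero, zero_mul]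
  · intro h
    exact absurd (Finset.mem_univ j) h

private theorem EXT_E_congr (w a : ι → F)
    (hker : ∀ p : MvPolynomial ι K, MvPolynomial.aeval w p = 0 →
      ∑ i, MvPolynomial.aeval w (MvPolynomial.pderiv i p) * a i = 0)
    (p q : MvPolynomial ι K) (h : MvPolynomial.aeval w p = MvPolynomial.aeval w q) :
    EXT_E w a p = EXT_E w a q := by
  have h1 : MvPolynomial.aeval w (p + (-1 : K) • q) = 0 := by
    rw [map_add, map_smul, h, neg_smul, one_smul, add_neg_cancel]
  have h2 : EXT_E w a (p + (-1 : K) • q) = 0 := hker _ h1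
  rw [EXT_E_add, EXT_E_smul, neg_smul, one_smul] at h2
  exact sub_eq_zero.1 (by rw [sub_eq_add_neg]; exact h2)

omit [Fintype ι] in
private theorem EXT_surj (w : ι → F) (x : Algebra.adjoin K (Set.range w)) :
    ∃ p : MvPolynomial ι K, MvPolynomial.aeval w p = (x : F) := by
  obtain ⟨y, hy⟩ := x
  have h1 := hy
  rw [Algebra.adjoin_range_eq_range_aeval] at h1
  obtain ⟨p, hp⟩ := h1
  exact ⟨p, hp⟩

private theorem EXT_der (w a : ι → F)
    (hker : ∀ p : MvPolynomial ι K, MvPolynomial.aeval w p = 0 →
      ∑ i, MvPolynomial.aeval w (MvPolynomial.pderiv i p) * a i = 0) :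
    ∃ δ : Derivation K (Algebra.adjoin K (Set.range w)) F,
      ∀ (x : Algebra.adjoin K (Set.range w)) (i : ι), (x : F) = w i → δ x = a i := by
  choose p hp using EXT_surj (K := K) w
  have key := EXT_E_congr (K := K) w a hker
  let H : Algebra.adjoin K (Set.range w) →ₗ[K] F :=
    { toFun := fun x => EXT_E w a (p x)
      map_add' := fun x y => by
        rw [← EXT_E_add]
        refine key _ _ ?_
        rw [map_add, hp, hp, hp]
        rfl
      map_smul' := fun c x => by
        rw [RingHom.id_apply, ← EXT_E_smul]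
        refine key _ _ ?_
        rw [map_smul, hp, hp]
        rfl }
  have hH : ∀ x, H x = EXT_E w a (p x) := fun _ => rfl
  refine ⟨Derivation.mk' H ?_, ?_⟩
  · intro x y
    rw [hH, hH, hH, Algebra.smul_def, Algebra.smul_def]
    have e1 : EXT_E w a (p (x * y)) = EXT_E w a (p x * p y) := by
      refine key _ _ ?_
      rw [map_mul, hp, hp, hp]
      rfl
    rw [e1, EXT_E_mul, hp, hp]
    rfl
  · intro x i hx
    show EXT_E w a (p x) = a i
    rw [← EXT_E_X (K := K) w a i]
    refine key _ _ ?_
    rw [hp, hx, MvPolynomial.aeval_X]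

end

theorem kEXT : S_EXT := by
  intro K F ι _ _ _ _ _ w a hker halg
  obtain ⟨δ, hδ⟩ := EXT_der w a hker
  have h1 : Algebra.FormallyEtale (Algebra.adjoin K (Set.range w))
      (IntermediateField.adjoin K (Set.range w)) :=
    Algebra.FormallyEtale.of_isLocalization
      (nonZeroDivisors (Algebra.adjoin K (Set.range w)))
  have h2 : Algebra.IsAlgebraic (IntermediateField.adjoin K (Set.range w)) F := ⟨halg⟩
  have hc : CharZero (IntermediateField.adjoin K (Set.range w)) :=
    charZero_of_injective_algebraMap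
      (algebraMap ℚ (IntermediateField.adjoin K (Set.range w))).injective
  have h3 : Algebra.IsSeparable (IntermediateField.adjoin K (Set.range w)) F := inferInstance
  have h4 : Algebra.FormallyEtale (IntermediateField.adjoin K (Set.range w)) F :=
    Algebra.FormallyEtale.of_isSeparable _ _
  have h5 : Algebra.FormallyEtale (Algebra.adjoin K (Set.range w)) F :=
    Algebra.FormallyEtale.comp _ (IntermediateField.adjoin K (Set.range w)) _
  let L := (δ.liftKaehlerDifferential).liftBaseChange F
  refine ⟨(L ∘ₗ (KaehlerDifferential.tensorKaehlerEquivOfFormallyEtale K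
    (Algebra.adjoin K (Set.range w)) F).symm.toLinearMap).compDer
      (KaehlerDifferential.D K F), ?_⟩
  intro i
  have hwi : w i ∈ Algebra.adjoin K (Set.range w) := Algebra.subset_adjoin ⟨i, rfl⟩
  have e1 : w i = algebraMap (Algebra.adjoin K (Set.range w)) F ⟨w i, hwi⟩ := rfl
  have e2 := KaehlerDifferential.tensorKaehlerEquivOfFormallyEtale_symm_D_algebraMap K
    (Algebra.adjoin K (Set.range w)) F ⟨w i, hwi⟩
  show L ((KaehlerDifferential.tensorKaehlerEquivOfFormallyEtale K
    (Algebra.adjoin K (Set.range w)) F).symm (KaehlerDifferential.D K F (w i))) = a i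
  rw [e1, e2]
  show (δ.liftKaehlerDifferential).liftBaseChange F
    (1 ⊗ₜ KaehlerDifferential.D K (Algebra.adjoin K (Set.range w)) ⟨w i, hwi⟩) = a i
  rw [LinearMap.liftBaseChange_tmul, one_smul, Derivation.liftKaehlerDifferential_comp_D]
  exact hδ _ i rfl

end EPK
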