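import Pool.Agent.Lib.EPK.Spec2

/-!
`clK K S` is the closure in the matroid of algebraic independence over `K`.
-/

set_option autoImplicit false

open Module

namespace EPK

private theorem PICK_mem (K : IntermediateField ℚ ℂ) (S : Set ℂ) (x : ℂ) :
    x ∈ clK K S ↔ IsAlgebraic (IntermediateField.adjoin K S) x := by
  unfold clK
  rw [IntermediateField.mem_restrictScalars]
  exact mem_algebraicClosure_iff

private theorem PICK_key (K : IntermediateField ℚ ℂ) (S : Set ℂ) (x : ℂ) :
    x ∈ clK K S ↔ x ∈ (AlgebraicIndependent.matroid K ℂ).closure S := by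
  rw [PICK_mem, AlgebraicIndependent.matroid_closure_eq]
  exact IntermediateField.isAlgebraic_adjoin_iff

private theorem PICK_sub (K : IntermediateField ℚ ℂ) (S T : Set ℂ) :
    S ⊆ clK K T ↔ S ⊆ (AlgebraicIndependent.matroid K ℂ).closure T := by
  constructor
  · intro h x hx
    exact (PICK_key K T x).1 (h hx)
  · intro h x hx
    exact (PICK_key K T x).2 (h hx)

/-- an algebraic element stays algebraic over a larger field -/
private theorem PICK_alg {A B : Type} [Field A] [Field B] [Algebra A ℂ] [Algebra B ℂ] (f : A →+* B)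
    (h : ∀ a : A, algebraMap B ℂ (f a) = algebraMap A ℂ a) (x : ℂ) (hx : IsAlgebraic A x) :
    IsAlgebraic B x := by
  obtain ⟨p, hp, hpx⟩ := hx
  refine ⟨p.map f, (Polynomial.map_ne_zero_iff f.injective).2 hp, ?_⟩
  rw [Polynomial.aeval_def, Polynomial.eval₂_map]
  have : (algebraMap B ℂ).comp f = algebraMap A ℂ := RingHom.ext h
  rw [this]
  exact hpx

theorem kPICK : S_PICK := by
  intro K S n ⟨h, hh, hS⟩
  set M := AlgebraicIndependent.matroid K ℂ with hM
  have hr : M.Indep (Set.range h) := by
    rw [hM, AlgebraicIndependent.matroid_indep_iff]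
    exact AlgebraicIndependent.to_subtype_range hh
  have hcl : Set.range h ⊆ M.closure S := by
    rintro _ ⟨i, rfl⟩
    exact (PICK_key K S _).1 (hS i)
  obtain ⟨T, hT⟩ := M.exists_isBasis S
  have h1 : (n : ℕ∞) ≤ T.encard := by
    have h2 : (Set.range h).encard = n := by
      rw [← Set.image_univ, hh.injective.encard_image]
      simp
    rw [← h2, ← hr.eRk_eq_encard, hT.encard_eq_eRk]
    calc M.eRk (Set.range h) ≤ M.eRk (M.closure S) := M.eRk_mono hcl
      _ = M.eRk S := M.eRk_closure_eq S
  obtain ⟨T', hT', hc⟩ := Set.exists_subset_encard_eq h1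
  have hfin : T'.Finite := Set.finite_of_encard_eq_coe hc
  have hcard : Nat.card T' = n := by
    have h3 : T'.encard = (Nat.card T' : ℕ∞) := by
      rw [Nat.card_coe_set_eq]
      exact hfin.cast_ncard_eq.symm
    rw [h3] at hc
    exact_mod_cast hc
  have : Finite T' := hfin
  let e : Fin n ≃ T' := (Finite.equivFinOfCardEq hcard).symm
  have hi : M.Indep T' := hT.indep.subset hT'
  rw [hM, AlgebraicIndependent.matroid_indep_iff] at hi
  refine ⟨fun i => (e i : ℂ), ?_, fun i => hT.subset (hT' (e i).2)⟩
  exact AlgebraicIndependent.comp hi e e.injective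

theorem kCLK : S_CLK := by
  intro K
  refine ⟨?_, ?_, ?_, ?_, ?_, ?_⟩
  · intro S x hx
    exact (PICK_key K S x).2 ((AlgebraicIndependent.matroid K ℂ).subset_closure S (by simp) hx)
  · intro S x hx
    exact (clK K S).algebraMap_mem (⟨x, hx⟩ : K)
  · intro S T h x hx
    rw [PICK_key] at hx ⊢
    have h1 := (PICK_sub K S T).1 h
    exact (AlgebraicIndependent.matroid K ℂ).closure_subset_closure_of_subset_closure h1 hx
  · intro S x n hn hx
    rw [PICK_mem] at *
    exact hx.of_pow hn
  · intro S x hx
    rw [EPI.mem_cl] at hx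
    rw [PICK_mem]
    have hle : ∀ y : ℂ, y ∈ IntermediateField.adjoin ℚ S → y ∈ IntermediateField.adjoin K S := by
      have h2 : IntermediateField.adjoin ℚ S ≤
          (IntermediateField.adjoin K S).restrictScalars ℚ := by
        rw [IntermediateField.adjoin_le_iff]
        intro y hy
        exact IntermediateField.subset_adjoin K S hy
      intro y hy
      exact h2 hy
    exact PICK_alg
      ({ toFun := fun y => ⟨y.1, hle y.1 y.2⟩
         map_one' := rfl
         map_mul' := fun _ _ => rfl
         map_zero' := rfl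
         map_add' := fun _ _ => rfl } :
          IntermediateField.adjoin ℚ S →+* IntermediateField.adjoin K S) (fun _ => rfl) x hx
  · intro hK S hS x hx
    apply hK
    rw [EPI.mem_cl] at hx
    have hle : IntermediateField.adjoin ℚ S ≤ K := IntermediateField.adjoin_le_iff.2 hS
    exact PICK_alg
      ({ toFun := fun y => ⟨y.1, hle y.2⟩
         map_one' := rfl
         map_mul' := fun _ _ => rfl
         map_zero' := rfl
         map_add' := fun _ _ => rfl } :
          IntermediateField.adjoin ℚ S →+* K) (fun _ => rfl) x hx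

end EPK
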