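import Pool.Agent.Lib.EPK.HYPK
import Pool.Agent.Lib.EPK.ADD
import Pool.Agent.Lib.EPK.PICK
import Pool.Agent.Lib.EPK.CONS
import Pool.Agent.Lib.EPI.G4

/-!
Assembly of the theorem on `π^π`, extension B (MP_4c2ad3_nt): `E` equal to the exponential function
up to a countable field.
-/

set_option autoImplicit false

open Complex Module EPI

namespace EPK

/-- the properties of `K`, `U`, `E` for given `r` and `L` -/
def CoreK (r L : ℝ) : Prop :=
  ∃ (K : IntermediateField ℚ ℂ) (U : Submodule ℚ ℂ) (E : ℂ → ℂ),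
    (K : Set ℂ).Countable ∧ (∀ x : ℂ, IsAlgebraic K x → x ∈ K) ∧ (∀ z ∈ K, cexp z ∈ K) ∧
    (∀ z : ℂ, cexp z ∈ K → z ∈ K) ∧ (∀ z ∈ K, (starRingEnd ℂ) z ∈ K) ∧ (∀ z ∈ K, E z ∈ K) ∧
    IsCompl (Subalgebra.toSubmodule K.toSubalgebra) U ∧ (∀ u ∈ U, E u = cexp u) ∧
    (∀ x y, E (x + y) = E x * E y) ∧
    (∀ x, E x = 1 ↔ ∃ n : ℤ, x = n * (2 * Real.pi * I)) ∧
    (∀ y, y ≠ 0 → ∃ x, E x = y) ∧
    (∀ z, E ((starRingEnd ℂ) z) = (starRingEnd ℂ) (E z)) ∧
    (∀ x : ℝ, ∃ y : ℝ, 0 < y ∧ E x = y) ∧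
    E (L : ℂ) = (Real.pi : ℂ) ∧ E ((Real.pi : ℂ) * (L : ℂ)) = (r : ℂ) ∧
    (∀ (n : ℕ) (z : Fin n → ℂ), LinearIndependent ℚ z →
      ¬ (({2 * (Real.pi : ℂ) * I, (L : ℂ), (Real.pi : ℂ) * (L : ℂ)} : Set ℂ) ⊆
        (Submodule.span ℚ (Set.range z) : Set ℂ)) →
      (n : Cardinal) ≤ Algebra.trdeg ℚ
        (IntermediateField.adjoin ℚ (Set.range z ∪ Set.range (fun i => E (z i))))) ∧
    (∀ (n : ℕ) (z : Fin n → ℂ), LinearIndependent ℚ z →
      (n : Cardinal) ≤ Algebra.trdeg ℚ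
        (IntermediateField.adjoin ℚ (Set.range z ∪ Set.range (fun i => E (z i)))) + 1)

private theorem FINK_mono (hCL : S_CL) {S T : Set ℂ} (h : S ⊆ T) {n : ℕ} (hS : Ge S n) :
    Ge T n := by
  obtain ⟨f, hf, hS⟩ := hS
  exact ⟨f, hf, fun i => hCL.2.1 S T (h.trans (hCL.1 T)) (hS i)⟩

private theorem FINK_seq : ∃ w : ℕ → ℝ, AlgebraicIndependent ℚ w := by
  obtain ⟨L, g, hg⟩ := tGEN tPI
  refine ⟨fun n => g n 0 0, ?_⟩
  have h := hg.1.comp (fun n : ℕ => (Sum.inr (n, 0, 0) : Fin 2 ⊕ (ℕ × Fin 4 × ℝ)))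
    (fun a b hab => congrArg Prod.fst (Sum.inr_injective hab))
  exact h

private theorem FINK_base (hCL : S_CL) (L r : ℝ) (hL : AlgebraicIndependent ℚ ![Real.pi, L]) :
    ∃ (N : ℕ) (P : Fin N → ℝ), AlgebraicIndependent ℚ P ∧
      (∀ i, P i = Real.pi ∨ P i = L ∨ P i = r) ∧
      ((Real.pi : ℝ) : ℂ) ∈ cl (Set.range (fun i => ((P i : ℝ) : ℂ))) ∧
      ((L : ℝ) : ℂ) ∈ cl (Set.range (fun i => ((P i : ℝ) : ℂ))) ∧
      ((r : ℝ) : ℂ) ∈ cl (Set.range (fun i => ((P i : ℝ) : ℂ))) := by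
  have hpi : ((Real.pi : ℝ) : ℂ) ∈ cl (Set.range (fun i => ((![Real.pi, L] i : ℝ) : ℂ))) :=
    hCL.1 _ ⟨0, rfl⟩
  have hLm : ((L : ℝ) : ℂ) ∈ cl (Set.range (fun i => ((![Real.pi, L] i : ℝ) : ℂ))) :=
    hCL.1 _ ⟨1, rfl⟩
  have hP2 : ∀ i : Fin 2, ![Real.pi, L] i = Real.pi ∨ ![Real.pi, L] i = L ∨
      ![Real.pi, L] i = r := by
    intro i
    fin_cases i
    · exact Or.inl rfl
    · exact Or.inr (Or.inl rfl)
  by_cases hr : ((r : ℝ) : ℂ) ∈ cl (Set.range (fun i => ((![Real.pi, L] i : ℝ) : ℂ)))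
  · exact ⟨2, ![Real.pi, L], hL, hP2, hpi, hLm, hr⟩
  · have hC : AlgebraicIndependent ℚ (fun i => ((![Real.pi, L] i : ℝ) : ℂ)) := by
      have h := hL.map' (f := (Algebra.ofId ℝ ℂ).restrictScalars ℚ) (algebraMap ℝ ℂ).injective
      exact h
    have h3 : Transcendental (Algebra.adjoin ℚ
        (Set.range (fun i => ((![Real.pi, L] i : ℝ) : ℂ)))) ((r : ℝ) : ℂ) := by
      intro h4
      apply hr
      rw [mem_cl]
      exact IntermediateField.isAlgebraic_adjoin_iff.2 h4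
    have h6 := (hC.option_iff_transcendental ((r : ℝ) : ℂ)).2 h3
    have h7 : AlgebraicIndependent ℚ
        (fun o : Option (Fin 2) => o.elim r (fun i => ![Real.pi, L] i)) := by
      have hinj : Function.Injective ((Algebra.ofId ℝ ℂ).restrictScalars ℚ) :=
        (algebraMap ℝ ℂ).injective
      refine (AlgHom.algebraicIndependent_iff _ hinj).1 ?_
      have h8 : (fun o : Option (Fin 2) => o.elim ((r : ℝ) : ℂ)
          (fun i => ((![Real.pi, L] i : ℝ) : ℂ))) =
          ((Algebra.ofId ℝ ℂ).restrictScalars ℚ) ∘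
            (fun o : Option (Fin 2) => o.elim r (fun i => ![Real.pi, L] i)) := by
        funext o
        cases o <;> rfl
      rw [h8] at h6
      exact h6
    refine ⟨3, fun i => (finSuccEquiv 2 i).elim r (fun i => ![Real.pi, L] i),
      h7.comp (finSuccEquiv 2) (finSuccEquiv 2).injective, ?_, ?_, ?_, ?_⟩
    · intro i
      rcases h : finSuccEquiv 2 i with _ | j
      · exact Or.inr (Or.inr (by simp [h]))
      · rcases hP2 j with h9 | h9 | h9
        · exact Or.inl (by simp only [h, Option.elim]; exact h9)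
        · exact Or.inr (Or.inl (by simp only [h, Option.elim]; exact h9))
        · exact Or.inr (Or.inr (by simp only [h, Option.elim]; exact h9))
    · exact hCL.1 _ ⟨1, rfl⟩
    · exact hCL.1 _ ⟨2, rfl⟩
    · exact hCL.1 _ ⟨0, rfl⟩

theorem kCORE (hCLO : S_CLO) (hGENK : S_GENK) (hREL : S_REL) (r L : ℝ)
    (hind : AlgebraicIndependent ℚ ![Real.pi, L]) (hr0 : 0 < r)
    (hq : ∀ q : ℚ, r ≠ Real.pi ^ (q : ℝ)) : CoreK r L := by
  have hCL : S_CL := tCL
  have hCLK : S_CLK := kCLK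
  have hTUP : S_TUP := tTUP tCL (tTD1 tCL)
  have hBASE : S_BASE := tBASE tCL
  obtain ⟨w, hw⟩ : ∃ w : ℕ → ℝ, AlgebraicIndependent ℚ w := FINK_seq
  obtain ⟨K, hKct, hKA, hKc, hKconj⟩ := hCLO
    ({((Real.pi : ℝ) : ℂ), ((L : ℝ) : ℂ), ((r : ℝ) : ℂ)} ∪ Set.range (fun i => ((w i : ℝ) : ℂ)))
    ((Set.toFinite _).countable.union (Set.countable_range _))
  obtain ⟨c1, c2, c3⟩ := kCON K hKc
  have hK : Good K := ⟨c1, c2, c3, hKconj⟩
  obtain ⟨N, P, hP, hPm, hpi, hLm, hrm⟩ := FINK_base hCL L r hind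
  have hPK : ∀ i, P i ∈ RR K := by
    intro i
    rcases hPm i with h | h | h
    · rw [h]; exact hKA (by simp)
    · rw [h]; exact hKA (by simp)
    · rw [h]; exact hKA (by simp)
  obtain ⟨g, hg⟩ := hGENK K hKct ⟨w, hw, fun i => hKA (Or.inr ⟨i, rfl⟩)⟩ N P hP hPK
  have hsub : cl (Set.range (fun i => ((P i : ℝ) : ℂ))) ≤ cl (GSR (RR K) P g 0) :=
    hCL.2.1 _ _ (Set.subset_union_left.trans (hCL.1 _))
  have hpi0 := hsub hpi
  have hL0 := hsub hLm
  have hrm0 := hsub hrm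
  obtain ⟨U, hU⟩ := Submodule.exists_isCompl (RR K)
  have hLne : L ≠ 0 := by
    rintro rfl
    have h1 := hind.transcendental 1
    exact h1 isAlgebraic_zero
  have l1 := tLOG1 L hLne
  have l2 := tLOG2 r hr0 hq
  have l3 : LinearIndependent ℚ ![2 * Real.pi] := by
    rw [linearIndependent_unique_iff]
    simp [Real.pi_ne_zero]
  have l4 : ∀ i, ![L, Real.pi * L] i ∈ XX (GSR (RR K) P g 0) := by
    intro i
    fin_cases i
    · exact hL0
    · change (((Real.pi * L : ℝ)) : ℂ) ∈ cl (GSR (RR K) P g 0)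
      push_cast
      exact mul_mem hpi0 hL0
  have l5 : ∀ i, ![Real.log Real.pi, Real.log r] i ∈ YY false (GSR (RR K) P g 0) := by
    intro i
    fin_cases i
    · change ee false (Real.log Real.pi) ∈ cl (GSR (RR K) P g 0)
      simp only [ee, jj, Bool.false_eq_true, if_false]
      rw [← Complex.ofReal_exp, Real.exp_log Real.pi_pos]
      exact hpi0
    · change ee false (Real.log r) ∈ cl (GSR (RR K) P g 0)
      simp only [ee, jj, Bool.false_eq_true, if_false]
      rw [← Complex.ofReal_exp, Real.exp_log hr0]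
      exact hrm0
  have l6 : ∀ i, ![2 * Real.pi] i ∈ XX (GSR (RR K) P g 0) := by
    intro i
    fin_cases i
    change (((2 * Real.pi : ℝ)) : ℂ) ∈ cl (GSR (RR K) P g 0)
    push_cast
    exact mul_mem (by simp) hpi0
  have l7 : ∀ i, ![2 * Real.pi] i ∈ YY true (GSR (RR K) P g 0) := by
    intro i
    fin_cases i
    change ee true (2 * Real.pi) ∈ cl (GSR (RR K) P g 0)
    simp only [ee, jj, if_true]
    have h1 : cexp (((2 * Real.pi : ℝ) : ℂ) * I) = 1 := by
      push_cast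
      exact Complex.exp_two_pi_mul_I
    rw [h1]
    exact one_mem _
  obtain ⟨B0, C0, r0, hB0, hC0, hB0', hC0', hi0, hs0, hr0', hU0, hR0⟩ :=
    kSORT hCL hCLK K hK N P g hg U hU false 2 ![L, Real.pi * L]
    ![Real.log Real.pi, Real.log r] l1 l2 l4 l5
  obtain ⟨B1, C1, r1, hB1, hC1, hB1', hC1', hi1, hs1, hr1', hU1, hR1⟩ :=
    kSORT hCL hCLK K hK N P g hg U hU true 1 ![2 * Real.pi]
    ![2 * Real.pi] l3 l3 l6 l7
  have v0 : r0 L = Real.log Real.pi := by
    have h := hr0' (Sum.inl 0)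
    simpa [domF, imF] using h
  have v1 : r0 (Real.pi * L) = Real.log r := by
    have h := hr0' (Sum.inl 1)
    simpa [domF, imF] using h
  have v2 : r1 (2 * Real.pi) = 2 * Real.pi := by
    have h := hr1' (Sum.inl 0)
    simpa [domF, imF] using h
  obtain ⟨e1, e2, e3, e4, e5, e6, e7⟩ := tEP r0 r1 v2
  obtain ⟨b1, b2⟩ := hBASE L hind
  have hbK : Submodule.span ℚ (Set.range (b3 L)) ≤ KQ K := by
    rw [Submodule.span_le]
    rintro _ ⟨i, rfl⟩
    have hI := Imem hCL hCLK hK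
    have hpiK : ((Real.pi : ℝ) : ℂ) ∈ K := hKA (by simp)
    have hLK : ((L : ℝ) : ℂ) ∈ K := hKA (by simp)
    have h2K : (2 : ℂ) ∈ K := by
      have := K.algebraMap_mem 2
      simpa using this
    fin_cases i
    · exact K.mul_mem (K.mul_mem h2K hpiK) hI
    · exact hLK
    · change (((Real.pi * L : ℝ)) : ℂ) ∈ K
      push_cast
      exact K.mul_mem hpiK hLK
  have hH : ∀ V : Submodule ℚ ℂ, FiniteDimensional ℚ V → ∀ k : ℕ,
      Ge (((V ⊓ Submodule.span ℚ (Set.range (b3 L)) : Submodule ℚ ℂ) : Set ℂ) ∪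
        EE r0 r1 '' ((V ⊓ Submodule.span ℚ (Set.range (b3 L)) : Submodule ℚ ℂ) : Set ℂ)) k →
      Ge ((V : Set ℂ) ∪ EE r0 r1 '' (V : Set ℂ))
        (k + (finrank ℚ V - finrank ℚ (V ⊓ Submodule.span ℚ (Set.range (b3 L)) :
          Submodule ℚ ℂ))) := by
    intro V hV k hk
    have hVV : (V ⊓ KQ K) ⊓ Submodule.span ℚ (Set.range (b3 L)) =
        V ⊓ Submodule.span ℚ (Set.range (b3 L)) := by
      rw [inf_assoc, inf_eq_right.2 hbK]
    have hV0 : FiniteDimensional ℚ (V ⊓ KQ K : Submodule ℚ ℂ) :=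
      Submodule.finiteDimensional_of_le inf_le_left
    have h1 := kHYP hCL hCLK (tTD2 tCL) K hK N P g hg L r hr0 hpi0 hL0 hrm0 B0 C0 B1 C1 r0 r1
      hB0 hC0 hB1 hC1 hB0' hC0' hB1' hC1' hi0 hs0 hi1 hs1 hr0' hr1' (V ⊓ KQ K) hV0
      (fun v hv => hv.2) k (by rw [hVV]; exact hk)
    rw [hVV] at h1
    have h2 := kADD hCL hCLK kPICK hREL K hKc hK U hU r0 r1 e1 e2 hR0 hR1 hU0 hU1 V hV _ h1
    have h3 : finrank ℚ (V ⊓ Submodule.span ℚ (Set.range (b3 L)) : Submodule ℚ ℂ) ≤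
        finrank ℚ (V ⊓ KQ K : Submodule ℚ ℂ) :=
      Submodule.finrank_mono (inf_le_inf_left V hbK)
    have h4 : finrank ℚ (V ⊓ KQ K : Submodule ℚ ℂ) ≤ finrank ℚ V :=
      Submodule.finrank_mono inf_le_left
    have h5 : k + (finrank ℚ (V ⊓ KQ K : Submodule ℚ ℂ) -
        finrank ℚ (V ⊓ Submodule.span ℚ (Set.range (b3 L)) : Submodule ℚ ℂ)) +
        (finrank ℚ V - finrank ℚ (V ⊓ KQ K : Submodule ℚ ℂ)) =
        k + (finrank ℚ V - finrank ℚ (V ⊓ Submodule.span ℚ (Set.range (b3 L)) :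
          Submodule ℚ ℂ)) := by omega
    rw [h5] at h2
    exact h2
  have main1 : ∀ (n : ℕ) (z : Fin n → ℂ), LinearIndependent ℚ z →
      (Submodule.span ℚ (Set.range z) ⊓ Submodule.span ℚ (Set.range (b3 L)) : Submodule ℚ ℂ) ≠
        Submodule.span ℚ (Set.range (b3 L)) →
      (n : Cardinal) ≤ Algebra.trdeg ℚ
        (IntermediateField.adjoin ℚ (Set.range z ∪ Set.range (fun i => EE r0 r1 (z i)))) := by
    intro n z hz hne
    have hfin : FiniteDimensional ℚ (Submodule.span ℚ (Set.range z)) :=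
      FiniteDimensional.span_of_finite ℚ (Set.finite_range z)
    have hn : finrank ℚ (Submodule.span ℚ (Set.range z)) = n := by
      rw [finrank_span_eq_card hz, Fintype.card_fin]
    have h1 := (b2 _ (inf_le_right (a := Submodule.span ℚ (Set.range z)))).1 hne
    have h2 := hH (Submodule.span ℚ (Set.range z)) hfin _ (FINK_mono hCL Set.subset_union_left h1)
    have h3 : finrank ℚ (Submodule.span ℚ (Set.range z) ⊓
        Submodule.span ℚ (Set.range (b3 L)) : Submodule ℚ ℂ) ≤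
        finrank ℚ (Submodule.span ℚ (Set.range z)) := Submodule.finrank_mono inf_le_left
    rw [Nat.add_sub_cancel' h3, hn] at h2
    exact hTUP (EE r0 r1) e1 e2 n z n h2
  refine ⟨K, UC U, EE r0 r1, hKct, c1, c2, c3, hKconj,
    fun z hz => EKmem hCL hCLK hK r0 r1 hR0 hR1 hz, isComplUC hCL hCLK hK hU,
    fun u hu => EUeq r0 r1 hU0 hU1 hu, e1, e3, e4, e5, e6, ?_, ?_, ?_, ?_⟩
  · have h := e7 false L
    simp only [jj, ee, Bool.false_eq_true, if_false] at h
    rw [h, v0, ← Complex.ofReal_exp, Real.exp_log Real.pi_pos]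
  · have h := e7 false (Real.pi * L)
    simp only [jj, ee, Bool.false_eq_true, if_false] at h
    rw [← Complex.ofReal_mul, h, v1, ← Complex.ofReal_exp, Real.exp_log hr0]
  · intro n z hz hnot
    refine main1 n z hz fun heq => hnot ?_
    have hle : Submodule.span ℚ (Set.range (b3 L)) ≤ Submodule.span ℚ (Set.range z) :=
      inf_eq_right.1 heq
    have hmem : ∀ i, b3 L i ∈ Submodule.span ℚ (Set.range z) :=
      fun i => hle (Submodule.subset_span ⟨i, rfl⟩)
    have m0 := hmem 0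
    have m1 := hmem 1
    have m2 := hmem 2
    simp only [b3, Matrix.cons_val_zero, Matrix.cons_val_one, Matrix.cons_val_two, Matrix.head_cons,
      Matrix.tail_cons] at m0 m1 m2
    rw [Complex.ofReal_mul] at m2
    intro x hx
    simp only [Set.mem_insert_iff, Set.mem_singleton_iff] at hx
    rcases hx with rfl | rfl | rfl
    · exact m0
    · exact m1
    · exact m2
  · intro n z hz
    by_cases heq : (Submodule.span ℚ (Set.range z) ⊓ Submodule.span ℚ (Set.range (b3 L)) :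
        Submodule ℚ ℂ) = Submodule.span ℚ (Set.range (b3 L))
    · have hfin : FiniteDimensional ℚ (Submodule.span ℚ (Set.range z)) :=
        FiniteDimensional.span_of_finite ℚ (Set.finite_range z)
      have hn : finrank ℚ (Submodule.span ℚ (Set.range z)) = n := by
        rw [finrank_span_eq_card hz, Fintype.card_fin]
      have hle : Submodule.span ℚ (Set.range (b3 L)) ≤ Submodule.span ℚ (Set.range z) :=
        inf_eq_right.1 heq
      have h3 : finrank ℚ (Submodule.span ℚ (Set.range (b3 L))) = 3 := by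
        rw [finrank_span_eq_card b1, Fintype.card_fin]
      have h4 : 3 ≤ n := by
        rw [← h3, ← hn]
        exact Submodule.finrank_mono hle
      have h1 := (b2 _ (inf_le_right (a := Submodule.span ℚ (Set.range z)))).2 heq
      have h2 := hH (Submodule.span ℚ (Set.range z)) hfin _ (FINK_mono hCL Set.subset_union_left h1)
      rw [heq, h3, hn] at h2
      have h5 := hTUP (EE r0 r1) e1 e2 n z _ h2
      have h6 : (n : Cardinal.{0}) = ((2 + (n - 3) : ℕ) : Cardinal.{0}) + 1 := by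
        have h7 : n = 2 + (n - 3) + 1 := by omega
        exact_mod_cast congrArg (Nat.cast (R := Cardinal.{0})) h7
      rw [h6]
      gcongr
    · exact (main1 n z hz heq).trans (self_le_add_right _ _)


end EPK
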