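import Pool.Agent.Lib.EPK.HYPK
import Pool.Agent.Lib.EPK.ADD
import Pool.Agent.Lib.EPK.PICK
import Pool.Agent.Lib.EPK.CONS
import Pool.Agent.Lib.EPI.G4

/-!
Assembly of the theorem on `π^π` (MP_4c2ad3_nt) for an arbitrary real `L ≠ 0`, for example
`L = log π`: `E` equal to the exponential function up to a countable field.
-/

set_option autoImplicit false

open Complex Module EPI

namespace EPK

/-- the properties of `K`, `U`, `E` for given `r` and `L` -/
def CoreL (r L : ℝ) : Prop :=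
  ∃ (K : IntermediateField ℚ ℂ) (U : Submodule ℚ ℂ) (E : ℂ → ℂ),
    (K : Set ℂ).Countable ∧ (∀ x : ℂ, IsAlgebraic K x → x ∈ K) ∧ (∀ z ∈ K, cexp z ∈ K) ∧
    (∀ z : ℂ, cexp z ∈ K → z ∈ K) ∧ (∀ z ∈ K, (starRingEnd ℂ) z ∈ K) ∧ (∀ z ∈ K, E z ∈ K) ∧
    IsCompl (Subalgebra.toSubmodule K.toSubalgebra) U ∧ (∀ u ∈ U, E u = cexp u) ∧
    (∀ x y, E (x + y) = E x * E y) ∧
    (∀ x, E x = 1 ↔ ∃ n : ℤ, x = n * (2 * Real.pi * I)) ∧
    (∀ y, y ≠ 0 → ∃ x, E x = y) ∧
    (∀ z, E ((starRingEnd ℂ) z) = (starRingEnd ℂ) (E z)) ∧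
    (∀ x : ℝ, ∃ y : ℝ, 0 < y ∧ E x = y) ∧
    E (L : ℂ) = (Real.pi : ℂ) ∧ E ((Real.pi : ℂ) * (L : ℂ)) = (r : ℂ) ∧
    (∀ (n m k : ℕ) (z : Fin n → ℂ) (w : Fin m → ℂ), LinearIndependent ℚ z →
      LinearIndependent ℚ w → Submodule.span ℚ (Set.range w) = Submodule.span ℚ (Set.range z) ⊓
        Submodule.span ℚ {2 * (Real.pi : ℂ) * I, (L : ℂ), (Real.pi : ℂ) * (L : ℂ)} →
      (k : Cardinal) ≤ Algebra.trdeg ℚ
        (IntermediateField.adjoin ℚ (Set.range w ∪ Set.range (fun i => E (w i)))) →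
      (n : Cardinal) + k ≤ Algebra.trdeg ℚ
        (IntermediateField.adjoin ℚ (Set.range z ∪ Set.range (fun i => E (z i)))) + m) ∧
    (∀ (n : ℕ) (z : Fin n → ℂ), LinearIndependent ℚ z →
      Submodule.span ℚ (Set.range z) ⊓
        Submodule.span ℚ {2 * (Real.pi : ℂ) * I, (L : ℂ), (Real.pi : ℂ) * (L : ℂ)} ≤
        Submodule.span ℚ {2 * (Real.pi : ℂ) * I} →
      (n : Cardinal) ≤ Algebra.trdeg ℚ
        (IntermediateField.adjoin ℚ (Set.range z ∪ Set.range (fun i => E (z i))))) ∧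
    (AlgebraicIndependent ℚ ![Real.pi, L] →
      (∀ (n : ℕ) (z : Fin n → ℂ), LinearIndependent ℚ z →
        ¬ (({2 * (Real.pi : ℂ) * I, (L : ℂ), (Real.pi : ℂ) * (L : ℂ)} : Set ℂ) ⊆
          (Submodule.span ℚ (Set.range z) : Set ℂ)) →
        (n : Cardinal) ≤ Algebra.trdeg ℚ
          (IntermediateField.adjoin ℚ (Set.range z ∪ Set.range (fun i => E (z i))))) ∧
      (∀ (n : ℕ) (z : Fin n → ℂ), LinearIndependent ℚ z →
        (n : Cardinal) ≤ Algebra.trdeg ℚ
          (IntermediateField.adjoin ℚ (Set.range z ∪ Set.range (fun i => E (z i)))) + 1))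

private theorem FINL_mono (hCL : S_CL) {S T : Set ℂ} (h : S ⊆ T) {n : ℕ} (hS : Ge S n) :
    Ge T n := by
  obtain ⟨f, hf, hS⟩ := hS
  exact ⟨f, hf, fun i => hCL.2.1 S T (h.trans (hCL.1 T)) (hS i)⟩

private theorem FINL_ge (hCL : S_CL) (S : Set ℂ) (k : ℕ)
    (hk : (k : Cardinal) ≤ Algebra.trdeg ℚ (IntermediateField.adjoin ℚ S)) : Ge S k := by
  obtain ⟨s, hs⟩ := exists_isTranscendenceBasis ℚ (IntermediateField.adjoin ℚ S)
  have h1 := hs.cardinalMk_eq_trdeg
  rw [← h1] at hk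
  obtain ⟨e⟩ : Nonempty (Fin k ↪ s) := by
    rw [← Cardinal.le_def]
    simpa using hk
  refine ⟨fun i => ((e i : IntermediateField.adjoin ℚ S) : ℂ), ?_, fun i => ?_⟩
  · have h2 : AlgebraicIndependent ℚ (fun i : s => (i : IntermediateField.adjoin ℚ S)) := hs.1
    have h3 := h2.comp e e.injective
    exact h3.map' (f := (IntermediateField.adjoin ℚ S).val)
      (IntermediateField.adjoin ℚ S).val.injective
  · have h4 : IntermediateField.adjoin ℚ S ≤ cl S :=
      IntermediateField.adjoin_le_iff.2 (hCL.1 S)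
    exact h4 (e i : IntermediateField.adjoin ℚ S).2

private theorem FINL_seq : ∃ w : ℕ → ℝ, AlgebraicIndependent ℚ w := by
  obtain ⟨L, g, hg⟩ := tGEN tPI
  refine ⟨fun n => g n 0 0, ?_⟩
  have h := hg.1.comp (fun n : ℕ => (Sum.inr (n, 0, 0) : Fin 2 ⊕ (ℕ × Fin 4 × ℝ)))
    (fun a b hab => congrArg Prod.fst (Sum.inr_injective hab))
  exact h

private theorem FINL_key (s : Set ℝ) : AlgebraicIndepOn ℚ (fun y : ℝ => (y : ℂ)) s ↔
    AlgebraicIndepOn ℚ id s := by
  have hinj : Function.Injective ((Algebra.ofId ℝ ℂ).restrictScalars ℚ) :=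
    (algebraMap ℝ ℂ).injective
  have hv : (fun i : s => ((i : ℝ) : ℂ)) =
      ((Algebra.ofId ℝ ℂ).restrictScalars ℚ) ∘ (fun i : s => (i : ℝ)) := by
    funext i; rfl
  show AlgebraicIndependent ℚ (fun i : s => ((i : ℝ) : ℂ)) ↔
    AlgebraicIndependent ℚ (fun i : s => (i : ℝ))
  rw [hv]
  exact AlgHom.algebraicIndependent_iff _ hinj

private theorem FINL_cl (t : Set ℝ) (ht : AlgebraicIndepOn ℚ id t) (x : ℝ)
    (hx : IsAlgebraic (Algebra.adjoin ℚ t) x) :
    (x : ℂ) ∈ cl ((fun y : ℝ => (y : ℂ)) '' t) := by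
  rw [mem_cl, IntermediateField.isAlgebraic_adjoin_iff]
  by_cases hxt : x ∈ t
  · exact isAlgebraic_algebraMap (⟨(x : ℂ), Algebra.subset_adjoin ⟨x, hxt, rfl⟩⟩ :
      Algebra.adjoin ℚ ((fun y : ℝ => (y : ℂ)) '' t))
  · by_contra htr
    have h1 : AlgebraicIndepOn ℚ (fun y : ℝ => (y : ℂ)) (insert x t) :=
      (AlgebraicIndepOn.insert_iff (x := fun y : ℝ => (y : ℂ)) hxt).2 ⟨(FINL_key t).2 ht, htr⟩
    have h2 := ((AlgebraicIndepOn.insert_iff (x := id) hxt).1 ((FINL_key _).1 h1)).2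
    rw [Set.image_id] at h2
    exact h2 hx

private theorem FINL_base (L r : ℝ) :
    ∃ (N : ℕ) (P : Fin N → ℝ), AlgebraicIndependent ℚ P ∧
      (∀ i, P i = Real.pi ∨ P i = L ∨ P i = r) ∧
      ((Real.pi : ℝ) : ℂ) ∈ cl (Set.range (fun i => ((P i : ℝ) : ℂ))) ∧
      ((L : ℝ) : ℂ) ∈ cl (Set.range (fun i => ((P i : ℝ) : ℂ))) ∧
      ((r : ℝ) : ℂ) ∈ cl (Set.range (fun i => ((P i : ℝ) : ℂ))) := by
  obtain ⟨t, ht⟩ := (AlgebraicIndependent.matroid ℚ ℝ).exists_isBasis {Real.pi, L, r}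
  obtain ⟨h1, h2, h3⟩ := AlgebraicIndependent.matroid_isBasis_iff.1 ht
  have hfin : t.Finite := (Set.toFinite ({Real.pi, L, r} : Set ℝ)).subset h2
  have hft : Finite t := hfin.to_subtype
  obtain ⟨N, ⟨e⟩⟩ := Finite.exists_equiv_fin t
  have hr : Set.range (fun i : Fin N => (((e.symm i : t) : ℝ) : ℂ)) =
      (fun y : ℝ => (y : ℂ)) '' t := by
    ext z
    constructor
    · rintro ⟨i, rfl⟩
      exact ⟨_, (e.symm i).2, rfl⟩
    · rintro ⟨y, hy, rfl⟩
      exact ⟨e ⟨y, hy⟩, by simp⟩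
  refine ⟨N, fun i => ((e.symm i : t) : ℝ), ?_, ?_, ?_, ?_, ?_⟩
  · have h4 : AlgebraicIndependent ℚ (fun i : t => (i : ℝ)) := h1
    exact h4.comp e.symm e.symm.injective
  · intro i
    exact h2 (e.symm i).2
  · rw [hr]
    exact FINL_cl t h1 _ (h3 _ (by simp))
  · rw [hr]
    exact FINL_cl t h1 _ (h3 _ (by simp))
  · rw [hr]
    exact FINL_cl t h1 _ (h3 _ (by simp))

private theorem FINL_range (L : ℝ) : Set.range (b3 L) =
    {2 * (Real.pi : ℂ) * I, (L : ℂ), (Real.pi : ℂ) * (L : ℂ)} := by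
  ext z
  simp only [Set.mem_range, Set.mem_insert_iff, Set.mem_singleton_iff]
  constructor
  · rintro ⟨i, rfl⟩
    fin_cases i
    · exact Or.inl rfl
    · exact Or.inr (Or.inl rfl)
    · exact Or.inr (Or.inr (by simp [b3]))
  · rintro (rfl | rfl | rfl)
    · exact ⟨0, rfl⟩
    · exact ⟨1, rfl⟩
    · exact ⟨2, by simp [b3]⟩

private theorem FINL_li (L : ℝ) (hL : L ≠ 0) : LinearIndependent ℚ (b3 L) := by
  have h2 := LinearIndependent.pair_iff.1 (tLOG1 L hL)
  rw [Fintype.linearIndependent_iff]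
  intro q hq
  rw [Fin.sum_univ_three] at hq
  simp only [b3, Matrix.cons_val_zero, Matrix.cons_val_one, Matrix.cons_val] at hq
  have him := congrArg Complex.im hq
  have hre := congrArg Complex.re hq
  simp [Complex.smul_re, Complex.smul_im] at him hre
  have h0 : q 0 = 0 := him
  have h3 := h2 (q 1) (q 2) (by
    rw [Rat.smul_def, Rat.smul_def]
    simpa [Rat.smul_def] using hre)
  intro i
  fin_cases i
  · exact h0
  · exact h3.1
  · exact h3.2

private theorem FINL_one (hCL : S_CL) (W : Submodule ℚ ℂ)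
    (hW : W ≤ Submodule.span ℚ {2 * (Real.pi : ℂ) * I}) : Ge (W : Set ℂ) (finrank ℚ W) := by
  by_cases h : W = ⊥
  · rw [h, finrank_bot]
    refine ⟨Fin.elim0, ?_, fun i => i.elim0⟩
    exact (algebraicIndependent_empty_type_iff).2 (algebraMap ℚ ℂ).injective
  · obtain ⟨v, hv, hv0⟩ := Submodule.exists_mem_ne_zero_of_ne_bot h
    obtain ⟨q, hq⟩ := Submodule.mem_span_singleton.1 (hW hv)
    have hq0 : q ≠ 0 := by
      rintro rfl
      exact hv0 (by rw [← hq, zero_smul])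
    have hWs : W = Submodule.span ℚ {2 * (Real.pi : ℂ) * I} := by
      refine le_antisymm hW ?_
      rw [Submodule.span_singleton_le_iff_mem]
      have h2 := W.smul_mem q⁻¹ hv
      rwa [← hq, smul_smul, inv_mul_cancel₀ hq0, one_smul] at h2
    have hne : 2 * (Real.pi : ℂ) * I ≠ 0 := by
      simp [Real.pi_ne_zero, I_ne_zero]
    have hfr : finrank ℚ W = 1 := by
      rw [hWs]
      exact finrank_span_singleton hne
    rw [hfr]
    refine ⟨fun _ => ((Real.pi : ℝ) : ℂ), ?_, fun _ => ?_⟩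
    · rw [algebraicIndependent_unique_type_iff]
      intro h2
      apply tPI
      exact (isAlgebraic_algebraMap_iff (algebraMap ℝ ℂ).injective).1 h2
    · have h2 : 2 * (Real.pi : ℂ) * I ∈ cl (W : Set ℂ) :=
        hCL.1 _ (by rw [hWs]; exact Submodule.mem_span_singleton_self _)
      have h3 := div_mem h2 (mul_mem (ofNat_mem (cl (W : Set ℂ)) 2) (hCL.2.2.2 (W : Set ℂ)))
      have h4 : 2 * (Real.pi : ℂ) * I / (2 * I) = (Real.pi : ℂ) := by
        field_simp
      rwa [h4] at h3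

theorem kCOREL (hCLO : S_CLO) (hGENK : S_GENK) (hREL : S_REL) (r L : ℝ)
    (hLne : L ≠ 0) (hr0 : 0 < r)
    (hq : ∀ q : ℚ, r ≠ Real.pi ^ (q : ℝ)) : CoreL r L := by
  have hCL : S_CL := tCL
  have hCLK : S_CLK := kCLK
  have hTUP : S_TUP := tTUP tCL (tTD1 tCL)
  have hBASE : S_BASE := tBASE tCL
  obtain ⟨w, hw⟩ : ∃ w : ℕ → ℝ, AlgebraicIndependent ℚ w := FINL_seq
  obtain ⟨K, hKct, hKA, hKc, hKconj⟩ := hCLO
    ({((Real.pi : ℝ) : ℂ), ((L : ℝ) : ℂ), ((r : ℝ) : ℂ)} ∪ Set.range (fun i => ((w i : ℝ) : ℂ)))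
    ((Set.toFinite _).countable.union (Set.countable_range _))
  obtain ⟨c1, c2, c3⟩ := kCON K hKc
  have hK : Good K := ⟨c1, c2, c3, hKconj⟩
  obtain ⟨N, P, hP, hPm, hpi, hLm, hrm⟩ := FINL_base L r
  have hPK : ∀ i, P i ∈ RR K := by
    intro i
    rcases hPm i with h | h | h
    · rw [h]; exact hKA (by simp)
    · rw [h]; exact hKA (by simp)
    · rw [h]; exact hKA (by simp)
  obtain ⟨g, hg⟩ := hGENK K hKct ⟨w, hw, fun i => hKA (Or.inr ⟨i, rfl⟩)⟩ N P hP hPK
  have hsub : cl (Set.range (fun i => ((P i : ℝ) : ℂ))) ≤ cl (GSR (RR K) P g 0) :=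
    hCL.2.1 _ _ (Set.subset_union_left.trans (hCL.1 _))
  have hpi0 := hsub hpi
  have hL0 := hsub hLm
  have hrm0 := hsub hrm
  obtain ⟨U, hU⟩ := Submodule.exists_isCompl (RR K)
  have l1 := tLOG1 L hLne
  have l2 := tLOG2 r hr0 hq
  have l3 : LinearIndependent ℚ ![2 * Real.pi] := by
    rw [linearIndependent_unique_iff]
    simp [Real.pi_ne_zero]
  have l4 : ∀ i, ![L, Real.pi * L] i ∈ XX (GSR (RR K) P g 0) := by
    intro i
    fin_cases i
    · exact hL0
    · change (((Real.pi * L : ℝ)) : ℂ) ∈ cl (GSR (RR K) P g 0)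
      push_cast
      exact mul_mem hpi0 hL0
  have l5 : ∀ i, ![Real.log Real.pi, Real.log r] i ∈ YY false (GSR (RR K) P g 0) := by
    intro i
    fin_cases i
    · change ee false (Real.log Real.pi) ∈ cl (GSR (RR K) P g 0)
      simp only [ee, jj, Bool.false_eq_true, if_false]
      rw [← Complex.ofReal_exp, Real.exp_log Real.pi_pos]
      exact hpi0
    · change ee false (Real.log r) ∈ cl (GSR (RR K) P g 0)
      simp only [ee, jj, Bool.false_eq_true, if_false]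
      rw [← Complex.ofReal_exp, Real.exp_log hr0]
      exact hrm0
  have l6 : ∀ i, ![2 * Real.pi] i ∈ XX (GSR (RR K) P g 0) := by
    intro i
    fin_cases i
    change (((2 * Real.pi : ℝ)) : ℂ) ∈ cl (GSR (RR K) P g 0)
    push_cast
    exact mul_mem (by simp) hpi0
  have l7 : ∀ i, ![2 * Real.pi] i ∈ YY true (GSR (RR K) P g 0) := by
    intro i
    fin_cases i
    change ee true (2 * Real.pi) ∈ cl (GSR (RR K) P g 0)
    simp only [ee, jj, if_true]
    have h1 : cexp (((2 * Real.pi : ℝ) : ℂ) * I) = 1 := by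
      push_cast
      exact Complex.exp_two_pi_mul_I
    rw [h1]
    exact one_mem _
  obtain ⟨B0, C0, r0, hB0, hC0, hB0', hC0', hi0, hs0, hr0', hU0, hR0⟩ :=
    kSORT hCL hCLK K hK N P g hg U hU false 2 ![L, Real.pi * L]
    ![Real.log Real.pi, Real.log r] l1 l2 l4 l5
  obtain ⟨B1, C1, r1, hB1, hC1, hB1', hC1', hi1, hs1, hr1', hU1, hR1⟩ :=
    kSORT hCL hCLK K hK N P g hg U hU true 1 ![2 * Real.pi]
    ![2 * Real.pi] l3 l3 l6 l7
  have v0 : r0 L = Real.log Real.pi := by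
    have h := hr0' (Sum.inl 0)
    simpa [domF, imF] using h
  have v1 : r0 (Real.pi * L) = Real.log r := by
    have h := hr0' (Sum.inl 1)
    simpa [domF, imF] using h
  have v2 : r1 (2 * Real.pi) = 2 * Real.pi := by
    have h := hr1' (Sum.inl 0)
    simpa [domF, imF] using h
  obtain ⟨e1, e2, e3, e4, e5, e6, e7⟩ := tEP r0 r1 v2
  have b1 : LinearIndependent ℚ (b3 L) := FINL_li L hLne
  have hbK : Submodule.span ℚ (Set.range (b3 L)) ≤ KQ K := by
    rw [Submodule.span_le]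
    rintro _ ⟨i, rfl⟩
    have hI := Imem hCL hCLK hK
    have hpiK : ((Real.pi : ℝ) : ℂ) ∈ K := hKA (by simp)
    have hLK : ((L : ℝ) : ℂ) ∈ K := hKA (by simp)
    have h2K : (2 : ℂ) ∈ K := by
      have := K.algebraMap_mem 2
      simpa using this
    fin_cases i
    · exact K.mul_mem (K.mul_mem h2K hpiK) hI
    · exact hLK
    · change (((Real.pi * L : ℝ)) : ℂ) ∈ K
      push_cast
      exact K.mul_mem hpiK hLK
  have hH : ∀ V : Submodule ℚ ℂ, FiniteDimensional ℚ V → ∀ k : ℕ,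
      Ge (((V ⊓ Submodule.span ℚ (Set.range (b3 L)) : Submodule ℚ ℂ) : Set ℂ) ∪
        EE r0 r1 '' ((V ⊓ Submodule.span ℚ (Set.range (b3 L)) : Submodule ℚ ℂ) : Set ℂ)) k →
      Ge ((V : Set ℂ) ∪ EE r0 r1 '' (V : Set ℂ))
        (k + (finrank ℚ V - finrank ℚ (V ⊓ Submodule.span ℚ (Set.range (b3 L)) :
          Submodule ℚ ℂ))) := by
    intro V hV k hk
    have hVV : (V ⊓ KQ K) ⊓ Submodule.span ℚ (Set.range (b3 L)) =
        V ⊓ Submodule.span ℚ (Set.range (b3 L)) := by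
      rw [inf_assoc, inf_eq_right.2 hbK]
    have hV0 : FiniteDimensional ℚ (V ⊓ KQ K : Submodule ℚ ℂ) :=
      Submodule.finiteDimensional_of_le inf_le_left
    have h1 := kHYP hCL hCLK (tTD2 tCL) K hK N P g hg L r hr0 hpi0 hL0 hrm0 B0 C0 B1 C1 r0 r1
      hB0 hC0 hB1 hC1 hB0' hC0' hB1' hC1' hi0 hs0 hi1 hs1 hr0' hr1' (V ⊓ KQ K) hV0
      (fun v hv => hv.2) k (by rw [hVV]; exact hk)
    rw [hVV] at h1
    have h2 := kADD hCL hCLK kPICK hREL K hKc hK U hU r0 r1 e1 e2 hR0 hR1 hU0 hU1 V hV _ h1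
    have h3 : finrank ℚ (V ⊓ Submodule.span ℚ (Set.range (b3 L)) : Submodule ℚ ℂ) ≤
        finrank ℚ (V ⊓ KQ K : Submodule ℚ ℂ) :=
      Submodule.finrank_mono (inf_le_inf_left V hbK)
    have h4 : finrank ℚ (V ⊓ KQ K : Submodule ℚ ℂ) ≤ finrank ℚ V :=
      Submodule.finrank_mono inf_le_left
    have h5 : k + (finrank ℚ (V ⊓ KQ K : Submodule ℚ ℂ) -
        finrank ℚ (V ⊓ Submodule.span ℚ (Set.range (b3 L)) : Submodule ℚ ℂ)) +
        (finrank ℚ V - finrank ℚ (V ⊓ KQ K : Submodule ℚ ℂ)) =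
        k + (finrank ℚ V - finrank ℚ (V ⊓ Submodule.span ℚ (Set.range (b3 L)) :
          Submodule ℚ ℂ)) := by omega
    rw [h5] at h2
    exact h2
  have mainA : ∀ (n : ℕ) (z : Fin n → ℂ), LinearIndependent ℚ z → ∀ m : ℕ,
      m ≤ finrank ℚ (Submodule.span ℚ (Set.range z) ⊓ Submodule.span ℚ (Set.range (b3 L)) :
        Submodule ℚ ℂ) →
      Ge ((Submodule.span ℚ (Set.range z) ⊓ Submodule.span ℚ (Set.range (b3 L)) :
        Submodule ℚ ℂ) : Set ℂ) m →
      (n : Cardinal) ≤ Algebra.trdeg ℚ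
        (IntermediateField.adjoin ℚ (Set.range z ∪ Set.range (fun i => EE r0 r1 (z i)))) +
          ((finrank ℚ (Submodule.span ℚ (Set.range z) ⊓ Submodule.span ℚ (Set.range (b3 L)) :
        Submodule ℚ ℂ) - m : ℕ) : Cardinal) := by
    intro n z hz m hm h1
    have hfin : FiniteDimensional ℚ (Submodule.span ℚ (Set.range z)) :=
      FiniteDimensional.span_of_finite ℚ (Set.finite_range z)
    have hn : finrank ℚ (Submodule.span ℚ (Set.range z)) = n := by
      rw [finrank_span_eq_card hz, Fintype.card_fin]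
    have h2 := hH (Submodule.span ℚ (Set.range z)) hfin _ (FINL_mono hCL Set.subset_union_left h1)
    have h3 : finrank ℚ (Submodule.span ℚ (Set.range z) ⊓
        Submodule.span ℚ (Set.range (b3 L)) : Submodule ℚ ℂ) ≤
        finrank ℚ (Submodule.span ℚ (Set.range z)) := Submodule.finrank_mono inf_le_left
    rw [hn] at h2 h3
    have h5 := hTUP (EE r0 r1) e1 e2 n z _ h2
    obtain ⟨w, hw⟩ : ∃ w, w = finrank ℚ (Submodule.span ℚ (Set.range z) ⊓
        Submodule.span ℚ (Set.range (b3 L)) : Submodule ℚ ℂ) := ⟨_, rfl⟩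
    rw [← hw] at h3 hm h5 ⊢
    have h6 : (n : Cardinal.{0}) = ((m + (n - w) : ℕ) : Cardinal.{0}) + ((w - m : ℕ) : Cardinal.{0}) := by
      have h7 : n = (m + (n - w)) + (w - m) := by omega
      exact_mod_cast congrArg (Nat.cast (R := Cardinal.{0})) h7
    rw [h6]
    gcongr
  have main1 : ∀ (n : ℕ) (z : Fin n → ℂ), LinearIndependent ℚ z →
      Ge ((Submodule.span ℚ (Set.range z) ⊓ Submodule.span ℚ (Set.range (b3 L)) :
        Submodule ℚ ℂ) : Set ℂ)
        (finrank ℚ (Submodule.span ℚ (Set.range z) ⊓ Submodule.span ℚ (Set.range (b3 L)) :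
        Submodule ℚ ℂ)) →
      (n : Cardinal) ≤ Algebra.trdeg ℚ
        (IntermediateField.adjoin ℚ (Set.range z ∪ Set.range (fun i => EE r0 r1 (z i)))) := by
    intro n z hz h1
    have h2 := mainA n z hz _ le_rfl h1
    rwa [Nat.sub_self, Nat.cast_zero, add_zero] at h2
  refine ⟨K, UC U, EE r0 r1, hKct, c1, c2, c3, hKconj,
    fun z hz => EKmem hCL hCLK hK r0 r1 hR0 hR1 hz, isComplUC hCL hCLK hK hU,
    fun u hu => EUeq r0 r1 hU0 hU1 hu, e1, e3, e4, e5, e6, ?_, ?_, ?_, ?_, ?_⟩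
  · have h := e7 false L
    simp only [jj, ee, Bool.false_eq_true, if_false] at h
    rw [h, v0, ← Complex.ofReal_exp, Real.exp_log Real.pi_pos]
  · have h := e7 false (Real.pi * L)
    simp only [jj, ee, Bool.false_eq_true, if_false] at h
    rw [← Complex.ofReal_mul, h, v1, ← Complex.ofReal_exp, Real.exp_log hr0]
  · intro n m k z w hz hw hspan hk
    have hfin : FiniteDimensional ℚ (Submodule.span ℚ (Set.range z)) :=
      FiniteDimensional.span_of_finite ℚ (Set.finite_range z)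
    have hn : finrank ℚ (Submodule.span ℚ (Set.range z)) = n := by
      rw [finrank_span_eq_card hz, Fintype.card_fin]
    rw [← FINL_range] at hspan
    have hm : finrank ℚ (Submodule.span ℚ (Set.range z) ⊓
        Submodule.span ℚ (Set.range (b3 L)) : Submodule ℚ ℂ) = m := by
      rw [← hspan, finrank_span_eq_card hw, Fintype.card_fin]
    have h1 : Ge (((Submodule.span ℚ (Set.range z) ⊓ Submodule.span ℚ (Set.range (b3 L)) :
        Submodule ℚ ℂ) : Set ℂ) ∪ EE r0 r1 '' ((Submodule.span ℚ (Set.range z) ⊓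
        Submodule.span ℚ (Set.range (b3 L)) : Submodule ℚ ℂ) : Set ℂ)) k := by
      refine FINL_mono hCL ?_ (FINL_ge hCL _ k hk)
      rw [← hspan]
      rintro x (⟨i, rfl⟩ | ⟨i, rfl⟩)
      · exact Or.inl (Submodule.subset_span ⟨i, rfl⟩)
      · exact Or.inr ⟨w i, Submodule.subset_span ⟨i, rfl⟩, rfl⟩
    have h2 := hH (Submodule.span ℚ (Set.range z)) hfin _ h1
    have h3 : finrank ℚ (Submodule.span ℚ (Set.range z) ⊓
        Submodule.span ℚ (Set.range (b3 L)) : Submodule ℚ ℂ) ≤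
        finrank ℚ (Submodule.span ℚ (Set.range z)) := Submodule.finrank_mono inf_le_left
    rw [hn, hm] at h2 h3
    have h5 := hTUP (EE r0 r1) e1 e2 n z _ h2
    have h6 : (n : Cardinal.{0}) + (k : Cardinal.{0}) =
        ((k + (n - m) : ℕ) : Cardinal.{0}) + (m : Cardinal.{0}) := by
      have h7 : n + k = (k + (n - m)) + m := by omega
      exact_mod_cast congrArg (Nat.cast (R := Cardinal.{0})) h7
    rw [h6]
    gcongr
  · intro n z hz hle
    refine main1 n z hz ?_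
    have hspan : Submodule.span ℚ (Set.range (b3 L)) =
        Submodule.span ℚ {2 * (Real.pi : ℂ) * I, (L : ℂ), (Real.pi : ℂ) * (L : ℂ)} := by
      rw [FINL_range]
    rw [← hspan] at hle
    exact FINL_one hCL _ hle
  · intro hind
    obtain ⟨-, b2⟩ := hBASE L hind
    constructor
    · intro n z hz hnot
      refine main1 n z hz ((b2 _ inf_le_right).1 fun heq => hnot ?_)
      have hle : Submodule.span ℚ (Set.range (b3 L)) ≤ Submodule.span ℚ (Set.range z) :=
        inf_eq_right.1 heq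
      rw [FINL_range] at hle
      exact Submodule.subset_span.trans hle
    · intro n z hz
      by_cases heq : (Submodule.span ℚ (Set.range z) ⊓ Submodule.span ℚ (Set.range (b3 L)) :
          Submodule ℚ ℂ) = Submodule.span ℚ (Set.range (b3 L))
      · have h3 : finrank ℚ (Submodule.span ℚ (Set.range (b3 L))) = 3 := by
          rw [finrank_span_eq_card b1, Fintype.card_fin]
        have h2 := mainA n z hz 2 (by rw [heq, h3]; norm_num) ((b2 _ inf_le_right).2 heq)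
        rw [heq, h3] at h2
        simpa using h2
      · exact (main1 n z hz ((b2 _ inf_le_right).1 heq)).trans (self_le_add_right _ _)

end EPK
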