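import Pool.Agent.Lib.EPI.G4

/-!
Auxiliary lemmas for FULL.lean (copies of private lemmas of FINL.lean).
-/

set_option autoImplicit false

open Complex Module EPI

namespace EPK

theorem FINL_ge' (hCL : S_CL) (S : Set ℂ) (k : ℕ)
    (hk : (k : Cardinal) ≤ Algebra.trdeg ℚ (IntermediateField.adjoin ℚ S)) : Ge S k := by
  obtain ⟨s, hs⟩ := exists_isTranscendenceBasis ℚ (IntermediateField.adjoin ℚ S)
  have h1 := hs.cardinalMk_eq_trdeg
  rw [← h1] at hk
  obtain ⟨e⟩ : Nonempty (Fin k ↪ s) := by
    rw [← Cardinal.le_def]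
    simpa using hk
  refine ⟨fun i => ((e i : IntermediateField.adjoin ℚ S) : ℂ), ?_, fun i => ?_⟩
  · have h2 : AlgebraicIndependent ℚ (fun i : s => (i : IntermediateField.adjoin ℚ S)) := hs.1
    have h3 := h2.comp e e.injective
    exact h3.map' (f := (IntermediateField.adjoin ℚ S).val)
      (IntermediateField.adjoin ℚ S).val.injective
  · have h4 : IntermediateField.adjoin ℚ S ≤ cl S :=
      IntermediateField.adjoin_le_iff.2 (hCL.1 S)
    exact h4 (e i : IntermediateField.adjoin ℚ S).2

theorem FINL_range' (L : ℝ) : Set.range (b3 L) =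
    {2 * (Real.pi : ℂ) * I, (L : ℂ), (Real.pi : ℂ) * (L : ℂ)} := by
  ext z
  simp only [Set.mem_range, Set.mem_insert_iff, Set.mem_singleton_iff]
  constructor
  · rintro ⟨i, rfl⟩
    fin_cases i
    · exact Or.inl rfl
    · exact Or.inr (Or.inl rfl)
    · exact Or.inr (Or.inr (by simp [b3]))
  · rintro (rfl | rfl | rfl)
    · exact ⟨0, rfl⟩
    · exact ⟨1, rfl⟩
    · exact ⟨2, by simp [b3]⟩

theorem FINL_li' (L : ℝ) (hL : L ≠ 0) : LinearIndependent ℚ (b3 L) := by
  have h2 := LinearIndependent.pair_iff.1 (tLOG1 L hL)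
  rw [Fintype.linearIndependent_iff]
  intro q hq
  rw [Fin.sum_univ_three] at hq
  simp only [b3, Matrix.cons_val_zero, Matrix.cons_val_one, Matrix.cons_val] at hq
  have him := congrArg Complex.im hq
  have hre := congrArg Complex.re hq
  simp [Complex.smul_re, Complex.smul_im] at him hre
  have h0 : q 0 = 0 := him
  have h3 := h2 (q 1) (q 2) (by
    rw [Rat.smul_def, Rat.smul_def]
    simpa [Rat.smul_def] using hre)
  intro i
  fin_cases i
  · exact h0
  · exact h3.1
  · exact h3.2

end EPK
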