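import Pool.Agent.Lib.EPK.FINL
import Pool.Agent.Lib.EPK.FULA

/-!
The full conjecture of Schanuel for an exponential equal to `exp` up to a countable field, with
prescribed values at `L` and `π L` (MP_4c2ad3_nt).
-/

set_option autoImplicit false

open Complex Module EPI

namespace EPK

private theorem FULL_key (S : Set ℂ) (x : ℂ) :
    x ∈ cl S ↔ x ∈ (AlgebraicIndependent.matroid ℚ ℂ).closure S := by
  rw [mem_cl, AlgebraicIndependent.matroid_closure_eq]
  exact IntermediateField.isAlgebraic_adjoin_iff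

private theorem FULL_rk (a : Fin 3 → ℂ) (h : Ge (Set.range a) 3) : AlgebraicIndependent ℚ a := by
  obtain ⟨f, hf, hS⟩ := h
  have h1 : (AlgebraicIndependent.matroid ℚ ℂ).Indep (Set.range f) := hf.coe_range
  have h2 : Set.range f ⊆ (AlgebraicIndependent.matroid ℚ ℂ).closure (Set.range a) := by
    rintro _ ⟨i, rfl⟩
    exact (FULL_key _ _).1 (hS i)
  have h3 := h1.encard_le_eRk_of_subset h2
  rw [Matroid.eRk_closure_eq] at h3
  have h4 : (Set.range f).encard = 3 := by
    rw [← Set.image_univ, hf.injective.encard_image, Set.encard_univ]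
    simp
  rw [h4] at h3
  have h5 := (AlgebraicIndependent.matroid ℚ ℂ).eRk_le_encard (Set.range a)
  have h6 : (Set.range a).encard ≤ 3 := by
    rw [← Set.image_univ]
    refine (Set.encard_image_le _ _).trans ?_
    rw [Set.encard_univ]
    simp
  have h7 : (Set.range a).encard = 3 := le_antisymm h6 (h3.trans h5)
  have h8 : (AlgebraicIndependent.matroid ℚ ℂ).eRk (Set.range a) = (Set.range a).encard := by
    rw [h7]
    exact le_antisymm (h5.trans h6) h3
  have h9 : (AlgebraicIndependent.matroid ℚ ℂ).Indep (Set.range a) :=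
    (Matroid.indep_iff_eRk_eq_encard_of_finite (Set.finite_range a)).2 h8
  have hinj : Function.Injective a := by
    have h10 : Set.InjOn a (Set.univ : Set (Fin 3)) := by
      refine (Set.toFinite _).injOn_of_encard_image_eq ?_
      rw [Set.image_univ, h7, Set.encard_univ]
      simp
    exact Set.injOn_univ.1 h10
  exact AlgebraicIndependent.of_subtype_range hinj h9

/-- Schanuel's inequality for `E`, all tuples -/
theorem FULL_sch (hCL : S_CL) (hTUP : S_TUP) (hBASE : S_BASE) (r L : ℝ)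
    (hind : AlgebraicIndependent ℚ ![Real.pi, L, r]) (E : ℂ → ℂ)
    (e1 : ∀ x y, E (x + y) = E x * E y)
    (e3 : ∀ x, E x = 1 ↔ ∃ n : ℤ, x = n * (2 * Real.pi * I))
    (eL : E (L : ℂ) = (Real.pi : ℂ)) (eR : E ((Real.pi : ℂ) * (L : ℂ)) = (r : ℂ))
    (hR : ∀ (n m k : ℕ) (z : Fin n → ℂ) (w : Fin m → ℂ), LinearIndependent ℚ z →
      LinearIndependent ℚ w → Submodule.span ℚ (Set.range w) = Submodule.span ℚ (Set.range z) ⊓
        Submodule.span ℚ {2 * (Real.pi : ℂ) * I, (L : ℂ), (Real.pi : ℂ) * (L : ℂ)} →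
      (k : Cardinal) ≤ Algebra.trdeg ℚ
        (IntermediateField.adjoin ℚ (Set.range w ∪ Set.range (fun i => E (w i)))) →
      (n : Cardinal) + k ≤ Algebra.trdeg ℚ
        (IntermediateField.adjoin ℚ (Set.range z ∪ Set.range (fun i => E (z i)))) + m)
    (n : ℕ) (z : Fin n → ℂ) (hz : LinearIndependent ℚ z) :
    (n : Cardinal) ≤ Algebra.trdeg ℚ
      (IntermediateField.adjoin ℚ (Set.range z ∪ Set.range (fun i => E (z i)))) := by
  have hne : ∀ x, E x ≠ 0 := by
    intro x hx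
    have h0 : E 0 = 1 := (e3 0).2 ⟨0, by simp⟩
    have h1 := e1 x (-x)
    rw [add_neg_cancel, h0, hx, zero_mul] at h1
    exact one_ne_zero h1
  have hrange := FINL_range' L
  have hpair : AlgebraicIndependent ℚ ![Real.pi, L] := by
    have h := hind.comp ![0, 1] (by
      intro a b hab
      fin_cases a <;> fin_cases b <;> simp_all)
    have h2 : ![Real.pi, L, r] ∘ ![0, 1] = ![Real.pi, L] := by
      funext i
      fin_cases i <;> rfl
    rwa [h2] at h
  obtain ⟨b1, b2⟩ := hBASE L hpair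
  obtain ⟨W, hW⟩ : ∃ W : Submodule ℚ ℂ, W = Submodule.span ℚ (Set.range z) ⊓
      Submodule.span ℚ (Set.range (b3 L)) := ⟨_, rfl⟩
  have hfin : FiniteDimensional ℚ (Submodule.span ℚ (Set.range z)) :=
    FiniteDimensional.span_of_finite ℚ (Set.finite_range z)
  have hfW : FiniteDimensional ℚ W := by
    rw [hW]
    exact Submodule.finiteDimensional_of_le inf_le_left
  let B := finBasis ℚ W
  have hw : LinearIndependent ℚ (fun i => ((B i : W) : ℂ)) :=
    B.linearIndependent.map' W.subtype (Submodule.ker_subtype W)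
  have hws : Submodule.span ℚ (Set.range (fun i => ((B i : W) : ℂ))) = W := by
    have h1 : Set.range (fun i => ((B i : W) : ℂ)) = W.subtype '' Set.range B := by
      rw [← Set.range_comp]
      rfl
    rw [h1, ← Submodule.map_span, B.span_eq, Submodule.map_top, Submodule.range_subtype]
  have hk : ((finrank ℚ W : ℕ) : Cardinal) ≤ Algebra.trdeg ℚ (IntermediateField.adjoin ℚ
      (Set.range (fun i => ((B i : W) : ℂ)) ∪ Set.range (fun i => E ((B i : W) : ℂ)))) := by
    refine hTUP E e1 hne _ (fun i => ((B i : W) : ℂ)) _ ?_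
    rw [hws]
    by_cases hWD : W = Submodule.span ℚ (Set.range (b3 L))
    · have h3 : finrank ℚ W = 3 := by
        rw [hWD, finrank_span_eq_card b1, Fintype.card_fin]
      rw [h3]
      have hLm : (L : ℂ) ∈ W := by
        rw [hWD]; exact Submodule.subset_span ⟨1, rfl⟩
      have hpLm : (Real.pi : ℂ) * (L : ℂ) ∈ W := by
        rw [hWD]; exact Submodule.subset_span ⟨2, by simp [b3]⟩
      refine ⟨fun i => ((![Real.pi, L, r] i : ℝ) : ℂ), ?_, ?_⟩
      · exact hind.map' (f := (Algebra.ofId ℝ ℂ).restrictScalars ℚ) (algebraMap ℝ ℂ).injective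
      · intro i
        fin_cases i
        · exact hCL.1 _ (Or.inr ⟨(L : ℂ), hLm, eL⟩)
        · exact hCL.1 _ (Or.inl hLm)
        · exact hCL.1 _ (Or.inr ⟨_, hpLm, eR⟩)
    · have h1 := (b2 W (by rw [hW]; exact inf_le_right)).1 hWD
      obtain ⟨f, hf, hS⟩ := h1
      exact ⟨f, hf, fun i => hCL.2.1 _ _ (Set.subset_union_left.trans (hCL.1 _)) (hS i)⟩
  have h9 := hR n (finrank ℚ W) (finrank ℚ W) z (fun i => ((B i : W) : ℂ)) hz hw
    (by rw [hws, hW, hrange]) hk
  exact (Cardinal.add_le_add_iff_of_lt_aleph0 (Cardinal.natCast_lt_aleph0)).1 h9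

/-- necessity -/
theorem FULL_nec (hCL : S_CL) (r L : ℝ) (E : ℂ → ℂ)
    (e3 : ∀ x, E x = 1 ↔ ∃ n : ℤ, x = n * (2 * Real.pi * I))
    (eL : E (L : ℂ) = (Real.pi : ℂ)) (eR : E ((Real.pi : ℂ) * (L : ℂ)) = (r : ℂ))
    (hS : ∀ (n : ℕ) (z : Fin n → ℂ), LinearIndependent ℚ z →
      (n : Cardinal) ≤ Algebra.trdeg ℚ
        (IntermediateField.adjoin ℚ (Set.range z ∪ Set.range (fun i => E (z i))))) :
    AlgebraicIndependent ℚ ![Real.pi, L, r] := by
  have hL : L ≠ 0 := by
    rintro rfl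
    have h0 : E 0 = 1 := (e3 0).2 ⟨0, by simp⟩
    rw [Complex.ofReal_zero, h0] at eL
    have h1 : Real.pi = 1 := by exact_mod_cast eL.symm
    linarith [Real.pi_gt_three]
  have h1 := hS 3 (b3 L) (FINL_li' L hL)
  have h2 : Ge (Set.range (fun i => ((![Real.pi, L, r] i : ℝ) : ℂ))) 3 := by
    obtain ⟨f, hf, hfS⟩ := FINL_ge' hCL _ 3 h1
    refine ⟨f, hf, fun i => hCL.2.1 _ _ ?_ (hfS i)⟩
    have hpi : (Real.pi : ℂ) ∈ cl (Set.range (fun i => ((![Real.pi, L, r] i : ℝ) : ℂ))) :=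
      hCL.1 _ ⟨0, rfl⟩
    have hLm : (L : ℂ) ∈ cl (Set.range (fun i => ((![Real.pi, L, r] i : ℝ) : ℂ))) :=
      hCL.1 _ ⟨1, rfl⟩
    have hr : (r : ℂ) ∈ cl (Set.range (fun i => ((![Real.pi, L, r] i : ℝ) : ℂ))) :=
      hCL.1 _ ⟨2, rfl⟩
    have hI := hCL.2.2.2 (Set.range (fun i => ((![Real.pi, L, r] i : ℝ) : ℂ)))
    have hE0 : E (2 * (Real.pi : ℂ) * I) = 1 := (e3 _).2 ⟨1, by push_cast; ring⟩
    rintro x (⟨j, rfl⟩ | ⟨j, rfl⟩)
    · fin_cases j
      · exact mul_mem (mul_mem (ofNat_mem _ 2) hpi) hI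
      · exact hLm
      · change (((Real.pi * L : ℝ)) : ℂ) ∈ _
        push_cast
        exact mul_mem hpi hLm
    · fin_cases j
      · change E (2 * (Real.pi : ℂ) * I) ∈ _
        rw [hE0]
        exact one_mem _
      · change E (L : ℂ) ∈ _
        rw [eL]
        exact hpi
      · change E (((Real.pi * L : ℝ)) : ℂ) ∈ _
        push_cast
        rw [eR]
        exact hr
  have h3 := FULL_rk _ h2
  have hinj : Function.Injective ((Algebra.ofId ℝ ℂ).restrictScalars ℚ) :=
    (algebraMap ℝ ℂ).injective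
  exact (AlgHom.algebraicIndependent_iff _ hinj).1 h3

/-- `r` is not a rational power of `π` if `π, L, r` are algebraically independent -/
theorem FULL_pow (L r : ℝ) (hr : 0 < r) (hind : AlgebraicIndependent ℚ ![Real.pi, L, r]) (q : ℚ) :
    r ≠ Real.pi ^ (q : ℝ) := by
  intro hq
  have hpow : r ^ q.den = Real.pi ^ q.num := by
    rw [hq, ← Real.rpow_natCast, ← Real.rpow_mul Real.pi_pos.le, ← Real.rpow_intCast]
    congr 1
    exact_mod_cast Rat.mul_den_eq_num q
  have h1 := hind.transcendental_adjoin (s := {0}) (i := 2) (by simp)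
  apply h1
  rw [← IntermediateField.isAlgebraic_adjoin_iff]
  have h2 : IsAlgebraic (IntermediateField.adjoin ℚ (![Real.pi, L, r] '' {0})) (r ^ q.den) := by
    rw [hpow]
    have h3 : Real.pi ∈ IntermediateField.adjoin ℚ (![Real.pi, L, r] '' {0}) :=
      IntermediateField.subset_adjoin ℚ _ ⟨0, rfl, rfl⟩
    exact isAlgebraic_algebraMap
      (⟨Real.pi ^ q.num, zpow_mem h3 _⟩ : IntermediateField.adjoin ℚ (![Real.pi, L, r] '' {0}))
  exact h2.of_pow q.den_pos

theorem FULL_ex (hCL : S_CL) :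
    ∃ L r : ℝ, 0 < r ∧ AlgebraicIndependent ℚ ![Real.pi, L, r] := by
  obtain ⟨L, g, hg⟩ := tGEN tPI
  have h := hg.1.comp (![Sum.inl 0, Sum.inl 1, Sum.inr (0, 0, 0)] :
    Fin 3 → Fin 2 ⊕ (ℕ × Fin 4 × ℝ)) (by
      intro a b hab
      fin_cases a <;> fin_cases b <;> simp_all)
  have h2 : (Sum.elim ![Real.pi, L] (fun i : ℕ × Fin 4 × ℝ => g i.1 i.2.1 i.2.2)) ∘
      (![Sum.inl 0, Sum.inl 1, Sum.inr (0, 0, 0)] : Fin 3 → Fin 2 ⊕ (ℕ × Fin 4 × ℝ)) =
      ![Real.pi, L, g 0 0 0] := by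
    funext i
    fin_cases i <;> rfl
  rw [h2] at h
  have hne : g 0 0 0 ≠ 0 := by
    intro h3
    have h4 := h.transcendental 2
    apply h4
    show IsAlgebraic ℚ (g 0 0 0)
    rw [h3]
    exact isAlgebraic_zero
  rcases lt_or_gt_of_ne hne with h3 | h3
  · refine ⟨L, -g 0 0 0, by linarith, ?_⟩
    have hinj : Function.Injective ((Algebra.ofId ℝ ℂ).restrictScalars ℚ) :=
      (algebraMap ℝ ℂ).injective
    have h5 : AlgebraicIndependent ℚ (fun i => ((![Real.pi, L, -g 0 0 0] i : ℝ) : ℂ)) := by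
      refine FULL_rk _ ⟨fun i => ((![Real.pi, L, g 0 0 0] i : ℝ) : ℂ), ?_, ?_⟩
      · exact h.map' (f := (Algebra.ofId ℝ ℂ).restrictScalars ℚ) (algebraMap ℝ ℂ).injective
      · intro i
        fin_cases i
        · exact hCL.1 _ ⟨0, rfl⟩
        · exact hCL.1 _ ⟨1, rfl⟩
        · have h6 : ((-g 0 0 0 : ℝ) : ℂ) ∈
              cl (Set.range (fun i => ((![Real.pi, L, -g 0 0 0] i : ℝ) : ℂ))) :=
            hCL.1 _ ⟨2, rfl⟩
          have h7 := neg_mem h6
          have h8 : -((-g 0 0 0 : ℝ) : ℂ) = ((g 0 0 0 : ℝ) : ℂ) := by push_cast; ring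
          rw [h8] at h7
          exact h7
    exact (AlgHom.algebraicIndependent_iff _ hinj).1 h5
  · exact ⟨L, g 0 0 0, h3, h⟩

end EPK
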