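import Pool.Agent.Lib.EPK.Spec3

/-!
EPK, module GENK: generic elements inside a countable field.
-/

set_option autoImplicit false

open Complex Module EPI

namespace EPK

/-- the coordinates are countable -/
private theorem GENK_ctb (K : IntermediateField ℚ ℂ) (hK : (K : Set ℂ).Countable) :
    (RR K : Set ℝ).Countable := by
  have h1 : Set.InjOn (fun x : ℝ => (x : ℂ)) (RR K : Set ℝ) :=
    fun x _ y _ h => Complex.ofReal_injective h
  have h2 : Set.MapsTo (fun x : ℝ => (x : ℂ)) (RR K : Set ℝ) (K : Set ℂ) := fun x hx => hx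
  exact Set.MapsTo.countable_of_injOn h2 h1 hK

/-- a basis of `R` in the algebraic matroid which contains the range of `P` -/
private theorem GENK_basis (R : Set ℝ) (w : ℕ → ℝ) (hw : AlgebraicIndependent ℚ w)
    (hwR : ∀ i, w i ∈ R) (N : ℕ) (P : Fin N → ℝ) (hP : AlgebraicIndependent ℚ P)
    (hPR : ∀ i, P i ∈ R) :
    ∃ t : Set ℝ, Set.range P ⊆ t ∧ t ⊆ R ∧ t.Infinite ∧ AlgebraicIndepOn ℚ id t ∧
      ∀ x ∈ R, IsAlgebraic (Algebra.adjoin ℚ t) x := by
  have h1 : (AlgebraicIndependent.matroid ℚ ℝ).Indep (Set.range P) := hP.coe_range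
  have h2 : (AlgebraicIndependent.matroid ℚ ℝ).Indep (Set.range w) := hw.coe_range
  obtain ⟨t, ht, hPt⟩ := h1.subset_isBasis_of_subset (X := R) (by rintro x ⟨i, rfl⟩; exact hPR i)
  obtain ⟨J, hJ, hwJ⟩ := h2.subset_isBasis_of_subset (X := R) (by rintro x ⟨i, rfl⟩; exact hwR i)
  have h3 : t.encard = J.encard := ht.encard_eq_encard hJ
  have h4 : J.Infinite := (Set.infinite_range_of_injective hw.injective).mono hwJ
  have h5 : t.Infinite := by
    rw [← Set.encard_eq_top_iff, h3, Set.encard_eq_top_iff]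
    exact h4
  have h6 := AlgebraicIndependent.matroid_isBasis_iff.1 ht
  exact ⟨t, hPt, h6.2.1, h5, h6.1, h6.2.2⟩

/-- independence does not change under the embedding into `ℂ` -/
private theorem GENK_key (s : Set ℝ) : AlgebraicIndepOn ℚ (fun y : ℝ => (y : ℂ)) s ↔
    AlgebraicIndepOn ℚ id s := by
  have hinj : Function.Injective ((Algebra.ofId ℝ ℂ).restrictScalars ℚ) :=
    (algebraMap ℝ ℂ).injective
  have hv : (fun i : s => ((i : ℝ) : ℂ)) =
      ((Algebra.ofId ℝ ℂ).restrictScalars ℚ) ∘ (fun i : s => (i : ℝ)) := by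
    funext i; rfl
  show AlgebraicIndependent ℚ (fun i : s => ((i : ℝ) : ℂ)) ↔
    AlgebraicIndependent ℚ (fun i : s => (i : ℝ))
  rw [hv]
  exact AlgHom.algebraicIndependent_iff _ hinj

/-- algebraic over the subset in `ℝ` implies membership in the closure in `ℂ` -/
private theorem GENK_cl (t : Set ℝ) (ht : AlgebraicIndepOn ℚ id t) (x : ℝ)
    (hx : IsAlgebraic (Algebra.adjoin ℚ t) x) :
    (x : ℂ) ∈ cl ((fun y : ℝ => (y : ℂ)) '' t) := by
  rw [mem_cl, IntermediateField.isAlgebraic_adjoin_iff]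
  by_cases hxt : x ∈ t
  · exact isAlgebraic_algebraMap (⟨(x : ℂ), Algebra.subset_adjoin ⟨x, hxt, rfl⟩⟩ :
      Algebra.adjoin ℚ ((fun y : ℝ => (y : ℂ)) '' t))
  · by_contra htr
    have h1 : AlgebraicIndepOn ℚ (fun y : ℝ => (y : ℂ)) (insert x t) :=
      (AlgebraicIndepOn.insert_iff (x := fun y : ℝ => (y : ℂ)) hxt).2 ⟨(GENK_key t).2 ht, htr⟩
    have h2 := ((AlgebraicIndepOn.insert_iff (x := id) hxt).1 ((GENK_key _).1 h1)).2
    rw [Set.image_id] at h2
    exact h2 hx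

theorem kGENK : S_GENK := by
  classical
  intro K hK hw N P hP hPR
  obtain ⟨w, hw, hwR⟩ := hw
  obtain ⟨t, hPt, htR, htinf, htind, htalg⟩ := GENK_basis (RR K : Set ℝ) w hw hwR N P hP hPR
  have hRc : (RR K : Set ℝ).Countable := GENK_ctb K hK
  have hRcc : Countable (RR K) := hRc.to_subtype
  have hdc : Countable ↥(t \ Set.range P) := (hRc.mono (Set.sdiff_subset.trans htR)).to_subtype
  have hdi : Infinite ↥(t \ Set.range P) :=
    (htinf.sdiff (Set.finite_range P)).to_subtype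
  have hRne : Nonempty (RR K) := ⟨0⟩
  have hci : Infinite (ℕ × Fin 4 × RR K) := inferInstance
  obtain ⟨e⟩ : Nonempty ((ℕ × Fin 4 × RR K) ≃ ↥(t \ Set.range P)) :=
    nonempty_equiv_of_countable
  let g : ℕ → Fin 4 → ℝ → ℝ := fun n a c =>
    if h : c ∈ RR K then ((e (n, a, ⟨c, h⟩) : ↥(t \ Set.range P)) : ℝ) else 0
  have hg : ∀ (n : ℕ) (a : Fin 4) (c : RR K), g n a (c : ℝ) = ((e (n, a, c)) : ℝ) := by
    intro n a c
    exact dif_pos c.2
  refine ⟨g, ?_, hPR, ?_, ?_⟩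
  · have hFinj : Function.Injective (Sum.elim P
        (fun i : ℕ × Fin 4 × RR K => g i.1 i.2.1 (i.2.2 : ℝ))) := by
      refine Function.Injective.sumElim hP.injective ?_ ?_
      · intro a b hab
        have h1 : ((e (a.1, a.2.1, a.2.2)) : ℝ) = ((e (b.1, b.2.1, b.2.2)) : ℝ) := by
          rw [← hg, ← hg]
          exact hab
        have h2 := e.injective (Subtype.ext h1)
        exact h2
      · intro a b hab
        rw [hg] at hab
        exact (e (b.1, b.2.1, b.2.2)).2.2 ⟨a, hab⟩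
    have hsub : Set.range (Sum.elim P
        (fun i : ℕ × Fin 4 × RR K => g i.1 i.2.1 (i.2.2 : ℝ))) ⊆ t := by
      rw [Set.Sum.elim_range]
      refine Set.union_subset hPt ?_
      rintro x ⟨i, rfl⟩
      show g i.1 i.2.1 (i.2.2 : ℝ) ∈ t
      rw [hg]
      exact (e (i.1, i.2.1, i.2.2)).2.1
    refine (algebraicIndependent_subtype_range hFinj).1 ?_
    exact AlgebraicIndependent.mono hsub htind
  · intro n a c hc
    have h1 := hg n a ⟨c, hc⟩
    show g n a c ∈ RR K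
    rw [show g n a c = g n a ((⟨c, hc⟩ : RR K) : ℝ) from rfl, h1]
    exact htR (e (n, a, ⟨c, hc⟩)).2.1
  · intro x hx
    have h1 := GENK_cl t htind x (htalg x hx)
    have h2 : (fun y : ℝ => (y : ℂ)) '' t ⊆ Set.range (fun i => ((P i : ℝ) : ℂ)) ∪
        {z | ∃ n a, ∃ c ∈ RR K, z = ((g n a c : ℝ) : ℂ)} := by
      rintro z ⟨y, hy, rfl⟩
      by_cases hyP : y ∈ Set.range P
      · obtain ⟨i, rfl⟩ := hyP
        exact Or.inl ⟨i, rfl⟩
      · right
        refine ⟨(e.symm ⟨y, hy, hyP⟩).1, (e.symm ⟨y, hy, hyP⟩).2.1,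
          ((e.symm ⟨y, hy, hyP⟩).2.2 : ℝ), (e.symm ⟨y, hy, hyP⟩).2.2.2, ?_⟩
        rw [hg]
        show (y : ℂ) = ((e (e.symm ⟨y, hy, hyP⟩) : ℝ) : ℂ)
        rw [Equiv.apply_symm_apply]
    rw [mem_cl] at h1 ⊢
    rw [IntermediateField.isAlgebraic_adjoin_iff] at h1 ⊢
    exact h1.adjoin_of_forall_isAlgebraic (fun y hy =>
      absurd (h2 hy.1) hy.2)

end EPK
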