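import Pool.Agent.Lib.EPI.Spec
import Pool.Agent.Lib.EPK.Spec2

/-!
Generic elements inside a subspace `R` of `ℝ`: the modules NOT, EXH, VAL, IND of EPI, relative to `R`
(proofs of the seats which wrote EPI/EXH.lean and EPI/IND.lean, adapted).
-/

set_option autoImplicit false

open Complex Module EPI

namespace EPK

/-- the `P i` and the `g n a c` (`c ∈ R`) lie in `R`, are algebraically independent over `ℚ`, and all
elements of `R` are algebraic over them -/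
def GenR (R : Submodule ℚ ℝ) {N : ℕ} (P : Fin N → ℝ) (g : ℕ → Fin 4 → ℝ → ℝ) : Prop :=
  AlgebraicIndependent ℚ (Sum.elim P (fun i : ℕ × Fin 4 × R => g i.1 i.2.1 (i.2.2 : ℝ))) ∧
  (∀ i, P i ∈ R) ∧ (∀ n a, ∀ c ∈ R, g n a c ∈ R) ∧
  ∀ x ∈ R, (x : ℂ) ∈ cl (Set.range (fun i => ((P i : ℝ) : ℂ)) ∪
    {z | ∃ n a, ∃ c ∈ R, z = ((g n a c : ℝ) : ℂ)})

/-- generators of stage `n` -/
def GSR (R : Submodule ℚ ℝ) {N : ℕ} (P : Fin N → ℝ) (g : ℕ → Fin 4 → ℝ → ℝ) (n : ℕ) : Set ℂ :=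
  Set.range (fun i => ((P i : ℝ) : ℂ)) ∪ {z | ∃ m < n, ∃ a, ∃ c ∈ R, z = ((g m a c : ℝ) : ℂ)}

/-- generators of stage `n + 1` without `g n a c` -/
def GGR (R : Submodule ℚ ℝ) {N : ℕ} (P : Fin N → ℝ) (g : ℕ → Fin 4 → ℝ → ℝ) (n : ℕ) (a : Fin 4)
    (c : ℝ) : Set ℂ :=
  GSR R P g n ∪ {z | ∃ a', ∃ c' ∈ R, (a', c') ≠ (a, c) ∧ z = ((g n a' c' : ℝ) : ℂ)}

private theorem GEXH_cl_mono (h : S_CL) {S T : Set ℂ} (hST : S ⊆ T) : cl S ≤ cl T :=
  h.2.1 S T (hST.trans (h.1 T))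

private theorem GEXH_ind {R : Submodule ℚ ℝ} {N : ℕ} {P : Fin N → ℝ} {g : ℕ → Fin 4 → ℝ → ℝ}
    (hG : GenR R P g) :
    AlgebraicIndependent ℚ (algebraMap ℝ ℂ ∘
      (Sum.elim P (fun i : ℕ × Fin 4 × R => g i.1 i.2.1 (i.2.2 : ℝ)))) :=
  hG.1.map' (f := (Algebra.ofId ℝ ℂ).restrictScalars ℚ) (algebraMap ℝ ℂ).injective

theorem GSR_mono (R : Submodule ℚ ℝ) {N : ℕ} (P : Fin N → ℝ) (g : ℕ → Fin 4 → ℝ → ℝ)
    {m n : ℕ} (hmn : m ≤ n) : GSR R P g m ⊆ GSR R P g n := by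
  rintro z (hz | ⟨k, hk, a, c, hc, hz⟩)
  · exact Or.inl hz
  · exact Or.inr ⟨k, lt_of_lt_of_le hk hmn, a, c, hc, hz⟩

/-- `g n a c` is not in the algebraic closure of the others -/
theorem kNOT (hCL : S_CL) (R : Submodule ℚ ℝ) (N : ℕ) (P : Fin N → ℝ) (g : ℕ → Fin 4 → ℝ → ℝ)
    (hG : GenR R P g) (n : ℕ) (a : Fin 4) (c : ℝ) (hc : c ∈ R) :
    ((g n a c : ℝ) : ℂ) ∉ cl (GGR R P g n a c) := by
  intro hmem
  have hb := GEXH_ind hG
  have htr := hb.transcendental_adjoin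
    (s := {i | i ≠ (Sum.inr (n, a, ⟨c, hc⟩) : Fin N ⊕ (ℕ × Fin 4 × R))})
    (i := Sum.inr (n, a, ⟨c, hc⟩)) (by simp)
  apply htr
  rw [← IntermediateField.isAlgebraic_adjoin_iff]
  have hle : cl (GGR R P g n a c) ≤ cl ((algebraMap ℝ ℂ ∘
      (Sum.elim P (fun i : ℕ × Fin 4 × R => g i.1 i.2.1 (i.2.2 : ℝ)))) ''
      {i | i ≠ (Sum.inr (n, a, ⟨c, hc⟩) : Fin N ⊕ (ℕ × Fin 4 × R))}) := by
    apply GEXH_cl_mono hCL
    rintro z ((⟨i, hz⟩ | ⟨m, hm, a', c', hc', hz⟩) | ⟨a', c', hc', hne, hz⟩)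
    · exact ⟨Sum.inl i, by simp, hz⟩
    · refine ⟨Sum.inr (m, a', ⟨c', hc'⟩), ?_, hz.symm⟩
      intro h
      have h2 := congrArg Prod.fst (Sum.inr_injective h)
      simp only at h2
      omega
    · refine ⟨Sum.inr (n, a', ⟨c', hc'⟩), ?_, hz.symm⟩
      intro h
      have h2 := Sum.inr_injective h
      simp only [Prod.mk.injEq, Subtype.mk.injEq, true_and] at h2
      exact hne (by rw [h2.1, h2.2])
  exact mem_cl.1 (hle hmem)

/-- exhaustion by the stages -/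
theorem kEXH (hCL : S_CL) (R : Submodule ℚ ℝ) (N : ℕ) (P : Fin N → ℝ) (g : ℕ → Fin 4 → ℝ → ℝ)
    (hG : GenR R P g) (z : ℂ) (h1 : z.re ∈ R) (h2 : z.im ∈ R) : ∃ n, z ∈ cl (GSR R P g n) := by
  classical
  have hz : z ∈ cl (Set.range (fun i => ((P i : ℝ) : ℂ)) ∪
      {z | ∃ n a, ∃ c ∈ R, z = ((g n a c : ℝ) : ℂ)}) := by
    have h3 := hG.2.2.2 _ h1
    have h4 := hG.2.2.2 _ h2
    have h5 : z = (z.re : ℂ) + (z.im : ℂ) * I := (Complex.re_add_im z).symm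
    rw [h5]
    exact add_mem h3 (mul_mem h4 (hCL.2.2.2 _))
  obtain ⟨F, hF, hzF⟩ := hCL.2.2.1 _ z hz
  have hn : ∃ n, (F : Set ℂ) ⊆ GSR R P g n := by
    clear hzF
    induction F using Finset.induction_on with
    | empty => exact ⟨0, by simp⟩
    | insert w F hw ih =>
      obtain ⟨n, hn⟩ := ih (fun x hx => hF (by simp [Finset.mem_coe.1 hx]))
      have hw2 : ∃ m, w ∈ GSR R P g m := by
        rcases hF (by simp : w ∈ ((insert w F : Finset ℂ) : Set ℂ)) with hi | ⟨m, a, c, hc, hi⟩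
        · exact ⟨0, Or.inl hi⟩
        · exact ⟨m + 1, Or.inr ⟨m, Nat.lt_succ_self m, a, c, hc, hi⟩⟩
      obtain ⟨m, hm⟩ := hw2
      refine ⟨max n m, ?_⟩
      intro x hx
      rcases Finset.mem_insert.1 (Finset.mem_coe.1 hx) with rfl | hx
      · exact GSR_mono R P g (le_max_right n m) hm
      · exact GSR_mono R P g (le_max_left n m) (hn (Finset.mem_coe.2 hx))
  obtain ⟨n, hn⟩ := hn
  exact ⟨n, GEXH_cl_mono hCL hn hzF⟩

private theorem GVAL_false {x : ℝ} (hx : x ≠ 0) : ee false (hh false x) = ((|x| : ℝ) : ℂ) := by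
  simp only [ee, hh, jj, Bool.false_eq_true, if_false]
  rw [← Complex.ofReal_exp, Real.exp_log (abs_pos.2 hx)]

private theorem GVAL_true (x : ℝ) : ee true (hh true x) * (1 - (x : ℂ) * I) = 1 + (x : ℂ) * I := by
  simp only [ee, hh, jj, if_true]
  have h1 : ((2 * Real.arctan x : ℝ) : ℂ) * I = (Real.arctan x : ℂ) * I + (Real.arctan x : ℂ) * I := by
    push_cast
    ring
  have hs : Real.sqrt (1 + x ^ 2) ≠ 0 := (Real.sqrt_pos.2 (by positivity)).ne'
  have hs2 : Real.sqrt (1 + x ^ 2) ^ 2 = 1 + x ^ 2 := Real.sq_sqrt (by positivity)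
  have hsC : ((Real.sqrt (1 + x ^ 2) : ℝ) : ℂ) ≠ 0 := by exact_mod_cast hs
  have hs2C : ((Real.sqrt (1 + x ^ 2) : ℝ) : ℂ) ^ 2 = 1 + (x : ℂ) ^ 2 := by exact_mod_cast hs2
  have h2 : cexp ((Real.arctan x : ℂ) * I) * ((Real.sqrt (1 + x ^ 2) : ℝ) : ℂ) = 1 + (x : ℂ) * I := by
    rw [Complex.exp_mul_I, ← Complex.ofReal_cos, ← Complex.ofReal_sin, Real.cos_arctan, Real.sin_arctan]
    push_cast
    field_simp
  rw [h1, Complex.exp_add]
  have h3 : (cexp ((Real.arctan x : ℂ) * I) * cexp ((Real.arctan x : ℂ) * I)) *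
      ((Real.sqrt (1 + x ^ 2) : ℝ) : ℂ) ^ 2 = (1 + (x : ℂ) * I) ^ 2 := by
    rw [← h2]
    ring
  have h4 : (1 + (x : ℂ) ^ 2) = (1 + (x : ℂ) * I) * (1 - (x : ℂ) * I) := by
    linear_combination (x : ℂ) ^ 2 * Complex.I_sq
  rw [hs2C, h4] at h3
  have h5 : 1 + (x : ℂ) * I ≠ 0 := by
    intro h
    rw [h] at h2
    exact mul_ne_zero (Complex.exp_ne_zero _) hsC h2
  apply mul_left_cancel₀ h5
  linear_combination h3

theorem kVAL (hCL : S_CL) (R : Submodule ℚ ℝ) (N : ℕ) (P : Fin N → ℝ) (g : ℕ → Fin 4 → ℝ → ℝ)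
    (hG : GenR R P g) (s : Bool) (n : ℕ) (b : ℝ) (hb : b ∈ R) :
    (∀ T : Set ℂ, ((g n (ta s) b : ℝ) : ℂ) ∈ cl T → ee s (hh s (g n (ta s) b)) ∈ cl T) ∧
    (∀ T : Set ℂ, ee s (hh s (g n (ta s) b)) ∈ cl T → ((g n (ta s) b : ℝ) : ℂ) ∈ cl T) := by
  have hx : g n (ta s) b ≠ 0 := by
    intro h
    apply kNOT hCL R N P g hG n (ta s) b hb
    rw [h, Complex.ofReal_zero]
    exact (cl _).zero_mem
  obtain ⟨hc1, hc2, hc3, hc4⟩ := hCL
  cases s with
  | false =>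
    rw [GVAL_false hx]
    constructor
    · intro T hT
      rcases abs_choice (g n (ta false) b) with h | h
      · rw [h]; exact hT
      · rw [h, Complex.ofReal_neg]; exact (cl T).neg_mem hT
    · intro T hT
      rcases abs_choice (g n (ta false) b) with h | h
      · rw [h] at hT; exact hT
      · rw [h, Complex.ofReal_neg] at hT
        have := (cl T).neg_mem hT
        rwa [neg_neg] at this
  | true =>
    have key := GVAL_true (g n (ta true) b)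
    set x : ℂ := ((g n (ta true) b : ℝ) : ℂ) with hxdef
    set u : ℂ := ee true (hh true (g n (ta true) b)) with hu
    have h1 : (u + 1) * (1 - x * I) = 2 := by linear_combination key
    have h2 : u + 1 ≠ 0 := by
      intro h
      rw [h, zero_mul] at h1
      exact two_ne_zero h1.symm
    have h3 : 1 - x * I ≠ 0 := by
      intro h
      rw [h, mul_zero] at h1
      exact two_ne_zero h1.symm
    constructor
    · intro T hT
      have h4 : u = (1 + x * I) / (1 - x * I) := by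
        rw [eq_div_iff h3]; exact key
      rw [h4]
      have h5 : x * I ∈ cl T := (cl T).mul_mem hT (hc4 T)
      exact (cl T).div_mem ((cl T).add_mem (cl T).one_mem h5) ((cl T).sub_mem (cl T).one_mem h5)
    · intro T hT
      have h4 : x = (u - 1) / (I * (u + 1)) := by
        rw [eq_div_iff (mul_ne_zero Complex.I_ne_zero h2)]
        linear_combination -key
      rw [h4]
      exact (cl T).div_mem ((cl T).sub_mem hT (cl T).one_mem)
        ((cl T).mul_mem (hc4 T) ((cl T).add_mem hT (cl T).one_mem))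

private theorem GIND_lin {J : Type} {Y : Submodule ℚ ℝ} {t : J → ℝ} (Z : J → Submodule ℚ ℝ)
    (h1 : ∀ b, Y ≤ Z b)
    (h2 : ∀ b b', b' ≠ b → t b' ∈ Z b) (h3 : ∀ b, t b ∉ Z b) :
    LinearIndependent ℚ (fun b => Y.mkQ (t b)) := by
  classical
  rw [linearIndependent_iff']
  intro F q hq b hb
  by_contra hqb
  have h4 : ∑ i ∈ F, q i • t i ∈ Y := by
    rw [← Submodule.ker_mkQ Y, LinearMap.mem_ker, map_sum]
    simpa only [map_smul] using hq
  have h5 : ∑ i ∈ F, q i • t i ∈ Z b := h1 b h4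
  rw [← Finset.add_sum_erase F _ hb] at h5
  have h6 : ∑ i ∈ F.erase b, q i • t i ∈ Z b :=
    Submodule.sum_mem _ (fun i hi => (Z b).smul_mem _ (h2 b i (Finset.ne_of_mem_erase hi)))
  have h7 : q b • t b ∈ Z b := by
    have := (Z b).sub_mem h5 h6
    simpa only [add_sub_cancel_right] using this
  have h8 := (Z b).smul_mem (q b)⁻¹ h7
  rw [smul_smul, inv_mul_cancel₀ hqb, one_smul] at h8
  exact h3 b h8

theorem kIND (hCL : S_CL) (R : Submodule ℚ ℝ) (N : ℕ) (P : Fin N → ℝ) (g : ℕ → Fin 4 → ℝ → ℝ)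
    (hG : GenR R P g) (s : Bool) (n : ℕ) :
    LinearIndependent ℚ (fun b : R => (YY s (GSR R P g n)).mkQ (hh s (g n (ta s) b))) ∧
    LinearIndependent ℚ (fun y : R => (XX (GSR R P g n)).mkQ (g n (sa s) y)) := by
  have hNOT := kNOT hCL R N P g hG
  have hVAL := kVAL hCL R N P g hG
  obtain ⟨hc1, hc2, hc3, hc4⟩ := hCL
  have hsub : ∀ (a : Fin 4) (c : ℝ), GSR R P g n ⊆ cl (GGR R P g n a c) :=
    fun a c z hz => hc1 _ (Or.inl hz)
  have hmem : ∀ (a : Fin 4) (c c' : R), c' ≠ c →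
      ((g n a c' : ℝ) : ℂ) ∈ cl (GGR R P g n a c) := by
    intro a c c' h
    exact hc1 _ (Or.inr ⟨a, c', c'.2, fun h' => h (Subtype.ext (Prod.mk.inj h').2), rfl⟩)
  constructor
  · refine GIND_lin (t := fun b : R => hh s (g n (ta s) b))
      (fun b : R => YY s (GGR R P g n (ta s) b)) ?_ ?_ ?_
    · intro b y hy
      exact hc2 _ _ (hsub _ _) hy
    · intro b b' hb
      exact (hVAL s n b' b'.2).1 _ (hmem _ _ _ hb)
    · intro b hb
      exact hNOT n _ b b.2 ((hVAL s n b b.2).2 _ hb)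
  · refine GIND_lin (t := fun b : R => g n (sa s) b)
      (fun b : R => XX (GGR R P g n (sa s) b)) ?_ ?_ ?_
    · intro b y hy
      exact hc2 _ _ (hsub _ _) hy
    · intro b b' hb
      exact hmem _ _ _ hb
    · intro b hb
      exact hNOT n _ b b.2 hb

end EPK
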