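import Pool.Agent.Lib.EPK.SORTK
import Pool.Agent.Lib.EPK.CRITK
import Pool.Agent.Lib.EPI.EP

/-!
The criterion applied inside a countable field `K` (proof of the seat which wrote EPI/HYP.lean,
adapted).
-/

set_option autoImplicit false

open Complex Module EPI

namespace EPK

private theorem HYPK_mono (hCL : S_CL) {S T : Set ℂ} (h : S ⊆ T) : cl S ≤ cl T :=
  hCL.2.1 S T (h.trans (hCL.1 T))

private theorem HYPK_le (hCL : S_CL) (K : IntermediateField ℚ ℂ) {N : ℕ} (P : Fin N → ℝ) (g : ℕ → Fin 4 → ℝ → ℝ) {n m : ℕ} (h : n ≤ m)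
    (a : Fin 4) (c : ℝ) : cl (GSR (RR K) P g n) ≤ cl (GGR (RR K) P g m a c) :=
  HYPK_mono hCL ((GSR_mono (RR K) P g h).trans Set.subset_union_left)

private theorem HYPK_g (hCL : S_CL) (K : IntermediateField ℚ ℂ) {N : ℕ} (P : Fin N → ℝ) (g : ℕ → Fin 4 → ℝ → ℝ) {d d' : ℕ × Fin 4 × ℝ}
    (hne : d' ≠ d) (hle : d'.1 ≤ d.1) (hd : d'.2.2 ∈ RR K) :
    ((g d'.1 d'.2.1 d'.2.2 : ℝ) : ℂ) ∈ cl (GGR (RR K) P g d.1 d.2.1 d.2.2) := by
  apply hCL.1
  obtain ⟨n, a, c⟩ := d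
  obtain ⟨n', a', c'⟩ := d'
  simp only at hle hd ⊢
  rcases hle.lt_or_eq with h | rfl
  · exact Or.inl (Or.inr ⟨n', h, a', c', hd, rfl⟩)
  · refine Or.inr ⟨a', c', hd, ?_, rfl⟩
    intro h
    apply hne
    rw [h]

/-- the two cases of an index: `b h` is old and `E (b h)` is generic, or conversely -/
private def HYPK_Q (K : IntermediateField ℚ ℂ) {N : ℕ} (P : Fin N → ℝ) (g : ℕ → Fin 4 → ℝ → ℝ) (d : ℕ × Fin 4 × ℝ) (u v : ℂ) : Prop :=
  d.2.2 ∈ RR K ∧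
  ((u ∈ cl (GSR (RR K) P g d.1) ∧ ∀ T : Set ℂ, v ∈ cl T ↔ ((g d.1 d.2.1 d.2.2 : ℝ) : ℂ) ∈ cl T) ∨
  (v ∈ cl (GSR (RR K) P g d.1) ∧ ∀ T : Set ℂ, u ∈ cl T ↔ ((g d.1 d.2.1 d.2.2 : ℝ) : ℂ) ∈ cl T))

private theorem HYPK_old (hCL : S_CL) (K : IntermediateField ℚ ℂ) {N : ℕ} (P : Fin N → ℝ) (g : ℕ → Fin 4 → ℝ → ℝ) {d d' : ℕ × Fin 4 × ℝ}
    {u v : ℂ} (hQ : HYPK_Q K P g d' u v) (hne : d' ≠ d) (hle : d'.1 ≤ d.1) :
    u ∈ cl (GGR (RR K) P g d.1 d.2.1 d.2.2) ∧ v ∈ cl (GGR (RR K) P g d.1 d.2.1 d.2.2) := by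
  obtain ⟨hd, hQ⟩ := hQ
  have hg := HYPK_g hCL K P g hne hle hd
  rcases hQ with ⟨h1, h2⟩ | ⟨h1, h2⟩
  · exact ⟨HYPK_le hCL K P g hle _ _ h1, (h2 _).2 hg⟩
  · exact ⟨(h2 _).2 hg, HYPK_le hCL K P g hle _ _ h1⟩

private theorem HYPK_new (hCL : S_CL) (K : IntermediateField ℚ ℂ) {N : ℕ} (P : Fin N → ℝ) (g : ℕ → Fin 4 → ℝ → ℝ)
    (hG : GenR (RR K) P g) {d : ℕ × Fin 4 × ℝ} {u v : ℂ} (hQ : HYPK_Q K P g d u v) :
    (u ∈ cl (GGR (RR K) P g d.1 d.2.1 d.2.2) ∧ v ∉ cl (GGR (RR K) P g d.1 d.2.1 d.2.2)) ∨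
    (v ∈ cl (GGR (RR K) P g d.1 d.2.1 d.2.2) ∧ u ∉ cl (GGR (RR K) P g d.1 d.2.1 d.2.2)) := by
  obtain ⟨hd, hQ⟩ := hQ
  have hg := kNOT hCL (RR K) N P g hG d.1 d.2.1 d.2.2 hd
  rcases hQ with ⟨h1, h2⟩ | ⟨h1, h2⟩
  · exact Or.inl ⟨HYPK_le hCL K P g le_rfl _ _ h1, fun h => hg ((h2 _).1 h)⟩
  · exact Or.inr ⟨HYPK_le hCL K P g le_rfl _ _ h1, fun h => hg ((h2 _).1 h)⟩

private theorem HYPK_jj (hCL : S_CL) (s : Bool) (x : ℝ) (T : Set ℂ) :
    jj s x ∈ cl T ↔ ((x : ℝ) : ℂ) ∈ cl T := by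
  unfold jj
  cases s
  · simp
  · simp only [if_true]
    have hI := hCL.2.2.2 T
    constructor
    · intro h
      have h2 := (cl T).mul_mem h ((cl T).inv_mem hI)
      rwa [mul_assoc, mul_inv_cancel₀ I_ne_zero, mul_one] at h2
    · intro h
      exact (cl T).mul_mem h hI

/-- the linear map `jj s` -/
private noncomputable def HYPK_j (s : Bool) : ℝ →ₗ[ℚ] ℂ where
  toFun := jj s
  map_add' := by
    intro x y
    unfold jj
    cases s
    · simp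
    · simp [add_mul]
  map_smul' := by
    intro q x
    unfold jj
    cases s
    · simp [Rat.smul_def]
    · simp [Rat.smul_def, mul_assoc]

private theorem HYPK_j_apply (s : Bool) (x : ℝ) : HYPK_j s x = jj s x := rfl

private theorem HYPK_j_inj (s : Bool) : Function.Injective (HYPK_j s) := by
  intro x y h
  rw [HYPK_j_apply, HYPK_j_apply] at h
  unfold jj at h
  cases s
  · simpa using h
  · simpa using h

/-- indices of a line -/
private abbrev HYPK_A (B C : ℕ → Set ℝ) : Type := (Σ n, B n) ⊕ (Σ n, C n)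

/-- elements of a line -/
private noncomputable def HYPK_b (g : ℕ → Fin 4 → ℝ → ℝ) (s : Bool) (B C : ℕ → Set ℝ) :
    HYPK_A B C → ℂ :=
  Sum.elim (fun x => jj s (x.2 : ℝ)) (fun x => jj s (g x.1 (sa s) x.2))

/-- data of a line -/
private noncomputable def HYPK_d (s : Bool) (B C : ℕ → Set ℝ) : HYPK_A B C → ℕ × Fin 4 × ℝ :=
  Sum.elim (fun x => (x.1, ta s, (x.2 : ℝ))) (fun x => (x.1, sa s, (x.2 : ℝ)))

private theorem HYPK_line (hCL : S_CL) (K : IntermediateField ℚ ℂ) {N : ℕ} (P : Fin N → ℝ) (g : ℕ → Fin 4 → ℝ → ℝ)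
    (hG : GenR (RR K) P g) (s : Bool) (B C : ℕ → Set ℝ) (ρ : ℝ → ℝ) (E : ℂ → ℂ) {k : ℕ}
    (p q : Fin k → ℝ) (hB : ∀ n, B n ⊆ XX (GSR (RR K) P g n)) (hC : ∀ n, C n ⊆ YY s (GSR (RR K) P g n))
    (hB' : ∀ n, B n ⊆ RR K) (hC' : ∀ n, C n ⊆ RR K)
    (hρ : ∀ i, ρ (domF (fun n y => g n (sa s) y) p B C i) =
      imF (fun n b => hh s (g n (ta s) b)) q B C i)
    (hE : ∀ x : ℝ, E (jj s x) = ee s (ρ x)) (h : HYPK_A B C) :
    HYPK_Q K P g (HYPK_d s B C h) (HYPK_b g s B C h) (E (HYPK_b g s B C h)) := by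
  rcases h with ⟨n, x⟩ | ⟨n, y⟩
  · refine ⟨hB' n x.2, ?_⟩
    left
    have e1 : HYPK_b g s B C (Sum.inl ⟨n, x⟩) = jj s (x : ℝ) := rfl
    have e2 : HYPK_d s B C (Sum.inl ⟨n, x⟩) = (n, ta s, (x : ℝ)) := rfl
    have e3 : ρ (x : ℝ) = hh s (g n (ta s) x) := hρ (Sum.inr (Sum.inl ⟨n, x⟩))
    rw [e1, e2, hE, e3]
    refine ⟨(HYPK_jj hCL s _ _).2 (hB n x.2), fun T => ⟨?_, ?_⟩⟩
    · exact (kVAL hCL (RR K) N P g hG s n x (hB' n x.2)).2 T
    · exact (kVAL hCL (RR K) N P g hG s n x (hB' n x.2)).1 T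
  · refine ⟨hC' n y.2, ?_⟩
    right
    have e1 : HYPK_b g s B C (Sum.inr ⟨n, y⟩) = jj s (g n (sa s) y) := rfl
    have e2 : HYPK_d s B C (Sum.inr ⟨n, y⟩) = (n, sa s, (y : ℝ)) := rfl
    have e3 : ρ (g n (sa s) y) = (y : ℝ) := hρ (Sum.inr (Sum.inr ⟨n, y⟩))
    rw [e1, e2, hE, e3]
    exact ⟨hC n y.2, fun T => HYPK_jj hCL s _ T⟩

private theorem HYPK_d_inj (s : Bool) (B C : ℕ → Set ℝ) : Function.Injective (HYPK_d s B C) := by
  have hs : ta s ≠ sa s := by cases s <;> decide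
  rintro (⟨n, x⟩ | ⟨n, x⟩) (⟨m, y⟩ | ⟨m, y⟩) h
  · have h' : ((n, ta s, (x : ℝ)) : ℕ × Fin 4 × ℝ) = (m, ta s, (y : ℝ)) := h
    simp only [Prod.mk.injEq, true_and] at h'
    obtain ⟨rfl, h2⟩ := h'
    have : x = y := Subtype.ext h2
    rw [this]
  · have h' : ((n, ta s, (x : ℝ)) : ℕ × Fin 4 × ℝ) = (m, sa s, (y : ℝ)) := h
    simp only [Prod.mk.injEq] at h'
    exact absurd h'.2.1 hs
  · have h' : ((n, sa s, (x : ℝ)) : ℕ × Fin 4 × ℝ) = (m, ta s, (y : ℝ)) := h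
    simp only [Prod.mk.injEq] at h'
    exact absurd h'.2.1.symm hs
  · have h' : ((n, sa s, (x : ℝ)) : ℕ × Fin 4 × ℝ) = (m, sa s, (y : ℝ)) := h
    simp only [Prod.mk.injEq, true_and] at h'
    obtain ⟨rfl, h2⟩ := h'
    have : x = y := Subtype.ext h2
    rw [this]

private theorem HYPK_d_a (s : Bool) (B C : ℕ → Set ℝ) (h : HYPK_A B C) :
    (HYPK_d s B C h).2.1 = ta s ∨ (HYPK_d s B C h).2.1 = sa s := by
  rcases h with ⟨n, x⟩ | ⟨n, y⟩
  · exact Or.inl rfl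
  · exact Or.inr rfl

private theorem HYPK_d_inj2 (B0 C0 B1 C1 : ℕ → Set ℝ) :
    Function.Injective (Sum.elim (HYPK_d false B0 C0) (HYPK_d true B1 C1)) := by
  apply (HYPK_d_inj false B0 C0).sumElim (HYPK_d_inj true B1 C1)
  intro x y h
  have h1 := HYPK_d_a false B0 C0 x
  have h2 := HYPK_d_a true B1 C1 y
  rw [h] at h1
  rcases h1 with h1 | h1 <;> rcases h2 with h2 | h2 <;> rw [h1] at h2 <;>
    exact absurd h2 (by decide)

/-- the whole family -/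
private noncomputable def HYPK_F (L : ℝ) (g : ℕ → Fin 4 → ℝ → ℝ) (B0 C0 B1 C1 : ℕ → Set ℝ) :
    (Fin 2 ⊕ HYPK_A B0 C0) ⊕ (Fin 1 ⊕ HYPK_A B1 C1) → ℂ :=
  Sum.elim (HYPK_j false ∘ domF (fun n y => g n (sa false) y) ![L, Real.pi * L] B0 C0)
    (HYPK_j true ∘ domF (fun n y => g n (sa true) y) ![2 * Real.pi] B1 C1)

/-- reindexing -/
private def HYPK_psi (A B : Type) : Fin 3 ⊕ (A ⊕ B) → (Fin 2 ⊕ A) ⊕ (Fin 1 ⊕ B) :=
  Sum.elim ![Sum.inr (Sum.inl 0), Sum.inl (Sum.inl 0), Sum.inl (Sum.inl 1)]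
    (Sum.elim (fun a => Sum.inl (Sum.inr a)) (fun b => Sum.inr (Sum.inr b)))

private theorem HYPK_psi_inj (A B : Type) : Function.Injective (HYPK_psi A B) := by
  apply Function.Injective.sumElim
  · intro i j h
    fin_cases i <;> fin_cases j <;> simp_all
  · apply Function.Injective.sumElim
    · intro a b h
      simpa using h
    · intro a b h
      simpa using h
    · intro a b h
      simp at h
  · intro i x h
    fin_cases i <;> rcases x with x | x <;> simp at h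

private theorem HYPK_F_psi (L : ℝ) (g : ℕ → Fin 4 → ℝ → ℝ) (B0 C0 B1 C1 : ℕ → Set ℝ) :
    HYPK_F L g B0 C0 B1 C1 ∘ HYPK_psi _ _ =
      Sum.elim (b3 L) (Sum.elim (HYPK_b g false B0 C0) (HYPK_b g true B1 C1)) := by
  funext i
  rcases i with i | (⟨n, x⟩ | ⟨n, x⟩) | (⟨n, x⟩ | ⟨n, x⟩)
  · fin_cases i
    · show jj true (2 * Real.pi) = 2 * (Real.pi : ℂ) * I
      simp [jj]
    · show jj false L = (L : ℂ)
      simp [jj]
    · show jj false (Real.pi * L) = ((Real.pi * L : ℝ) : ℂ)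
      simp [jj]
  · rfl
  · rfl
  · rfl
  · rfl

private theorem HYPK_disj : Disjoint (LinearMap.range (HYPK_j false)) (LinearMap.range (HYPK_j true)) := by
  rw [Submodule.disjoint_def]
  rintro z ⟨x, hx⟩ ⟨y, hy⟩
  rw [← hy, HYPK_j_apply] at hx
  rw [HYPK_j_apply] at hx
  have h2 := congrArg Complex.re hx
  simp [jj] at h2
  rw [← hy, HYPK_j_apply, ← hx, h2]
  simp [jj]

private theorem HYPK_li (L : ℝ) (g : ℕ → Fin 4 → ℝ → ℝ) (B0 C0 B1 C1 : ℕ → Set ℝ)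
    (hli0 : LinearIndependent ℚ (domF (fun n y => g n (sa false) y) ![L, Real.pi * L] B0 C0))
    (hli1 : LinearIndependent ℚ (domF (fun n y => g n (sa true) y) ![2 * Real.pi] B1 C1)) :
    LinearIndependent ℚ
      (Sum.elim (b3 L) (Sum.elim (HYPK_b g false B0 C0) (HYPK_b g true B1 C1))) := by
  rw [← HYPK_F_psi]
  refine LinearIndependent.comp ?_ _ (HYPK_psi_inj _ _)
  refine LinearIndependent.sum_type ?_ ?_ ?_
  · exact hli0.map' (HYPK_j false) (LinearMap.ker_eq_bot.2 (HYPK_j_inj false))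
  · exact hli1.map' (HYPK_j true) (LinearMap.ker_eq_bot.2 (HYPK_j_inj true))
  · refine HYPK_disj.mono ?_ ?_
    · rw [Submodule.span_le]
      rintro z ⟨i, rfl⟩
      exact ⟨_, rfl⟩
    · rw [Submodule.span_le]
      rintro z ⟨i, rfl⟩
      exact ⟨_, rfl⟩

private theorem HYPK_sp (R : Submodule ℚ ℝ) (L : ℝ) (g : ℕ → Fin 4 → ℝ → ℝ)
    (B0 C0 B1 C1 : ℕ → Set ℝ)
    (hsp0 : Submodule.span ℚ
      (Set.range (domF (fun n y => g n (sa false) y) ![L, Real.pi * L] B0 C0)) = R)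
    (hsp1 : Submodule.span ℚ
      (Set.range (domF (fun n y => g n (sa true) y) ![2 * Real.pi] B1 C1)) = R)
    (z : ℂ) (hz1 : z.re ∈ R) (hz2 : z.im ∈ R) :
    z ∈ Submodule.span ℚ (Set.range
      (Sum.elim (b3 L) (Sum.elim (HYPK_b g false B0 C0) (HYPK_b g true B1 C1)))) := by
  have hsub : ∀ i, HYPK_F L g B0 C0 B1 C1 i ∈ Submodule.span ℚ (Set.range
      (Sum.elim (b3 L) (Sum.elim (HYPK_b g false B0 C0) (HYPK_b g true B1 C1)))) := by
    intro i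
    have hs : ∃ j, HYPK_psi _ _ j = i := by
      rcases i with (i | a) | (i | b)
      · fin_cases i
        · exact ⟨Sum.inl 1, rfl⟩
        · exact ⟨Sum.inl 2, rfl⟩
      · exact ⟨Sum.inr (Sum.inl a), rfl⟩
      · fin_cases i
        exact ⟨Sum.inl 0, rfl⟩
      · exact ⟨Sum.inr (Sum.inr b), rfl⟩
    obtain ⟨j, rfl⟩ := hs
    apply Submodule.subset_span
    exact ⟨j, by rw [← HYPK_F_psi]; rfl⟩
  have h0 : ∀ x ∈ R, HYPK_j false x ∈ Submodule.span ℚ (Set.range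
      (Sum.elim (b3 L) (Sum.elim (HYPK_b g false B0 C0) (HYPK_b g true B1 C1)))) := by
    intro x hxR
    have hx : x ∈ Submodule.span ℚ
      (Set.range (domF (fun n y => g n (sa false) y) ![L, Real.pi * L] B0 C0)) := by
      rw [hsp0]; exact hxR
    have h2 := Submodule.mem_map_of_mem (f := HYPK_j false) hx
    rw [Submodule.map_span] at h2
    refine (Submodule.span_le.2 ?_) h2
    rintro z ⟨w, ⟨i, rfl⟩, rfl⟩
    exact hsub (Sum.inl i)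
  have h1 : ∀ x ∈ R, HYPK_j true x ∈ Submodule.span ℚ (Set.range
      (Sum.elim (b3 L) (Sum.elim (HYPK_b g false B0 C0) (HYPK_b g true B1 C1)))) := by
    intro x hxR
    have hx : x ∈ Submodule.span ℚ
      (Set.range (domF (fun n y => g n (sa true) y) ![2 * Real.pi] B1 C1)) := by
      rw [hsp1]; exact hxR
    have h2 := Submodule.mem_map_of_mem (f := HYPK_j true) hx
    rw [Submodule.map_span] at h2
    refine (Submodule.span_le.2 ?_) h2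
    rintro z ⟨w, ⟨i, rfl⟩, rfl⟩
    exact hsub (Sum.inr i)
  have hz : z = HYPK_j false z.re + HYPK_j true z.im := by
    rw [HYPK_j_apply, HYPK_j_apply]
    simp [jj]
  rw [hz]
  exact Submodule.add_mem _ (h0 _ hz1) (h1 _ hz2)

theorem kHYP (hCL : S_CL) (hCLK : S_CLK) (hTD : S_TD2) (K : IntermediateField ℚ ℂ)
    (hK : Good K) (N : ℕ) (P : Fin N → ℝ) (g : ℕ → Fin 4 → ℝ → ℝ) (hG : GenR (RR K) P g)
    (L r : ℝ) (hr : 0 < r)
    (hpi0 : ((Real.pi : ℝ) : ℂ) ∈ cl (GSR (RR K) P g 0))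
    (hL0 : ((L : ℝ) : ℂ) ∈ cl (GSR (RR K) P g 0))
    (hrm0 : ((r : ℝ) : ℂ) ∈ cl (GSR (RR K) P g 0))
    (B0 C0 B1 C1 : ℕ → Set ℝ) (r0 r1 : ℝ ≃ₗ[ℚ] ℝ)
    (hB0 : ∀ n, B0 n ⊆ XX (GSR (RR K) P g n)) (hC0 : ∀ n, C0 n ⊆ YY false (GSR (RR K) P g n))
    (hB1 : ∀ n, B1 n ⊆ XX (GSR (RR K) P g n)) (hC1 : ∀ n, C1 n ⊆ YY true (GSR (RR K) P g n))
    (hB0' : ∀ n, B0 n ⊆ RR K) (hC0' : ∀ n, C0 n ⊆ RR K)
    (hB1' : ∀ n, B1 n ⊆ RR K) (hC1' : ∀ n, C1 n ⊆ RR K)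
    (hli0 : LinearIndependent ℚ (domF (fun n y => g n (sa false) y) ![L, Real.pi * L] B0 C0))
    (hsp0 : Submodule.span ℚ
      (Set.range (domF (fun n y => g n (sa false) y) ![L, Real.pi * L] B0 C0)) = RR K)
    (hli1 : LinearIndependent ℚ (domF (fun n y => g n (sa true) y) ![2 * Real.pi] B1 C1))
    (hsp1 : Submodule.span ℚ
      (Set.range (domF (fun n y => g n (sa true) y) ![2 * Real.pi] B1 C1)) = RR K)
    (hr0 : ∀ i, r0 (domF (fun n y => g n (sa false) y) ![L, Real.pi * L] B0 C0 i) =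
      imF (fun n b => hh false (g n (ta false) b)) ![Real.log Real.pi, Real.log r] B0 C0 i)
    (hr1' : ∀ i, r1 (domF (fun n y => g n (sa true) y) ![2 * Real.pi] B1 C1 i) =
      imF (fun n b => hh true (g n (ta true) b)) ![2 * Real.pi] B1 C1 i)
    (V : Submodule ℚ ℂ) (hV : FiniteDimensional ℚ V) (hVK : ∀ v ∈ V, v ∈ K) (k : ℕ)
    (hGe : Ge (((V ⊓ Submodule.span ℚ (Set.range (b3 L)) : Submodule ℚ ℂ) : Set ℂ) ∪
      EE r0 r1 '' ((V ⊓ Submodule.span ℚ (Set.range (b3 L)) : Submodule ℚ ℂ) : Set ℂ)) k) :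
    Ge ((V : Set ℂ) ∪ EE r0 r1 '' (V : Set ℂ))
      (k + (finrank ℚ V - finrank ℚ (V ⊓ Submodule.span ℚ (Set.range (b3 L)) :
        Submodule ℚ ℂ))) := by
  have h2pi : r1 (2 * Real.pi) = 2 * Real.pi := hr1' (Sum.inl 0)
  obtain ⟨hEadd, hEne, -, -, -, -, hEj⟩ := tEP r0 r1 h2pi
  have hQ : ∀ h, HYPK_Q K P g (Sum.elim (HYPK_d false B0 C0) (HYPK_d true B1 C1) h)
      (Sum.elim (HYPK_b g false B0 C0) (HYPK_b g true B1 C1) h)
      (EE r0 r1 (Sum.elim (HYPK_b g false B0 C0) (HYPK_b g true B1 C1) h)) := by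
    rintro (h | h)
    · exact HYPK_line hCL K P g hG false B0 C0 r0 (EE r0 r1) _ _ hB0 hC0 hB0' hC0' hr0
        (fun x => hEj false x) h
    · exact HYPK_line hCL K P g hG true B1 C1 r1 (EE r0 r1) _ _ hB1 hC1 hB1' hC1' hr1'
        (fun x => hEj true x) h
  refine kCRITK hCL hTD (EE r0 r1) hEadd hEne (HYPK_A B0 C0 ⊕ HYPK_A B1 C1) 3 (b3 L)
    (Sum.elim (HYPK_b g false B0 C0) (HYPK_b g true B1 C1))
    (fun h => (Sum.elim (HYPK_d false B0 C0) (HYPK_d true B1 C1) h).1)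
    (fun h => GGR (RR K) P g (Sum.elim (HYPK_d false B0 C0) (HYPK_d true B1 C1) h).1
      (Sum.elim (HYPK_d false B0 C0) (HYPK_d true B1 C1) h).2.1
      (Sum.elim (HYPK_d false B0 C0) (HYPK_d true B1 C1) h).2.2)
    (HYPK_li L g B0 C0 B1 C1 hli0 hli1) ?_ ?_ ?_ V hV
    (fun z hz => HYPK_sp (RR K) L g B0 C0 B1 C1 hsp0 hsp1 z (reim hCL hCLK hK (hVK z hz)).1
      (reim hCL hCLK hK (hVK z hz)).2) k hGe
  · intro h h' hne hle
    exact HYPK_old hCL K P g (hQ h') (fun e => hne (HYPK_d_inj2 B0 C0 B1 C1 e)) hle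
  · intro h i
    have hpi : ∀ n a c, ((Real.pi : ℝ) : ℂ) ∈ cl (GGR (RR K) P g n a c) := fun n a c =>
      HYPK_le hCL K P g (Nat.zero_le n) a c hpi0
    have hL : ∀ n a c, ((L : ℝ) : ℂ) ∈ cl (GGR (RR K) P g n a c) := fun n a c =>
      HYPK_le hCL K P g (Nat.zero_le n) a c hL0
    have e0 : b3 L 0 = jj true (2 * Real.pi) := by
      show 2 * (Real.pi : ℂ) * I = _
      simp [jj]
    have e1 : b3 L 1 = jj false L := by
      show (L : ℂ) = _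
      simp [jj]
    have e2 : b3 L 2 = jj false (Real.pi * L) := by
      show ((Real.pi * L : ℝ) : ℂ) = _
      simp [jj]
    have v0 : EE r0 r1 (b3 L 0) = 1 := by
      rw [e0, hEj]
      simp only [if_true]
      rw [h2pi]
      simp [ee, jj, Complex.exp_two_pi_mul_I]
    have v1 : EE r0 r1 (b3 L 1) = ((Real.pi : ℝ) : ℂ) := by
      rw [e1, hEj]
      have : r0 L = Real.log Real.pi := hr0 (Sum.inl 0)
      simp only [Bool.false_eq_true, if_false]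
      rw [this]
      simp only [ee, jj, Bool.false_eq_true, if_false]
      rw [← Complex.ofReal_exp, Real.exp_log Real.pi_pos]
    have v2 : EE r0 r1 (b3 L 2) = ((r : ℝ) : ℂ) := by
      rw [e2, hEj]
      have : r0 (Real.pi * L) = Real.log r := hr0 (Sum.inl 1)
      simp only [Bool.false_eq_true, if_false]
      rw [this]
      simp only [ee, jj, Bool.false_eq_true, if_false]
      rw [← Complex.ofReal_exp, Real.exp_log hr]
    fin_cases i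
    · constructor
      · show b3 L 0 ∈ _
        rw [e0, HYPK_jj hCL]
        push_cast
        exact (cl _).mul_mem (by simp) (hpi _ _ _)
      · show EE r0 r1 (b3 L 0) ∈ _
        rw [v0]
        exact (cl _).one_mem
    · constructor
      · show b3 L 1 ∈ _
        rw [e1, HYPK_jj hCL]
        exact hL _ _ _
      · show EE r0 r1 (b3 L 1) ∈ _
        rw [v1]
        exact hpi _ _ _
    · constructor
      · show b3 L 2 ∈ _
        rw [e2, HYPK_jj hCL]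
        push_cast
        exact (cl _).mul_mem (hpi _ _ _) (hL _ _ _)
      · show EE r0 r1 (b3 L 2) ∈ _
        rw [v2]
        exact HYPK_le hCL K P g (Nat.zero_le _) _ _ hrm0
  · intro h
    exact HYPK_new hCL K P g hG (hQ h)

end EPK
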