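import Pool.Agent.Lib.EPK.Spec2

/-!
Module JAC: tangent vectors from the Jacobian matrix.
-/

set_option autoImplicit false

open Module

namespace EPK

/-- the point with coordinates in `F` -/
private noncomputable def JAC_pt {K : IntermediateField ℚ ℂ} {n : ℕ} (F : IntermediateField K ℂ)
    (z : Fin n → ℂ) (hz : ∀ i, z i ∈ F) (he : ∀ i, Complex.exp (z i) ∈ F) : Fin n ⊕ Fin n → F :=
  Sum.elim (fun i => ⟨z i, hz i⟩) (fun i => ⟨Complex.exp (z i), he i⟩)

private theorem JAC_pt_coe {K : IntermediateField ℚ ℂ} {n : ℕ} (F : IntermediateField K ℂ)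
    (z : Fin n → ℂ) (hz : ∀ i, z i ∈ F) (he : ∀ i, Complex.exp (z i) ∈ F) :
    (fun i => F.val (JAC_pt F z hz he i)) = pt z := by
  funext i
  rcases i with i | i <;> rfl

/-- the functional of a polynomial -/
private noncomputable def JAC_row {K : IntermediateField ℚ ℂ} {n : ℕ} (F : IntermediateField K ℂ)
    (z : Fin n → ℂ) (hz : ∀ i, z i ∈ F) (he : ∀ i, Complex.exp (z i) ∈ F)
    (p : MvPolynomial (Fin n ⊕ Fin n) K) : Fin n → F := fun i =>
  MvPolynomial.aeval (JAC_pt F z hz he) (MvPolynomial.pderiv (Sum.inl i) p) +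
    (⟨Complex.exp (z i), he i⟩ : F) *
      MvPolynomial.aeval (JAC_pt F z hz he) (MvPolynomial.pderiv (Sum.inr i) p)

private theorem JAC_aeval {K : IntermediateField ℚ ℂ} {n : ℕ} (F : IntermediateField K ℂ)
    (z : Fin n → ℂ) (hz : ∀ i, z i ∈ F) (he : ∀ i, Complex.exp (z i) ∈ F)
    (q : MvPolynomial (Fin n ⊕ Fin n) K) :
    ((MvPolynomial.aeval (JAC_pt F z hz he) q : F) : ℂ) = MvPolynomial.aeval (pt z) q := by
  have h := MvPolynomial.comp_aeval_apply (f := JAC_pt F z hz he) F.val q
  rw [JAC_pt_coe] at h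
  exact h

private theorem JAC_row_coe {K : IntermediateField ℚ ℂ} {n : ℕ} (F : IntermediateField K ℂ)
    (z : Fin n → ℂ) (hz : ∀ i, z i ∈ F) (he : ∀ i, Complex.exp (z i) ∈ F)
    (p : MvPolynomial (Fin n ⊕ Fin n) K) (i : Fin n) :
    ((JAC_row F z hz he p i : F) : ℂ) =
      MvPolynomial.aeval (pt z) (MvPolynomial.pderiv (Sum.inl i) p) +
        Complex.exp (z i) * MvPolynomial.aeval (pt z) (MvPolynomial.pderiv (Sum.inr i) p) := by
  rw [← JAC_aeval F z hz he, ← JAC_aeval F z hz he]
  rfl

private theorem JAC_eval {K : IntermediateField ℚ ℂ} {n : ℕ} (z : Fin n → ℂ)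
    (q : MvPolynomial (Fin n ⊕ Fin n) K) :
    MvPolynomial.eval (pt z) (MvPolynomial.map (algebraMap K ℂ) q) = MvPolynomial.aeval (pt z) q := by
  rw [MvPolynomial.eval_map, MvPolynomial.aeval_def]

theorem kJAC : S_JAC := by
  intro K hK n z F hz he hnot
  by_cases htop : Submodule.span F (Set.range
      (fun p : {p : MvPolynomial (Fin n ⊕ Fin n) K // MvPolynomial.aeval (pt z) p = 0} =>
        JAC_row F z hz he p.1)) = ⊤
  · exfalso
    obtain ⟨κ, a, -, hsp, hli⟩ := exists_linearIndependent' F
      (fun p : {p : MvPolynomial (Fin n ⊕ Fin n) K // MvPolynomial.aeval (pt z) p = 0} =>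
        JAC_row F z hz he p.1)
    rw [htop] at hsp
    let b := Basis.mk hli hsp.ge
    let e := b.indexEquiv (Pi.basisFun F (Fin n))
    let p : Fin n → MvPolynomial (Fin n ⊕ Fin n) K := fun j => (a (e.symm j)).1
    have hp0 : ∀ j, MvPolynomial.aeval (pt z) (p j) = 0 := fun j => (a (e.symm j)).2
    let M : Matrix (Fin n) (Fin n) F := fun j i => JAC_row F z hz he (p j) i
    have hM : LinearIndependent F M.row := hli.comp e.symm e.symm.injective
    have hMu : IsUnit M := Matrix.linearIndependent_rows_iff_isUnit.1 hM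
    have hdet : M.det ≠ 0 := ((Matrix.isUnit_iff_isUnit_det M).1 hMu).ne_zero
    obtain ⟨i, hi⟩ := hnot
    apply hi
    refine hK n (fun j => MvPolynomial.map (algebraMap K ℂ) (p j)) ?_ z ⟨?_, ?_⟩ i
    · intro j m
      rw [MvPolynomial.coeff_map]
      exact ((p j).coeff m).2
    · intro j
      rw [JAC_eval]
      exact hp0 j
    · have hjac : jac (fun j => MvPolynomial.map (algebraMap K ℂ) (p j)) z =
          M.map (algebraMap F ℂ) := by
        ext j i
        simp only [jac, Matrix.map_apply]
        rw [MvPolynomial.pderiv_map, MvPolynomial.pderiv_map, JAC_eval, JAC_eval]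
        exact (JAC_row_coe F z hz he (p j) i).symm
      rw [hjac]
      have hd : (M.map (algebraMap F ℂ)).det = algebraMap F ℂ M.det := by
        rw [RingHom.map_det]
        rfl
      rw [hd]
      intro h
      apply hdet
      exact (map_eq_zero_iff (algebraMap F ℂ) (algebraMap F ℂ).injective).1 h
  · obtain ⟨f, hf0, hf⟩ := Submodule.exists_le_ker_of_lt_top _ (lt_top_iff_ne_top.2 htop)
    refine ⟨fun i => ((f (Pi.single i 1) : F) : ℂ), fun i => (f (Pi.single i 1)).2, ?_, ?_⟩
    · intro h
      apply hf0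
      apply LinearMap.ext
      intro x
      rw [LinearMap.pi_apply_eq_sum_univ f x]
      have h0 : ∀ i, f (fun j => if i = j then 1 else 0) = 0 := by
        intro i
        have h1 := congrFun h i
        have h2 : f (Pi.single i 1) = 0 := by
          apply Subtype.ext
          exact h1
        have h3 : (Pi.single i (1 : F) : Fin n → F) = fun j => if i = j then 1 else 0 := by
          funext j
          rw [Pi.single_apply]
          simp only [eq_comm]
        rwa [h3] at h2
      simp [h0]
    · intro p hp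
      have h1 : f (JAC_row F z hz he p) = 0 := by
        have : JAC_row F z hz he p ∈ Submodule.span F (Set.range
            (fun p : {p : MvPolynomial (Fin n ⊕ Fin n) K // MvPolynomial.aeval (pt z) p = 0} =>
              JAC_row F z hz he p.1)) := Submodule.subset_span ⟨⟨p, hp⟩, rfl⟩
        exact LinearMap.mem_ker.1 (hf this)
      rw [LinearMap.pi_apply_eq_sum_univ f] at h1
      have h2 := congrArg (algebraMap F ℂ) h1
      rw [map_sum, map_zero] at h2
      rw [← h2]
      refine Finset.sum_congr rfl fun i _ => ?_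
      rw [← JAC_row_coe F z hz he p i, smul_eq_mul, map_mul]
      have h3 : (Pi.single i (1 : F) : Fin n → F) = fun j => if i = j then 1 else 0 := by
        funext j
        rw [Pi.single_apply]
        simp only [eq_comm]
      rw [← h3]
      rfl

end EPK
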