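import Pool.Agent.Lib.EPK.Spec1

/-!
MP_4c2ad3_nt, extension B: the theorem of Ax for one derivation (modules KEY and AX).
-/

set_option autoImplicit false

open Module

namespace EPK

theorem kKEY : S_DER → S_TR → S_RES → S_KEY := by
  intro hDER hTR hRES C F _ _ _ _ hC s e a g hind ha0 hrel j0
  by_contra hcon
  have htr : Transcendental C (a j0) := fun halg => hcon (hC _ halg)
  obtain ⟨k, d, hut, halg, hdu⟩ := hDER C F (a j0) htr
  obtain ⟨n, h, G, hn, hh, hG, hpow, hrel'⟩ := hTR k F (a j0) d hut halg hdu s a g ha0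
  obtain ⟨v, hv, hv2⟩ := hRES k F (a j0) d hut hdu
  have h1 : ∑ j, algebraMap k F (algebraMap C k (e j)) * (d (a j) / a j) = d g := by
    have h2 := hrel (d.restrictScalars C)
    simpa [← IsScalarTower.algebraMap_apply C k F] using h2
  have h2 := hrel' (fun j => algebraMap C k (e j)) h1
  have h3 := hv2 s (fun j => algebraMap C k (e j)) h G (fun j => (hh j).1) (fun j => (hh j).2)
    hG h2
  have h4 : algebraMap C k (∑ j, ((v (h j) : ℤ) : C) * e j) = 0 := by
    rw [← h3, map_sum]
    refine Finset.sum_congr rfl fun j _ => ?_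
    rw [map_mul, map_intCast, mul_comm]
  have h5 : ∑ j, ((v (h j) : ℤ) : C) * e j = 0 := by
    apply (algebraMap C k).injective
    rw [h4, map_zero]
  have h6 := congrFun (hind (fun j => v (h j)) h5) j0
  have h7 : a j0 ∈ IntermediateField.adjoin k {a j0} :=
    IntermediateField.mem_adjoin_simple_self k (a j0)
  have h8 := hpow j0 h7
  simp only [h8, hv, Pi.zero_apply] at h6
  omega

private theorem KEY_prod {C F ι : Type} [Field C] [Field F] [Algebra C F]
    (d : Derivation C F F) (s : Finset ι) (f : ι → F) (hf : ∀ i ∈ s, f i ≠ 0) :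
    d (∏ i ∈ s, f i) / ∏ i ∈ s, f i = ∑ i ∈ s, d (f i) / f i := by
  classical
  induction s using Finset.induction_on with
  | empty => simp
  | insert i s hi ih =>
    have h1 : f i ≠ 0 := hf i (Finset.mem_insert_self _ _)
    have h2 : ∏ j ∈ s, f j ≠ 0 :=
      Finset.prod_ne_zero_iff.2 fun j hj => hf j (Finset.mem_insert_of_mem hj)
    have h3 := ih fun j hj => hf j (Finset.mem_insert_of_mem hj)
    rw [Finset.prod_insert hi, Finset.sum_insert hi, ← h3, d.leibniz]
    simp only [smul_eq_mul]
    field_simp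
    ring

private theorem KEY_zpow {C F : Type} [Field C] [Field F] [Algebra C F]
    (d : Derivation C F F) (y : F) (hy : y ≠ 0) (n : ℤ) :
    d (y ^ n) / y ^ n = (n : F) * (d y / y) := by
  rw [d.leibniz_zpow]
  simp only [smul_eq_mul, zsmul_eq_mul]
  rw [zpow_sub_one₀ hy]
  have h1 : y ^ n ≠ 0 := zpow_ne_zero n hy
  field_simp

private theorem KEY_log {C F : Type} [Field C] [Field F] [Algebra C F]
    (d : Derivation C F F) {m : ℕ} (y : Fin m → F) (hy : ∀ i, y i ≠ 0) (q : Fin m → ℤ) :
    d (∏ i, y i ^ q i) / ∏ i, y i ^ q i = ∑ i, (q i : F) * (d (y i) / y i) := by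
  rw [KEY_prod d Finset.univ (fun i => y i ^ q i) fun i _ => zpow_ne_zero _ (hy i)]
  exact Finset.sum_congr rfl fun i _ => KEY_zpow d (y i) (hy i) (q i)

private theorem KEY_const {C F : Type} [Field C] [Field F] [CharZero F] [Algebra C F]
    (D : Derivation C F F) (x : F) (hx : IsAlgebraic C x) : D x = 0 := by
  have : CharZero C := (algebraMap C F).charZero
  have h1 : Polynomial.aeval x (minpoly C x) = 0 := minpoly.aeval C x
  have h2 : (minpoly C x).Separable := (minpoly.irreducible hx.isIntegral).separable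
  have h3 : Polynomial.aeval x (Polynomial.derivative (minpoly C x)) ≠ 0 :=
    h2.aeval_derivative_ne_zero h1
  have h4 := D.map_aeval (minpoly C x) x
  rw [h1, map_zero, smul_eq_mul] at h4
  rcases mul_eq_zero.1 h4.symm with h5 | h5
  · exact absurd h5 h3
  · exact h5

private theorem KEY_basis {C : Type} [Field C] [CharZero C] {m : ℕ} (c : Fin m → C) :
    ∃ (s : ℕ) (e : Fin s → C) (q : Fin m → Fin s → ℤ),
      (∀ q : Fin s → ℤ, ∑ j, (q j : C) * e j = 0 → q = 0) ∧
      ∀ i, c i = ∑ j, (q i j : C) * e j := by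
  have hfg : Module.Finite ℤ (Submodule.span ℤ (Set.range c)) :=
    Module.Finite.span_of_finite ℤ (Set.finite_range c)
  have hfree : Module.Free ℤ (Submodule.span ℤ (Set.range c)) := inferInstance
  obtain ⟨b⟩ : Nonempty (Basis (Fin (finrank ℤ (Submodule.span ℤ (Set.range c)))) ℤ
    (Submodule.span ℤ (Set.range c))) := ⟨Module.finBasis ℤ _⟩
  have hmem : ∀ i, c i ∈ Submodule.span ℤ (Set.range c) :=
    fun i => Submodule.subset_span (Set.mem_range_self i)
  have hco : ∀ w : Fin (finrank ℤ (Submodule.span ℤ (Set.range c))) → ℤ,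
      ((∑ j, w j • b j : Submodule.span ℤ (Set.range c)) : C) = ∑ j, (w j : C) * (b j : C) := by
    intro w
    simp
  refine ⟨_, fun j => (b j : C), fun i j => b.repr ⟨c i, hmem i⟩ j, ?_, ?_⟩
  · intro q hq
    have h1 : ∑ j, q j • b j = 0 := by
      apply Subtype.ext
      rw [hco q]
      exact hq
    funext j
    exact Fintype.linearIndependent_iff.1 b.linearIndependent q h1 j
  · intro i
    have h1 := b.sum_repr ⟨c i, hmem i⟩
    have h2 := hco fun j => b.repr ⟨c i, hmem i⟩ j
    rw [h1] at h2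
    exact h2

theorem kAX : S_DIM → S_MIN → S_KEY → S_AX := by
  intro hDIM hMIN hKEY C F _ _ _ _ D hC m x y hy hD hq
  by_contra hlt
  have : CharZero C := (algebraMap C F).charZero
  have h1 : ∃ f : Fin m → F, f ≠ 0 ∧
      ∀ d : Derivation C F F, ∑ i, f i * (d (y i) / y i - d (x i)) = 0 := by
    by_contra hcon
    apply hlt
    apply hDIM C F m x y
    intro f hf
    by_contra hf0
    exact hcon ⟨f, hf0, hf⟩
  obtain ⟨c, hc0, hc⟩ := hMIN C F D hC m x y hy hD h1
  obtain ⟨s, e, q, hind, hce⟩ := KEY_basis c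
  have halg : ∀ z : F, IsAlgebraic C z → ∃ c : C, algebraMap C F c = z :=
    fun z hz => hC z (KEY_const D z hz)
  have ha0 : ∀ j, ∏ i, y i ^ q i j ≠ 0 :=
    fun j => Finset.prod_ne_zero_iff.2 fun i _ => zpow_ne_zero _ (hy i)
  have hrel : ∀ d : Derivation C F F, ∑ j, algebraMap C F (e j) *
      (d (∏ i, y i ^ q i j) / ∏ i, y i ^ q i j) = d (∑ i, c i • x i) := by
    intro d
    have h2 : ∑ j, algebraMap C F (e j) * (d (∏ i, y i ^ q i j) / ∏ i, y i ^ q i j) =
        ∑ i, algebraMap C F (c i) * (d (y i) / y i) := by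
      calc ∑ j, algebraMap C F (e j) * (d (∏ i, y i ^ q i j) / ∏ i, y i ^ q i j)
          = ∑ j, ∑ i, algebraMap C F (e j) * ((q i j : F) * (d (y i) / y i)) := by
            refine Finset.sum_congr rfl fun j _ => ?_
            rw [KEY_log d y hy fun i => q i j, Finset.mul_sum]
        _ = ∑ i, ∑ j, algebraMap C F (e j) * ((q i j : F) * (d (y i) / y i)) :=
            Finset.sum_comm
        _ = ∑ i, algebraMap C F (c i) * (d (y i) / y i) := by
            refine Finset.sum_congr rfl fun i _ => ?_
            rw [hce i, map_sum, Finset.sum_mul]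
            refine Finset.sum_congr rfl fun j _ => ?_
            rw [map_mul, map_intCast]
            ring
    have h3 := hc d
    have h4 : ∑ i, algebraMap C F (c i) * (d (y i) / y i) =
        ∑ i, algebraMap C F (c i) * d (x i) := by
      rw [← sub_eq_zero, ← Finset.sum_sub_distrib, ← h3]
      exact Finset.sum_congr rfl fun i _ => by ring
    rw [h2, h4, map_sum]
    refine Finset.sum_congr rfl fun i _ => ?_
    rw [d.map_smul, Algebra.smul_def]
  have hfin := hKEY C F halg s e (fun j => ∏ i, y i ^ q i j) (∑ i, c i • x i) hind ha0 hrel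
  have hq0 : ∀ j, (fun i => q i j) = 0 := by
    intro j
    apply hq
    obtain ⟨c', hc'⟩ := hfin j
    have h2 : D (∏ i, y i ^ q i j) = 0 := by
      rw [← hc']
      exact D.map_algebraMap c'
    have h3 := KEY_log D y hy fun i => q i j
    rw [h2, zero_div] at h3
    rw [map_sum]
    rw [h3]
    refine Finset.sum_congr rfl fun i _ => ?_
    rw [← zsmul_eq_mul, map_zsmul, zsmul_eq_mul, hD i, mul_div_cancel_left₀ _ (hy i)]
  apply hc0
  funext i
  rw [hce i]
  simp only [Pi.zero_apply]
  refine Finset.sum_eq_zero fun j _ => ?_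
  have h2 := congrFun (hq0 j) i
  simp only [Pi.zero_apply] at h2
  rw [h2, Int.cast_zero, zero_mul]

end EPK
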