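import Pool.Agent.Lib.EPK.Spec1

/-!
# EPK, MIN: minimal relations have constant coefficients
-/

set_option autoImplicit false

open Module

namespace EPK

private theorem MIN_bracket {C F : Type} [Field C] [Field F] [Algebra C F]
    (D d : Derivation C F F) (x y : F) (hy : y ≠ 0) (hD : D y = y * D x) :
    ⁅D, d⁆ y / y - ⁅D, d⁆ x = D (d y / y - d x) := by
  have h1 : D (d y / y) * y + (d y / y) * D y = D (d y) := by
    have h := D.leibniz (d y / y) y
    rw [div_mul_cancel₀ _ hy] at h
    rw [h, smul_eq_mul, smul_eq_mul]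
    ring
  have h2 : d (D y) = y * d (D x) + D x * d y := by
    rw [hD, d.leibniz, smul_eq_mul, smul_eq_mul]
  rw [map_sub, Derivation.commutator_apply, Derivation.commutator_apply, h2, ← h1, hD]
  field_simp
  ring

theorem kMIN : S_MIN := by
  classical
  intro C F _ _ _ _ D hC m x y hy hD hf
  let Rel : (Fin m → F) → Prop := fun f =>
    ∀ d : Derivation C F F, ∑ i, f i * (d (y i) / y i - d (x i)) = 0
  let P : ℕ → Prop := fun n => ∃ f : Fin m → F, f ≠ 0 ∧ Rel f ∧
    (Finset.univ.filter (fun i => f i ≠ 0)).card = n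
  have hP : ∃ n, P n := by
    obtain ⟨f, h1, h2⟩ := hf
    exact ⟨_, f, h1, h2, rfl⟩
  obtain ⟨f, hf0, hfR, hfn⟩ := Nat.find_spec hP
  have hmin : ∀ k, k < Nat.find hP → ¬ P k := fun k hk => Nat.find_min hP hk
  obtain ⟨i0, hi0⟩ : ∃ i0, f i0 ≠ 0 := by
    by_contra hno
    push Not at hno
    exact hf0 (funext hno)
  let g : Fin m → F := fun i => f i / f i0
  have hgi0 : g i0 = 1 := div_self hi0
  have hgR : Rel g := by
    intro d
    have h := hfR d
    have e : ∑ i, g i * (d (y i) / y i - d (x i)) =
        (∑ i, f i * (d (y i) / y i - d (x i))) / f i0 := by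
      rw [Finset.sum_div]
      refine Finset.sum_congr rfl fun i _ => ?_
      change f i / f i0 * _ = _
      ring
    rw [e, h, zero_div]
  have hDg : Rel (fun i => D (g i)) := by
    intro d
    have h1 := hgR d
    have h2 := hgR ⁅D, d⁆
    have h3 : D (∑ i, g i * (d (y i) / y i - d (x i))) = 0 := by rw [h1, map_zero]
    rw [map_sum] at h3
    have h4 : ∀ i, D (g i * (d (y i) / y i - d (x i))) =
        g i * (⁅D, d⁆ (y i) / y i - ⁅D, d⁆ (x i)) + D (g i) * (d (y i) / y i - d (x i)) := by
      intro i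
      rw [MIN_bracket D d (x i) (y i) (hy i) (hD i), D.leibniz, smul_eq_mul, smul_eq_mul]
      ring
    rw [Finset.sum_congr rfl fun i _ => h4 i, Finset.sum_add_distrib, h2, zero_add] at h3
    exact h3
  have hzero : ∀ i, D (g i) = 0 := by
    by_contra hne
    push Not at hne
    obtain ⟨i1, hi1⟩ := hne
    refine hmin (Finset.univ.filter (fun i => D (g i) ≠ 0)).card ?_
      ⟨fun i => D (g i), fun h => hi1 (congrFun h i1), hDg, rfl⟩
    rw [← hfn]
    refine Finset.card_lt_card ?_
    rw [Finset.ssubset_iff_of_subset]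
    · refine ⟨i0, ?_, ?_⟩
      · rw [Finset.mem_filter]
        exact ⟨Finset.mem_univ _, hi0⟩
      · rw [Finset.mem_filter]
        rintro ⟨-, h⟩
        apply h
        rw [hgi0]
        exact D.map_one_eq_zero
    · intro i hi
      rw [Finset.mem_filter] at hi ⊢
      refine ⟨Finset.mem_univ _, fun h => hi.2 ?_⟩
      have : g i = 0 := by
        change f i / f i0 = 0
        rw [h, zero_div]
      rw [this, map_zero]
  choose c hc using fun i => hC (g i) (hzero i)
  refine ⟨c, ?_, ?_⟩
  · intro h
    have h1 := hc i0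
    rw [hgi0, h] at h1
    simp at h1
  · intro d
    have h1 := hgR d
    rw [← h1]
    exact Finset.sum_congr rfl fun i _ => by rw [hc i]

end EPK
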