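import Pool.Agent.Lib.EPK.Spec2

/-!
EPK, module REL: the relative inequality of Schanuel over a closed field.
-/

set_option autoImplicit false

open Module

namespace EPK

/-- the field of constants of a derivation -/
private def REL_const {K F : Type} [Field K] [Field F] [Algebra K F] (D : Derivation K F F) :
    IntermediateField K F where
  carrier := {x | D x = 0}
  mul_mem' := by
    intro a b ha hb
    have ha' : D a = 0 := ha
    have hb' : D b = 0 := hb
    show D (a * b) = 0
    rw [D.leibniz, ha', hb', smul_zero, smul_zero, add_zero]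
  add_mem' := by
    intro a b ha hb
    have ha' : D a = 0 := ha
    have hb' : D b = 0 := hb
    show D (a + b) = 0
    rw [map_add, ha', hb', add_zero]
  algebraMap_mem' := by
    intro r
    show D (algebraMap K F r) = 0
    exact D.map_algebraMap r
  inv_mem' := by
    intro a ha
    have ha' : D a = 0 := ha
    show D a⁻¹ = 0
    rw [D.leibniz_inv, ha', smul_zero]

private theorem REL_mem {K F : Type} [Field K] [Field F] [Algebra K F] (D : Derivation K F F)
    (x : F) : x ∈ REL_const D ↔ D x = 0 := Iff.rfl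

/-- the derivation is linear over its constants -/
private def REL_der {K F : Type} [Field K] [Field F] [Algebra K F] (D : Derivation K F F) :
    Derivation (REL_const D) F F :=
  Derivation.mk'
    { toFun := fun x => D x
      map_add' := fun x y => map_add D x y
      map_smul' := by
        intro c x
        rw [RingHom.id_apply, Algebra.smul_def, Algebra.smul_def, D.leibniz]
        have h1 : D ((algebraMap (REL_const D) F) c) = 0 := c.2
        rw [h1, smul_zero, add_zero, smul_eq_mul] }
    (fun x y => D.leibniz x y)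

private theorem REL_der_apply {K F : Type} [Field K] [Field F] [Algebra K F]
    (D : Derivation K F F) (x : F) : REL_der D x = D x := rfl

/-- constants are relatively algebraically closed -/
private theorem REL_alg {K F : Type} [Field K] [Field F] [CharZero F] [Algebra K F]
    (D : Derivation K F F) (x : F) (hx : IsAlgebraic (REL_const D) x) : D x = 0 := by
  have hc0 : CharZero (REL_const D) := (algebraMap (REL_const D) F).charZero
  have h1 := (REL_der D).map_aeval (minpoly (REL_const D) x) x
  rw [minpoly.aeval, map_zero, REL_der_apply] at h1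
  have hsep : (minpoly (REL_const D) x).Separable :=
    (minpoly.irreducible hx.isIntegral).separable
  have h2 : Polynomial.aeval x (Polynomial.derivative (minpoly (REL_const D) x)) ≠ 0 :=
    hsep.aeval_derivative_ne_zero (minpoly.aeval _ _)
  rw [smul_eq_mul] at h1
  rcases mul_eq_zero.1 h1.symm with h3 | h3
  · exact absurd h3 h2
  · exact h3

/-- independent elements from the transcendence degree -/
private theorem REL_trdeg {C F : Type} [Field C] [Field F] [Algebra C F] {m : ℕ}
    (h : (m : Cardinal) ≤ Algebra.trdeg C F) : ∃ x : Fin m → F, AlgebraicIndependent C x := by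
  obtain ⟨ι, b, hb⟩ := exists_isTranscendenceBasis' C F
  rw [← hb.cardinalMk_eq_trdeg] at h
  have h2 : Cardinal.mk (Fin m) ≤ Cardinal.mk ι := by
    rw [Cardinal.mk_fin]; exact h
  obtain ⟨e⟩ := h2
  exact ⟨fun i => b (e i), hb.1.comp e e.injective⟩

/-- combination of two independent families -/
private theorem REL_comb {K : IntermediateField ℚ ℂ} {F : IntermediateField K ℂ}
    (C : IntermediateField K F) {k m n : ℕ} (hn : m + k = n) (x0 : Fin k → ℂ)
    (hx0 : AlgebraicIndependent K x0) (hC : ∀ i, ∃ c : F, c ∈ C ∧ (c : ℂ) = x0 i)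
    (x1 : Fin m → F) (hx1 : AlgebraicIndependent C x1) :
    ∃ h : Fin n → ℂ, AlgebraicIndependent K h ∧ ∀ i, h i ∈ F := by
  subst hn
  choose c hcC hc using hC
  let y : Fin k → C := fun i => ⟨c i, hcC i⟩
  have hy : AlgebraicIndependent K y := by
    let f : C →ₐ[K] ℂ := F.val.comp C.val
    refine AlgebraicIndependent.of_comp f ?_
    have hf : (f ∘ y) = x0 := funext hc
    rw [hf]
    exact hx0
  have h1 : AlgebraicIndependent K (Sum.elim x1 (fun i => c i)) := by
    have := hy.sumElim_comp hx1
    exact this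
  have h2 : AlgebraicIndependent K (fun i => ((Sum.elim x1 (fun i => c i) i : F) : ℂ)) :=
    h1.map' (f := F.val) F.val.injective
  refine ⟨fun i => ((Sum.elim x1 (fun i => c i) (finSumFinEquiv.symm i) : F) : ℂ), ?_, ?_⟩
  · exact h2.comp _ finSumFinEquiv.symm.injective
  · intro i
    exact (Sum.elim x1 (fun i => c i) (finSumFinEquiv.symm i)).2

/-- transport of algebraicity -/
private theorem REL_tr {A B L L' : Type} [Field A] [Field B] [Field L] [Field L'] [Algebra A L]
    [Algebra B L'] (φ : A →+* B) (g : L' →+* L) (x : L')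
    (h : ∀ a, g (algebraMap B L' (φ a)) = algebraMap A L a) (hx : IsAlgebraic A (g x)) :
    IsAlgebraic B x := by
  obtain ⟨p, hp0, hp⟩ := hx
  refine ⟨p.map φ, (Polynomial.map_ne_zero_iff φ.injective).2 hp0, ?_⟩
  apply g.injective
  rw [map_zero, Polynomial.aeval_def, Polynomial.eval₂_map, Polynomial.hom_eval₂, ← hp,
    Polynomial.aeval_def]
  congr 1
  ext a
  exact h a

private theorem REL_memcl {K : IntermediateField ℚ ℂ} {S : Set ℂ} {x : ℂ} :
    x ∈ clK K S ↔ IsAlgebraic (IntermediateField.adjoin K S) x := by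
  unfold clK
  rw [IntermediateField.mem_restrictScalars]
  exact mem_algebraicClosure_iff

private theorem REL_subset (K : IntermediateField ℚ ℂ) (S : Set ℂ) : S ⊆ clK K S := by
  intro x hx
  have h1 : x ∈ IntermediateField.adjoin K S := IntermediateField.subset_adjoin K S hx
  exact REL_memcl.2 (isAlgebraic_algebraMap (⟨x, h1⟩ : IntermediateField.adjoin K S))

private theorem REL_mono (K : IntermediateField ℚ ℂ) {S T : Set ℂ} (h : S ⊆ T) {x : ℂ}
    (hx : x ∈ clK K S) : x ∈ clK K T := by
  rw [REL_memcl] at *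
  have h1 : IntermediateField.adjoin K S ≤ IntermediateField.adjoin K T :=
    IntermediateField.adjoin.mono K S T h
  exact REL_tr (IntermediateField.inclusion h1 : _ →+* _) (RingHom.id ℂ) x (fun a => rfl) hx

/-- algebraic elements over constants, seen in `ℂ` -/
private theorem REL_sub {K : IntermediateField ℚ ℂ} {F : IntermediateField K ℂ}
    (D : Derivation K F F) (S0 : Set ℂ) (hS0 : ∀ s ∈ S0, ∃ c : F, D c = 0 ∧ (c : ℂ) = s)
    (x : ℂ) (hxF : x ∈ F) (hx : x ∈ clK K S0) : ∃ c : F, c ∈ REL_const D ∧ (c : ℂ) = x := by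
  refine ⟨⟨x, hxF⟩, ?_, rfl⟩
  rw [REL_mem]
  apply REL_alg
  have h1 : IntermediateField.adjoin K S0 ≤ IntermediateField.lift (REL_const D) := by
    rw [IntermediateField.adjoin_le_iff]
    intro s hs
    obtain ⟨c, hc, rfl⟩ := hS0 s hs
    exact (IntermediateField.mem_lift c).2 hc
  have h2 : IsAlgebraic (IntermediateField.adjoin K S0) x := REL_memcl.1 hx
  have hF : ∀ a : IntermediateField.adjoin K S0, (a : ℂ) ∈ F :=
    fun a => IntermediateField.lift_le (REL_const D) (h1 a.2)
  have hC : ∀ a : IntermediateField.adjoin K S0, (⟨(a : ℂ), hF a⟩ : F) ∈ REL_const D :=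
    fun a => (IntermediateField.mem_lift (⟨(a : ℂ), hF a⟩ : F)).1 (h1 a.2)
  let φ : IntermediateField.adjoin K S0 →+* REL_const D :=
    { toFun := fun a => ⟨⟨(a : ℂ), hF a⟩, hC a⟩
      map_one' := rfl
      map_mul' := fun _ _ => rfl
      map_zero' := rfl
      map_add' := fun _ _ => rfl }
  exact REL_tr φ (F.val : F →+* ℂ) ⟨x, hxF⟩ (fun a => rfl) h2

theorem kREL : S_AX → S_TAN → S_REL := by
  intro hAX hTAN K hK
  have key : ∀ n : ℕ, ∀ V : Submodule ℚ ℂ, FiniteDimensional ℚ V → finrank ℚ V = n →
      (∀ v ∈ V, v ∈ K → v = 0) → ∃ h : Fin n → ℂ, AlgebraicIndependent K h ∧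
        ∀ i, h i ∈ clK K ((V : Set ℂ) ∪ Complex.exp '' (V : Set ℂ)) := by
    intro n
    induction n using Nat.strong_induction_on with
    | _ n ih =>
    intro V hV hVn hVK
    rcases Nat.eq_zero_or_pos n with h0 | h0
    · subst h0
      refine ⟨Fin.elim0, ?_, fun i => i.elim0⟩
      rw [algebraicIndependent_empty_type_iff]
      exact (algebraMap K ℂ).injective
    obtain ⟨F, hF⟩ : ∃ F : IntermediateField K ℂ,
        F = clK K ((V : Set ℂ) ∪ Complex.exp '' (V : Set ℂ)) := ⟨_, rfl⟩
    have hSF : (V : Set ℂ) ∪ Complex.exp '' (V : Set ℂ) ⊆ F := by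
      rw [hF]; exact REL_subset K _
    have hVF : ∀ v ∈ V, v ∈ F := fun v hv => hSF (Or.inl hv)
    have hEF : ∀ v ∈ V, Complex.exp v ∈ F := fun v hv => hSF (Or.inr ⟨v, hv, rfl⟩)
    obtain ⟨v1, hv1, hv1K⟩ : ∃ v ∈ V, v ∉ K := by
      have : 0 < finrank ℚ V := by omega
      have := Module.finrank_pos_iff.1 this
      obtain ⟨⟨v, hv⟩, hv0⟩ := exists_ne (0 : V)
      refine ⟨v, hv, fun h => hv0 ?_⟩
      exact Subtype.ext (hVK v hv h)
    obtain ⟨D, ⟨v2, hv2, hv2D⟩, hD⟩ := hTAN K hK V hV ⟨v1, hv1, hv1K⟩ F hF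
    rw [← hF]
    -- the linear map `v ↦ D v`
    let L : V →ₗ[ℚ] F :=
      { toFun := fun v => D ⟨v, hVF v v.2⟩
        map_add' := by
          intro a b
          rw [← map_add]
          rfl
        map_smul' := by
          intro q a
          rw [RingHom.id_apply, ← map_rat_smul]
          congr 1 }
    have hL : ∀ v : V, L v = D ⟨v, hVF v v.2⟩ := fun v => rfl
    have hrk := L.finrank_range_add_finrank_ker
    rw [hVn] at hrk
    have hrpos : 0 < finrank ℚ (LinearMap.range L) := by
      rw [Module.finrank_pos_iff]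
      refine ⟨⟨⟨L ⟨v2, hv2⟩, LinearMap.mem_range_self _ _⟩, 0, ?_⟩⟩
      intro h
      exact hv2D (congrArg Subtype.val h)
    obtain ⟨V0, hV0⟩ : ∃ V0 : Submodule ℚ ℂ, V0 = (LinearMap.ker L).map V.subtype := ⟨_, rfl⟩
    have hV0k : finrank ℚ V0 = finrank ℚ (LinearMap.ker L) := by
      rw [hV0]; exact Submodule.finrank_map_subtype_eq _ _
    have hV0m : ∀ v ∈ V0, ∃ hv : v ∈ V, D ⟨v, hVF v hv⟩ = 0 := by
      intro v hv
      rw [hV0, Submodule.mem_map] at hv
      obtain ⟨w, hw, rfl⟩ := hv
      exact ⟨w.2, hw⟩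
    have hV0fd : FiniteDimensional ℚ V0 := by
      rw [hV0]; infer_instance
    obtain ⟨h0', hh0, hh0m⟩ := ih (finrank ℚ (LinearMap.ker L)) (by omega) V0 hV0fd hV0k
      (fun v hv hvK => hVK v (hV0m v hv).1 hvK)
    -- the values of `h0'` are constants
    have hconst : ∀ i, ∃ c : F, c ∈ REL_const D ∧ (c : ℂ) = h0' i := by
      intro i
      refine REL_sub D _ ?_ _ ?_ (hh0m i)
      · rintro s (hs | ⟨v, hv, rfl⟩)
        · obtain ⟨h1, h2⟩ := hV0m s hs
          exact ⟨⟨s, hVF s h1⟩, h2, rfl⟩
        · obtain ⟨h1, h2⟩ := hV0m v hv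
          refine ⟨⟨Complex.exp v, hEF v h1⟩, ?_, rfl⟩
          rw [hD ⟨v, hVF v h1⟩ ⟨Complex.exp v, hEF v h1⟩ h1 rfl, h2, mul_zero]
      · rw [hF]
        refine REL_mono K ?_ (hh0m i)
        rintro s (hs | ⟨v, hv, rfl⟩)
        · exact Or.inl (hV0m s hs).1
        · exact Or.inr ⟨v, (hV0m v hv).1, rfl⟩
    -- Ax
    let b := Module.finBasis ℚ (LinearMap.range L)
    have hb : ∀ i, ∃ v : V, L v = (b i : F) := fun i => (b i).2
    choose x hx using hb
    have hcz : CharZero F := (algebraMap F ℂ).charZero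
    have hax := hAX (REL_const D) F (REL_der D) (fun z hz => ⟨⟨z, hz⟩, rfl⟩) _
      (fun i => ⟨x i, hVF _ (x i).2⟩) (fun i => ⟨Complex.exp (x i), hEF _ (x i).2⟩)
      (fun i h => Complex.exp_ne_zero (x i) (congrArg Subtype.val h))
      (fun i => hD _ _ (x i).2 rfl) (by
        intro q hq
        have h1 : ∑ i, (q i : ℚ) • b i = 0 := by
          apply Subtype.ext
          rw [REL_der_apply, map_sum] at hq
          rw [Submodule.coe_sum, Submodule.coe_zero, ← hq]
          refine Finset.sum_congr rfl fun i _ => ?_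
          rw [Submodule.coe_smul, ← hx i, hL, D.leibniz, D.map_intCast, smul_zero, add_zero,
            smul_eq_mul, Rat.smul_def, Rat.cast_intCast]
        have h2 := Fintype.linearIndependent_iff.1 b.linearIndependent _ h1
        funext i
        exact_mod_cast h2 i)
    obtain ⟨x1, hx1⟩ := REL_trdeg hax
    exact REL_comb (REL_const D) hrk h0' hh0 hconst x1 hx1
  intro V hV hVK
  exact key _ V hV rfl hVK

end EPK
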