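import Pool.Agent.Lib.EPK.Spec1

/-!
MP_4c2ad3_nt, extension B, module RES: residues at `u = 0`.
-/

set_option autoImplicit false

open Module

namespace EPK

open Polynomial

section

variable {k F : Type} [Field k] [Field F] [Algebra k F]

/-- the elements `p(u)/q(u)` with `q(0) ≠ 0` -/
private def RES_O (k : Type) {F : Type} [Field k] [Field F] [Algebra k F] (u z : F) : Prop :=
  ∃ p q : k[X], q.coeff 0 ≠ 0 ∧ z * aeval u q = aeval u p

private theorem RES_add {u z w : F} (hz : RES_O k u z) (hw : RES_O k u w) :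
    RES_O k u (z + w) := by
  obtain ⟨p, q, h1, h2⟩ := hz
  obtain ⟨p', q', h1', h2'⟩ := hw
  refine ⟨p * q' + p' * q, q * q', ?_, ?_⟩
  · rw [mul_coeff_zero]; exact mul_ne_zero h1 h1'
  · simp only [map_mul, map_add]
    linear_combination (aeval u q') * h2 + (aeval u q) * h2'

private theorem RES_mul {u z w : F} (hz : RES_O k u z) (hw : RES_O k u w) :
    RES_O k u (z * w) := by
  obtain ⟨p, q, h1, h2⟩ := hz
  obtain ⟨p', q', h1', h2'⟩ := hw
  refine ⟨p * p', q * q', ?_, ?_⟩
  · rw [mul_coeff_zero]; exact mul_ne_zero h1 h1'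
  · simp only [map_mul]
    linear_combination (w * aeval u q') * h2 + (aeval u p) * h2'

private theorem RES_poly (u : F) (p : k[X]) : RES_O k u (aeval u p) :=
  ⟨p, 1, by simp, by simp⟩

private theorem RES_const (u : F) (c : k) : RES_O k u (algebraMap k F c) :=
  ⟨C c, 1, by simp, by simp⟩

private theorem RES_u (u : F) : RES_O k u u := ⟨X, 1, by simp, by simp⟩

private theorem RES_one (u : F) : RES_O k u 1 := ⟨1, 1, by simp, by simp⟩

private theorem RES_pow (u : F) (n : ℕ) : RES_O k u (u ^ n) := by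
  induction n with
  | zero => rw [pow_zero]; exact RES_one u
  | succ n ih => rw [pow_succ]; exact RES_mul ih (RES_u u)

private theorem RES_sub {u z w : F} (hz : RES_O k u z) (hw : RES_O k u w) :
    RES_O k u (z - w) := by
  have h1 := RES_add hz (RES_mul (RES_const u (-1 : k)) hw)
  have h2 : z + algebraMap k F (-1) * w = z - w := by
    rw [map_neg, map_one]; ring
  rwa [h2] at h1

private theorem RES_ne {u : F} (hu : Transcendental k u) {P : k[X]} (hP : P.coeff 0 ≠ 0) :
    aeval u P ≠ 0 := by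
  intro h
  have h1 := transcendental_iff.1 hu P h
  rw [h1] at hP
  simp at hP

private theorem RES_inv {u : F} (hu : Transcendental k u) {P : k[X]} (hP : P.coeff 0 ≠ 0) :
    RES_O k u (aeval u P)⁻¹ :=
  ⟨1, P, hP, by rw [inv_mul_cancel₀ (RES_ne hu hP), map_one]⟩

private theorem RES_aeval {u : F} (d : Derivation k F F) (hd : d u = 1) (p : k[X]) :
    d (aeval u p) = aeval u (derivative p) := by
  rw [Derivation.map_aeval, hd, smul_eq_mul, mul_one]

private theorem RES_der {u z : F} (d : Derivation k F F) (hd : d u = 1) (hz : RES_O k u z) :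
    RES_O k u (d z) := by
  obtain ⟨p, q, h1, h2⟩ := hz
  refine ⟨derivative p * q - p * derivative q, q * q, ?_, ?_⟩
  · rw [mul_coeff_zero]; exact mul_ne_zero h1 h1
  · have h3 : d (z * aeval u q) = d (aeval u p) := congrArg d h2
    rw [Derivation.leibniz, RES_aeval d hd, RES_aeval d hd, smul_eq_mul, smul_eq_mul] at h3
    simp only [map_mul, map_sub]
    linear_combination (aeval u q) * h3 - (aeval u (derivative q)) * h2

private theorem RES_sum {u : F} {s : ℕ} (f : Fin s → F) (hf : ∀ j, RES_O k u (f j)) :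
    RES_O k u (∑ j, f j) := by
  have h0 : RES_O k u (0 : F) := ⟨0, 1, by simp, by simp⟩
  exact Finset.sum_induction f (RES_O k u) (fun a b => RES_add) h0 (fun j _ => hf j)

private theorem RES_split (p : k[X]) (hp : p ≠ 0) :
    ∃ (a : ℕ) (P : k[X]), P.coeff 0 ≠ 0 ∧ p = X ^ a * P := by
  obtain ⟨P, h1, h2⟩ := Polynomial.exists_eq_pow_rootMultiplicity_mul_and_not_dvd p hp 0
  rw [C_0, sub_zero] at h1 h2
  exact ⟨_, P, fun h => h2 (X_dvd_iff.2 h), h1⟩

/-- representation of `h` with order `n` -/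
private def RES_V (k : Type) {F : Type} [Field k] [Field F] [Algebra k F] (u h : F) (n : ℤ) :
    Prop :=
  ∃ (a b : ℕ) (P Q : k[X]), P.coeff 0 ≠ 0 ∧ Q.coeff 0 ≠ 0 ∧
    h * (u ^ b * aeval u Q) = u ^ a * aeval u P ∧ n = (a : ℤ) - b

private theorem RES_lt {m n : ℕ} (hmn : m < n) {A B : k[X]} (hA : A.coeff 0 ≠ 0)
    (h : X ^ m * A = X ^ n * B) : False := by
  obtain ⟨r, rfl⟩ : ∃ r, n = m + (r + 1) := ⟨n - m - 1, by omega⟩
  rw [pow_add, mul_assoc] at h
  have h1 := mul_left_cancel₀ (pow_ne_zero m X_ne_zero) h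
  rw [h1, pow_succ] at hA
  apply hA
  rw [mul_coeff_zero, mul_coeff_zero, coeff_X_zero]
  ring

private theorem RES_uniq {u : F} (hu : Transcendental k u) {h : F} {n n' : ℤ}
    (h1 : RES_V k u h n) (h2 : RES_V k u h n') : n = n' := by
  obtain ⟨a, b, P, Q, hP, hQ, e1, rfl⟩ := h1
  obtain ⟨a', b', P', Q', hP', hQ', e2, rfl⟩ := h2
  have hu0 : u ≠ 0 := by
    rintro rfl
    exact hu (isAlgebraic_zero)
  have e3 : aeval u (X ^ (a + b') * (P * Q')) = aeval u (X ^ (a' + b) * (P' * Q)) := by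
    simp only [map_mul, map_pow, aeval_X, pow_add]
    linear_combination (-(u ^ b' * aeval u Q')) * e1 + (u ^ b * aeval u Q) * e2
  have e4 : (X ^ (a + b') * (P * Q') : k[X]) = X ^ (a' + b) * (P' * Q) :=
    (transcendental_iff_injective.1 hu) e3
  have hc : (P * Q').coeff 0 ≠ 0 := by rw [mul_coeff_zero]; exact mul_ne_zero hP hQ'
  have hc' : (P' * Q).coeff 0 ≠ 0 := by rw [mul_coeff_zero]; exact mul_ne_zero hP' hQ
  have h5 : a + b' = a' + b := by
    rcases lt_trichotomy (a + b') (a' + b) with h | h | h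
    · exact (RES_lt h hc e4).elim
    · exact h
    · exact (RES_lt h hc' e4.symm).elim
  omega

private theorem RES_ex {u : F} {h : F}
    (hh : h ∈ IntermediateField.adjoin k {u}) (h0 : h ≠ 0) : ∃ n, RES_V k u h n := by
  obtain ⟨p, q, e⟩ := (IntermediateField.mem_adjoin_simple_iff k h).1 hh
  have hq : aeval u q ≠ 0 := by
    intro h1; rw [h1, div_zero] at e; exact h0 e
  have hp : aeval u p ≠ 0 := by
    intro h1; rw [h1, zero_div] at e; exact h0 e
  have hq' : q ≠ 0 := by rintro rfl; simp at hq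
  have hp' : p ≠ 0 := by rintro rfl; simp at hp
  obtain ⟨a, P, hP, rfl⟩ := RES_split p hp'
  obtain ⟨b, Q, hQ, rfl⟩ := RES_split q hq'
  refine ⟨_, a, b, P, Q, hP, hQ, ?_, rfl⟩
  rw [e, div_mul_eq_mul_div, div_eq_iff hq]
  simp only [map_mul, map_pow, aeval_X]

private theorem RES_ldmul (d : Derivation k F F) {x y : F} (hx : x ≠ 0) (hy : y ≠ 0) :
    d (x * y) / (x * y) = d x / x + d y / y := by
  rw [Derivation.leibniz, smul_eq_mul, smul_eq_mul]
  field_simp
  ring

private theorem RES_ldpow {u : F} (hu0 : u ≠ 0) (d : Derivation k F F) (hd : d u = 1) (n : ℕ) :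
    d (u ^ n) / u ^ n = n / u := by
  induction n with
  | zero => simp
  | succ n ih =>
    rw [pow_succ, RES_ldmul d (pow_ne_zero n hu0) hu0, ih, hd, Nat.cast_succ]
    ring

private theorem RES_ld {u : F} (hu : Transcendental k u) (d : Derivation k F F) (hd : d u = 1)
    {h : F} {n : ℤ} (hV : RES_V k u h n) :
    ∃ o, RES_O k u o ∧ d h / h = (n : F) / u + o := by
  obtain ⟨a, b, P, Q, hP, hQ, e, rfl⟩ := hV
  have hu0 : u ≠ 0 := by
    rintro rfl
    exact hu (isAlgebraic_zero)
  have hP' := RES_ne hu hP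
  have hQ' := RES_ne hu hQ
  have hh : h ≠ 0 := by
    rintro rfl
    rw [zero_mul] at e
    exact mul_ne_zero (pow_ne_zero a hu0) hP' e.symm
  have e1 : d (h * (u ^ b * aeval u Q)) / (h * (u ^ b * aeval u Q)) =
      d (u ^ a * aeval u P) / (u ^ a * aeval u P) := by rw [e]
  rw [RES_ldmul d hh (mul_ne_zero (pow_ne_zero b hu0) hQ'),
    RES_ldmul d (pow_ne_zero b hu0) hQ', RES_ldmul d (pow_ne_zero a hu0) hP',
    RES_ldpow hu0 d hd, RES_ldpow hu0 d hd, RES_aeval d hd, RES_aeval d hd] at e1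
  refine ⟨aeval u (derivative P) * (aeval u P)⁻¹ - aeval u (derivative Q) * (aeval u Q)⁻¹,
    RES_sub (RES_mul (RES_poly u _) (RES_inv hu hP)) (RES_mul (RES_poly u _) (RES_inv hu hQ)), ?_⟩
  rw [← div_eq_mul_inv, ← div_eq_mul_inv]
  push_cast
  rw [sub_div]
  linear_combination e1

private theorem RES_main [CharZero F] {u : F} (hu : Transcendental k u) (d : Derivation k F F)
    (hd : d u = 1) (c : k) (o G : F) (ho : RES_O k u o)
    (hG : G ∈ IntermediateField.adjoin k {u}) (e : algebraMap k F c / u + o = d G) : c = 0 := by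
  classical
  have hu0 : u ≠ 0 := by
    rintro rfl
    exact hu (isAlgebraic_zero)
  have hc0 : ∀ z : F, RES_O k u z → algebraMap k F c = u * z → c = 0 := by
    rintro z ⟨p, q, h1, h2⟩ h3
    have h4 : aeval u (C c * q) = aeval u (X * p) := by
      simp only [map_mul, aeval_C, aeval_X]
      linear_combination (aeval u q) * h3 + u * h2
    have h5 : (C c * q : k[X]) = X * p := (transcendental_iff_injective.1 hu) h4
    have h6 := congrArg (fun r : k[X] => r.coeff 0) h5
    simp only [mul_coeff_zero, coeff_C_zero, coeff_X_zero, zero_mul] at h6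
    exact (mul_eq_zero.1 h6).resolve_right h1
  have hex : ∃ b : ℕ, RES_O k u (G * u ^ b) := by
    obtain ⟨p, q, e1⟩ := (IntermediateField.mem_adjoin_simple_iff k G).1 hG
    by_cases hq : q = 0
    · refine ⟨0, 0, 1, by simp, ?_⟩
      rw [e1, hq]
      simp
    · have hqu : aeval u q ≠ 0 := fun h => hq (transcendental_iff.1 hu q h)
      obtain ⟨b, Q, hQ, rfl⟩ := RES_split q hq
      refine ⟨b, p, Q, hQ, ?_⟩
      simp only [map_mul, map_pow, aeval_X] at hqu e1
      rw [e1, mul_assoc, div_mul_cancel₀ _ hqu]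
  have hb := Nat.find_spec hex
  have hmin : ∀ m < Nat.find hex, ¬ RES_O k u (G * u ^ m) := fun m hm => Nat.find_min hex hm
  generalize Nat.find hex = b at hb hmin
  rcases b with _ | b
  · rw [pow_zero, mul_one] at hb
    refine hc0 (d G - o) (RES_sub (RES_der d hd hb) ho) ?_
    rw [← e]
    field_simp
    ring
  · exfalso
    have hw := hb
    have hpw : d (u ^ (b + 1)) = (b + 1 : ℕ) * u ^ b := by
      have h1 := RES_ldpow hu0 d hd (b + 1)
      rw [div_eq_iff (pow_ne_zero _ hu0)] at h1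
      rw [h1, pow_succ]
      field_simp
    have h2 : d (G * u ^ (b + 1)) = G * ((b + 1 : ℕ) * u ^ b) + u ^ (b + 1) * d G := by
      rw [Derivation.leibniz, smul_eq_mul, smul_eq_mul, hpw]
    have hbF : ((b + 1 : ℕ) : F) ≠ 0 := Nat.cast_ne_zero.2 (Nat.succ_ne_zero b)
    have hbk : algebraMap k F (((b + 1 : ℕ) : k)⁻¹) = ((b + 1 : ℕ) : F)⁻¹ := by
      rw [map_inv₀, map_natCast]
    apply hmin b (Nat.lt_succ_self b)
    have h3 : G * u ^ b = algebraMap k F (((b + 1 : ℕ) : k)⁻¹) *
        (d (G * u ^ (b + 1)) - (algebraMap k F c * u ^ b + u ^ (b + 1) * o)) := by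
      rw [hbk, h2, ← e]
      field_simp
      ring
    rw [h3]
    exact RES_mul (RES_const u _) (RES_sub (RES_der d hd hw)
      (RES_add (RES_mul (RES_const u c) (RES_pow u b)) (RES_mul (RES_pow u (b + 1)) ho)))

end

theorem kRES : S_RES := by
  classical
  intro k F _ _ _ _ u d hu hd
  refine ⟨fun h => if hx : ∃ n, RES_V k u h n then hx.choose else 0, ?_, ?_⟩
  · intro n
    have h1 : RES_V k u (u ^ n) (n : ℤ) := ⟨n, 0, 1, 1, by simp, by simp, by simp, by simp⟩
    have hx : ∃ m, RES_V k u (u ^ n) m := ⟨_, h1⟩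
    simp only [dif_pos hx]
    exact RES_uniq hu hx.choose_spec h1
  · intro s e h G hh h0 hG heq
    have hx : ∀ j, ∃ n, RES_V k u (h j) n := fun j => RES_ex (hh j) (h0 j)
    simp only [dif_pos (hx _)]
    have h1 : ∀ j, ∃ o, RES_O k u o ∧ d (h j) / h j = ((hx j).choose : F) / u + o :=
      fun j => RES_ld hu d hd (hx j).choose_spec
    choose o ho1 ho2 using h1
    refine RES_main hu d hd _ (∑ j, algebraMap k F (e j) * o j) G
      (RES_sum _ fun j => RES_mul (RES_const u (e j)) (ho1 j)) hG ?_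
    rw [← heq, map_sum, Finset.sum_div, ← Finset.sum_add_distrib]
    refine Finset.sum_congr rfl fun j _ => ?_
    rw [ho2 j, map_mul, map_intCast]
    ring

end EPK
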