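import Pool.Agent.Lib.EPK.Spec3
import Pool.Agent.Lib.EPK.BFK

/-!
The linear bijection of one line, inside a countable field `K`, the identity on a complement.
-/

set_option autoImplicit false

open Complex Module EPI

namespace EPK

/-- the properties of `K` which are used -/
def Good (K : IntermediateField ℚ ℂ) : Prop :=
  (∀ x : ℂ, IsAlgebraic K x → x ∈ K) ∧ (∀ z ∈ K, cexp z ∈ K) ∧ (∀ z : ℂ, cexp z ∈ K → z ∈ K) ∧
    ∀ z ∈ K, (starRingEnd ℂ) z ∈ K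

theorem clsub (hCLK : S_CLK) {K : IntermediateField ℚ ℂ} (hK : Good K) {S : Set ℂ}
    (hS : S ⊆ K) {x : ℂ} (hx : x ∈ cl S) : x ∈ K :=
  (hCLK K).2.2.2.2.2 hK.1 S hS x hx

theorem Imem (hCL : S_CL) (hCLK : S_CLK) {K : IntermediateField ℚ ℂ} (hK : Good K) : I ∈ K :=
  clsub hCLK hK (S := ∅) (by simp) (hCL.2.2.2 ∅)

theorem jjmem (hCL : S_CL) (hCLK : S_CLK) {K : IntermediateField ℚ ℂ} (hK : Good K) (s : Bool)
    (x : ℝ) : jj s x ∈ K ↔ x ∈ RR K := by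
  have hI := Imem hCL hCLK hK
  cases s
  · simp only [jj, Bool.false_eq_true, if_false, mem_RR]
  · simp only [jj, if_true, mem_RR]
    constructor
    · intro h
      have h2 := K.mul_mem h (K.inv_mem hI)
      rwa [mul_assoc, mul_inv_cancel₀ I_ne_zero, mul_one] at h2
    · intro h
      exact K.mul_mem h hI

theorem reim (hCL : S_CL) (hCLK : S_CLK) {K : IntermediateField ℚ ℂ} (hK : Good K) {z : ℂ}
    (hz : z ∈ K) : z.re ∈ RR K ∧ z.im ∈ RR K := by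
  have hI := Imem hCL hCLK hK
  have hc := hK.2.2.2 z hz
  have h2 : (2 : ℂ) ∈ K := by
    have := K.algebraMap_mem 2
    simpa using this
  constructor
  · rw [mem_RR, Complex.re_eq_add_conj]
    exact K.div_mem (K.add_mem hz hc) h2
  · rw [mem_RR, Complex.im_eq_sub_conj]
    exact K.div_mem (K.sub_mem hz hc) (K.mul_mem h2 hI)

theorem GSRsub {K : IntermediateField ℚ ℂ} {N : ℕ} {P : Fin N → ℝ} {g : ℕ → Fin 4 → ℝ → ℝ}
    (hG : GenR (RR K) P g) (n : ℕ) : GSR (RR K) P g n ⊆ K := by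
  rintro z (⟨i, rfl⟩ | ⟨m, -, a, c, hc, rfl⟩)
  · exact hG.2.1 i
  · exact hG.2.2.1 m a c hc

theorem kSORT (hCL : S_CL) (hCLK : S_CLK) (K : IntermediateField ℚ ℂ) (hK : Good K) (N : ℕ)
    (P : Fin N → ℝ) (g : ℕ → Fin 4 → ℝ → ℝ) (hG : GenR (RR K) P g) (U : Submodule ℚ ℝ)
    (hU : IsCompl (RR K) U) (s : Bool) (k : ℕ) (p q : Fin k → ℝ) (hp : LinearIndependent ℚ p)
    (hq : LinearIndependent ℚ q) (hpX : ∀ i, p i ∈ XX (GSR (RR K) P g 0))
    (hqY : ∀ i, q i ∈ YY s (GSR (RR K) P g 0)) :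
    ∃ (B C : ℕ → Set ℝ) (ρ : ℝ ≃ₗ[ℚ] ℝ), (∀ n, B n ⊆ XX (GSR (RR K) P g n)) ∧
      (∀ n, C n ⊆ YY s (GSR (RR K) P g n)) ∧ (∀ n, B n ⊆ RR K) ∧ (∀ n, C n ⊆ RR K) ∧
      LinearIndependent ℚ (domF (fun n y => g n (sa s) y) p B C) ∧
      Submodule.span ℚ (Set.range (domF (fun n y => g n (sa s) y) p B C)) = RR K ∧
      (∀ i, ρ (domF (fun n y => g n (sa s) y) p B C i) =
        imF (fun n b => hh s (g n (ta s) b)) q B C i) ∧
      (∀ x ∈ U, ρ x = x) ∧ (∀ x ∈ RR K, ρ x ∈ RR K) := by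
  have hXR : ∀ n, XX (GSR (RR K) P g n) ≤ RR K := fun n x hx =>
    clsub hCLK hK (GSRsub hG n) hx
  have hYR : ∀ n, YY s (GSR (RR K) P g n) ≤ RR K := by
    intro n y hy
    have h1 : cexp (jj s y) ∈ K := clsub hCLK hK (GSRsub hG n) hy
    exact (jjmem hCL hCLK hK s y).1 (hK.2.2.1 _ h1)
  have hmono : ∀ n, cl (GSR (RR K) P g n) ≤ cl (GSR (RR K) P g (n + 1)) := fun n =>
    hCL.2.1 _ _ ((GSR_mono (RR K) P g (Nat.le_succ n)).trans (hCL.1 _))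
  obtain ⟨B, C, hB, hC, li1, sp1, li2, sp2⟩ := kBF (RR K) (fun n => XX (GSR (RR K) P g n))
    (fun n => YY s (GSR (RR K) P g n)) (fun n b => hh s (g n (ta s) b)) (fun n y => g n (sa s) y)
    k p q (fun n x hx => hmono n hx) (fun n x hx => hmono n hx) hXR hYR
    (fun x hx => by
      obtain ⟨n, hn⟩ := kEXH hCL (RR K) N P g hG (x : ℂ) (by simpa using hx)
        (by simp)
      exact ⟨n, hn⟩)
    (fun y hy => by
      have h1 : ee s y ∈ K := hK.2.1 _ ((jjmem hCL hCLK hK s y).2 hy)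
      obtain ⟨h2, h3⟩ := reim hCL hCLK hK h1
      obtain ⟨n, hn⟩ := kEXH hCL (RR K) N P g hG (ee s y) h2 h3
      exact ⟨n, hn⟩)
    (fun n b hb => (kVAL hCL (RR K) N P g hG s n b hb).1 _
      (hCL.1 _ (Or.inr ⟨n, Nat.lt_succ_self n, ta s, b, hb, rfl⟩)))
    (fun n y hy => hCL.1 _ (Or.inr ⟨n, Nat.lt_succ_self n, sa s, y, hy, rfl⟩))
    (fun n => (kIND hCL (RR K) N P g hG s n).1) (fun n => (kIND hCL (RR K) N P g hG s n).2)
    hp hq hpX hqY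
  obtain ⟨b1, hb1⟩ : ∃ b1 : Basis (Fin k ⊕ ((Σ n, B n) ⊕ (Σ n, C n))) ℚ (RR K),
      ∀ i, (b1 i : ℝ) = domF (fun n y => g n (sa s) y) p B C i := by
    refine ⟨(Basis.span li1).map (LinearEquiv.ofEq _ _ sp1), fun i => ?_⟩
    rw [Basis.map_apply, LinearEquiv.coe_ofEq_apply, Basis.span_apply]
  obtain ⟨b2, hb2⟩ : ∃ b2 : Basis (Fin k ⊕ ((Σ n, B n) ⊕ (Σ n, C n))) ℚ (RR K),
      ∀ i, (b2 i : ℝ) = imF (fun n b => hh s (g n (ta s) b)) q B C i := by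
    refine ⟨(Basis.span li2).map (LinearEquiv.ofEq _ _ sp2), fun i => ?_⟩
    rw [Basis.map_apply, LinearEquiv.coe_ofEq_apply, Basis.span_apply]
  let e := Submodule.prodEquivOfIsCompl (RR K) U hU
  let ρ : ℝ ≃ₗ[ℚ] ℝ := e.symm.trans
    (((b1.equiv b2 (Equiv.refl _)).prodCongr (LinearEquiv.refl ℚ U)).trans e)
  have hρ1 : ∀ x : RR K, ρ (x : ℝ) = (b1.equiv b2 (Equiv.refl _) x : ℝ) := by
    intro x
    have h1 : e.symm (x : ℝ) = (x, 0) := by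
      rw [LinearEquiv.symm_apply_eq]
      simp [e]
    simp only [ρ, LinearEquiv.trans_apply, h1]
    simp [e]
  have hρ2 : ∀ x : U, ρ (x : ℝ) = x := by
    intro x
    have h1 : e.symm (x : ℝ) = (0, x) := by
      rw [LinearEquiv.symm_apply_eq]
      simp [e]
    simp only [ρ, LinearEquiv.trans_apply, h1]
    simp [e]
  refine ⟨B, C, ρ, hB, hC, fun n => (hB n).trans (hXR n), fun n => (hC n).trans (hYR n), li1, sp1,
    fun i => ?_, fun x hx => hρ2 ⟨x, hx⟩, fun x hx => ?_⟩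
  · rw [← hb1, hρ1, Basis.equiv_apply, Equiv.refl_apply, hb2]
  · rw [hρ1 ⟨x, hx⟩]
    exact (b1.equiv b2 (Equiv.refl _) ⟨x, hx⟩).2

end EPK
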