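import Pool.Agent.Lib.EPK.H1

/-!
Specification, part 3 (MP_4c2ad3_nt, extension B): generic elements inside a countable field.
-/

set_option autoImplicit false

open Complex Module EPI

namespace EPK

/-- the real numbers of `K` -/
def RR (K : IntermediateField ℚ ℂ) : Submodule ℚ ℝ where
  carrier := {x | (x : ℂ) ∈ K}
  zero_mem' := by simp [K.zero_mem]
  add_mem' := by
    intro a b ha hb
    simp only [Set.mem_ofPred_eq, ofReal_add] at *
    exact K.add_mem ha hb
  smul_mem' := by
    intro q x hx
    simp only [Set.mem_ofPred_eq] at *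
    have : ((q • x : ℝ) : ℂ) = (q : ℂ) * x := by
      rw [Rat.smul_def]; push_cast; ring
    rw [this]
    refine K.mul_mem ?_ hx
    have := K.algebraMap_mem q
    simpa using this

theorem mem_RR {K : IntermediateField ℚ ℂ} {x : ℝ} : x ∈ RR K ↔ (x : ℂ) ∈ K := Iff.rfl

/-- **GENK** generic elements inside a countable field. PROOF. `range P ⊆ R = RR K` is algebraically
independent; let `t ⊆ R` be maximal algebraically independent over `ℚ` with `range P ⊆ t`
(`exists_maximal_algebraicIndependent`). Every `x ∈ R` is algebraic over `ℚ(t)` (maximality).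
`t` is infinite: otherwise the infinitely many independent `w i ∈ R`, algebraic over `ℚ(t)`, would
contradict `trdeg ≤ #t`. `t` is countable (`K` is), so `t \ range P` is countably infinite, and so is
`ℕ × Fin 4 × R` (`R` is countable). Take a bijection `e` between them and
`g n a c = e (n, a, c)` for `c ∈ R`, `g n a c = 0` otherwise. -/
def S_GENK : Prop := ∀ K : IntermediateField ℚ ℂ, (K : Set ℂ).Countable →
  (∃ w : ℕ → ℝ, AlgebraicIndependent ℚ w ∧ ∀ i, w i ∈ RR K) →
  ∀ (N : ℕ) (P : Fin N → ℝ), AlgebraicIndependent ℚ P → (∀ i, P i ∈ RR K) →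
  ∃ g : ℕ → Fin 4 → ℝ → ℝ, GenR (RR K) P g

end EPK
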