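import Pool.Agent.Lib.EPK.Spec2

set_option autoImplicit false

open Complex Module

namespace EPK

private theorem TAN_mem_clK (K : IntermediateField ℚ ℂ) (S : Set ℂ) (x : ℂ) :
    x ∈ clK K S ↔ IsAlgebraic (IntermediateField.adjoin K S) x := by
  unfold clK
  rw [IntermediateField.mem_restrictScalars, mem_algebraicClosure_iff]

private theorem TAN_subset (K : IntermediateField ℚ ℂ) (S : Set ℂ) : S ⊆ clK K S := by
  intro x hx
  show x ∈ clK K S
  rw [TAN_mem_clK]
  have h : x ∈ IntermediateField.adjoin K S := IntermediateField.subset_adjoin K S hx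
  exact isAlgebraic_algebraMap (⟨x, h⟩ : IntermediateField.adjoin K S)

private theorem TAN_root (K : IntermediateField ℚ ℂ) (S : Set ℂ) (x : ℂ) (n : ℕ) (hn : 0 < n)
    (h : x ^ n ∈ clK K S) : x ∈ clK K S := by
  rw [TAN_mem_clK] at h ⊢
  exact IsAlgebraic.of_pow hn h

/-- elements algebraic over a field generated by elements of a relatively closed field -/
private theorem TAN_trans (K : IntermediateField ℚ ℂ) (F : IntermediateField K ℂ)
    (K1 : IntermediateField K F) (S : Set ℂ)
    (hS : ∀ s ∈ S, s ∈ algebraicClosure K1 ℂ) (x : ℂ)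
    (hx : IsAlgebraic (IntermediateField.adjoin K S) x) : IsAlgebraic K1 x := by
  have hK : ∀ r : K, (algebraMap K ℂ r) ∈ algebraicClosure K1 ℂ := by
    intro r
    rw [IsScalarTower.algebraMap_apply K K1 ℂ r]
    exact (algebraicClosure K1 ℂ).algebraMap_mem (algebraMap K K1 r)
  -- the closure as an intermediate field over K
  let A : IntermediateField K ℂ :=
    { (algebraicClosure K1 ℂ).toSubfield with
      algebraMap_mem' := hK }
  have hA : ∀ y : ℂ, y ∈ A ↔ y ∈ algebraicClosure K1 ℂ := fun y => Iff.rfl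
  have hle : IntermediateField.adjoin K S ≤ A := by
    rw [IntermediateField.adjoin_le_iff]
    intro s hs
    exact (hA s).mpr (hS s hs)
  let f : IntermediateField.adjoin K S →+* algebraicClosure K1 ℂ :=
    { toFun := fun y => ⟨(y : ℂ), (hA _).mp (hle y.2)⟩
      map_one' := rfl
      map_mul' := fun _ _ => rfl
      map_zero' := rfl
      map_add' := fun _ _ => rfl }
  let _ : Algebra (IntermediateField.adjoin K S) (algebraicClosure K1 ℂ) := f.toAlgebra
  have : IsScalarTower (IntermediateField.adjoin K S) (algebraicClosure K1 ℂ) ℂ :=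
    IsScalarTower.of_algebraMap_eq (fun _ => rfl)
  have h1 : IsAlgebraic (algebraicClosure K1 ℂ) x := IsAlgebraic.tower_top _ hx
  exact IsAlgebraic.restrictScalars K1 h1

/-- the rational span of a set inside an additive group closed under division -/
private theorem TAN_span {n : ℕ} (V : Submodule ℚ ℂ) (b : Basis (Fin n) ℚ V) (G : AddSubgroup ℂ)
    (hdiv : ∀ (N : ℕ) (y : ℂ), 0 < N → (N : ℂ) * y ∈ G → y ∈ G)
    (hb : ∀ i, (b i : ℂ) ∈ G) : ∀ v ∈ V, v ∈ G := by
  have hq : ∀ (q : ℚ) (y : ℂ), y ∈ G → q • y ∈ G := by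
    intro q y hy
    apply hdiv q.den (q • y) q.den_pos
    have h1 : (q.den : ℂ) * (q • y) = q.num • y := by
      rw [Rat.smul_def, zsmul_eq_mul, ← mul_assoc]
      congr 1
      have h2 := Rat.den_mul_eq_num q
      have h3 : (q.den : ℚ) * q = (q.num : ℚ) := h2
      have h4 : ((q.den : ℚ) : ℂ) * ((q : ℚ) : ℂ) = ((q.num : ℚ) : ℂ) := by
        rw [← h3]; push_cast; rfl
      simpa using h4
    rw [h1]
    exact G.zsmul_mem hy q.num
  intro v hv
  have h1 : ((⟨v, hv⟩ : V) : ℂ) = ∑ i, (b.repr ⟨v, hv⟩ i) • (b i : ℂ) := by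
    have h2 := b.sum_repr ⟨v, hv⟩
    have h3 := congrArg (fun t : V => (t : ℂ)) h2
    simp only [Submodule.coe_sum, Submodule.coe_smul] at h3
    exact h3.symm
  have h4 : v = ∑ i, (b.repr ⟨v, hv⟩ i) • (b i : ℂ) := h1
  rw [h4]
  exact G.sum_mem (fun i _ => hq _ _ (hb i))

theorem kTAN : S_JAC → S_EXT → S_TAN := by
  intro hJ hE K hK V hfin hV F hF
  have := hfin
  set n := finrank ℚ V with hn
  let b : Basis (Fin n) ℚ V := finBasis ℚ V
  let z : Fin n → ℂ := fun i => (b i : ℂ)
  have hzV : ∀ i, z i ∈ V := fun i => (b i).2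
  set S : Set ℂ := (V : Set ℂ) ∪ cexp '' (V : Set ℂ) with hS
  have hSF : ∀ s ∈ S, s ∈ F := by
    intro s hs
    rw [hF]
    exact TAN_subset K S hs
  have hVF : ∀ v ∈ V, v ∈ F := fun v hv => hSF v (Or.inl hv)
  have heF : ∀ v ∈ V, cexp v ∈ F := fun v hv => hSF _ (Or.inr ⟨v, hv, rfl⟩)
  have hroot : ∀ (x : ℂ) (m : ℕ), 0 < m → x ^ m ∈ F → x ∈ F := by
    intro x m hm hx
    rw [hF] at hx ⊢
    exact TAN_root K S x m hm hx
  have h1 : ∀ i, z i ∈ F := fun i => hVF _ (hzV i)
  have h2 : ∀ i, cexp (z i) ∈ F := fun i => heF _ (hzV i)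
  have h3 : ∃ i, z i ∉ K := by
    by_contra hcon
    push Not at hcon
    obtain ⟨v, hvV, hvK⟩ := hV
    let G : AddSubgroup ℂ := K.toSubfield.toAddSubgroup
    have := TAN_span V b G (fun N y hN hy => by
      have h4 : (N : ℂ) * y ∈ K := hy
      have h5 : y = ((N : ℂ)⁻¹) * ((N : ℂ) * y) := by
        have : (N : ℂ) ≠ 0 := by exact_mod_cast hN.ne'
        field_simp
      show y ∈ K
      rw [h5]
      exact K.mul_mem (K.inv_mem (natCast_mem K N)) h4) (fun i => hcon i) v hvV
    exact hvK this
  obtain ⟨v, hvF, hv0, hrel⟩ := hJ K hK n z F h1 h2 h3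
  let w : Fin n ⊕ Fin n → F := Sum.elim (fun i => ⟨z i, h1 i⟩) (fun i => ⟨cexp (z i), h2 i⟩)
  let a : Fin n ⊕ Fin n → F :=
    Sum.elim (fun i => ⟨v i, hvF i⟩) (fun i => ⟨cexp (z i), h2 i⟩ * ⟨v i, hvF i⟩)
  have hw : (fun i => F.val (w i)) = pt z := by
    funext i
    cases i <;> rfl
  have hext1 : ∀ p : MvPolynomial (Fin n ⊕ Fin n) K, MvPolynomial.aeval w p = 0 →
      ∑ i, MvPolynomial.aeval w (MvPolynomial.pderiv i p) * a i = 0 := by
    intro p hp
    have hp' : MvPolynomial.aeval (pt z) p = 0 := by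
      rw [← hw, ← MvPolynomial.comp_aeval_apply w F.val p, hp, map_zero]
    have h4 := hrel p hp'
    have h5 : F.val (∑ i, MvPolynomial.aeval w (MvPolynomial.pderiv i p) * a i) = 0 := by
      rw [map_sum, Fintype.sum_sum_type, ← Finset.sum_add_distrib, ← h4]
      apply Finset.sum_congr rfl
      intro i _
      rw [map_mul, map_mul, MvPolynomial.comp_aeval_apply, MvPolynomial.comp_aeval_apply, hw]
      show _ * v i + _ * (cexp (z i) * v i) = _
      ring
    exact Subtype.ext h5
  have hext2 : ∀ x : F, IsAlgebraic (IntermediateField.adjoin K (Set.range w)) x := by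
    intro x
    set K1 : IntermediateField K F := IntermediateField.adjoin K (Set.range w) with hK1
    have hwA : ∀ i, F.val (w i) ∈ algebraicClosure K1 ℂ := by
      intro i
      have h4 : w i ∈ K1 := IntermediateField.subset_adjoin K _ ⟨i, rfl⟩
      exact (algebraicClosure K1 ℂ).algebraMap_mem (⟨w i, h4⟩ : K1)
    have hA1 : ∀ v ∈ V, v ∈ algebraicClosure K1 ℂ := by
      apply TAN_span V b (algebraicClosure K1 ℂ).toSubfield.toAddSubgroup
      · intro N y hN hy
        have h4 : (N : ℂ) * y ∈ algebraicClosure K1 ℂ := hy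
        have h5 : y = ((N : ℂ)⁻¹) * ((N : ℂ) * y) := by
          have : (N : ℂ) ≠ 0 := by exact_mod_cast hN.ne'
          field_simp
        show y ∈ algebraicClosure K1 ℂ
        rw [h5]
        exact mul_mem (inv_mem (natCast_mem _ N)) h4
      · intro i
        exact hwA (Sum.inl i)
    have hA2 : ∀ v ∈ V, cexp v ∈ algebraicClosure K1 ℂ := by
      let G : AddSubgroup ℂ :=
        { carrier := {y | cexp y ∈ algebraicClosure K1 ℂ}
          zero_mem' := by
            show cexp 0 ∈ algebraicClosure K1 ℂ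
            rw [Complex.exp_zero]; exact one_mem _
          add_mem' := by
            intro x y hx hy
            show cexp (x + y) ∈ algebraicClosure K1 ℂ
            rw [Complex.exp_add]; exact mul_mem hx hy
          neg_mem' := by
            intro x hx
            show cexp (-x) ∈ algebraicClosure K1 ℂ
            rw [Complex.exp_neg]; exact inv_mem hx }
      apply TAN_span V b G
      · intro N y hN hy
        have h4 : cexp ((N : ℂ) * y) ∈ algebraicClosure K1 ℂ := hy
        rw [Complex.exp_nat_mul, mem_algebraicClosure_iff] at h4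
        show cexp y ∈ algebraicClosure K1 ℂ
        rw [mem_algebraicClosure_iff]
        exact IsAlgebraic.of_pow hN h4
      · intro i
        exact hwA (Sum.inr i)
    have hx : IsAlgebraic (IntermediateField.adjoin K S) (x : ℂ) := by
      rw [← TAN_mem_clK, ← hF]
      exact x.2
    have h5 : IsAlgebraic K1 (x : ℂ) := by
      apply TAN_trans K F K1 S _ (x : ℂ) hx
      intro s hs
      rcases hs with hs | ⟨v, hv, rfl⟩
      · exact hA1 s hs
      · exact hA2 v hv
    exact (isAlgebraic_algebraMap_iff (algebraMap F ℂ).injective).mp h5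
  obtain ⟨D, hD⟩ := hE K F (Fin n ⊕ Fin n) w a hext1 hext2
  refine ⟨D, ?_, ?_⟩
  · have : ∃ i, v i ≠ 0 := by
      by_contra hcon
      push Not at hcon
      exact hv0 (funext hcon)
    obtain ⟨i, hi⟩ := this
    refine ⟨⟨z i, h1 i⟩, hzV i, ?_⟩
    have h4 : D ⟨z i, h1 i⟩ = ⟨v i, hvF i⟩ := hD (Sum.inl i)
    rw [h4]
    intro h5
    exact hi (congrArg (fun t : F => (t : ℂ)) h5)
  · let G : AddSubgroup ℂ :=
      { carrier := {y | ∃ v w : F, (v : ℂ) = y ∧ (w : ℂ) = cexp y ∧ D w = w * D v}
        zero_mem' := by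
          refine ⟨0, 1, rfl, ?_, ?_⟩
          · rw [Complex.exp_zero]; rfl
          · rw [map_zero, mul_zero, Derivation.map_one_eq_zero]
        add_mem' := by
          rintro x y ⟨v1, w1, hv1, hw1, hd1⟩ ⟨v2, w2, hv2, hw2, hd2⟩
          refine ⟨v1 + v2, w1 * w2, ?_, ?_, ?_⟩
          · rw [← hv1, ← hv2]; rfl
          · rw [Complex.exp_add, ← hw1, ← hw2]; rfl
          · rw [Derivation.leibniz, map_add, hd1, hd2, smul_eq_mul, smul_eq_mul]
            ring
        neg_mem' := by
          rintro x ⟨v1, w1, hv1, hw1, hd1⟩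
          refine ⟨-v1, w1⁻¹, ?_, ?_, ?_⟩
          · rw [← hv1]; rfl
          · rw [Complex.exp_neg, ← hw1]; rfl
          · have hw0 : w1 ≠ 0 := by
              intro h
              have : (w1 : ℂ) = 0 := by rw [h]; rfl
              rw [hw1] at this
              exact Complex.exp_ne_zero _ this
            rw [Derivation.leibniz_inv, hd1, map_neg, smul_eq_mul]
            field_simp }
    have hG : ∀ y ∈ V, y ∈ G := by
      apply TAN_span V b G
      · intro N y hN hy
        obtain ⟨v0, w0, hv0', hw0', hd0⟩ := hy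
        have hNF : (N : F) ≠ 0 := by exact_mod_cast hN.ne'
        have hwm : cexp y ∈ F := by
          apply hroot (cexp y) N hN
          rw [← Complex.exp_nat_mul, ← hw0']
          exact w0.2
        refine ⟨(N : F)⁻¹ * v0, ⟨cexp y, hwm⟩, ?_, rfl, ?_⟩
        · have hNC : (N : ℂ) ≠ 0 := by exact_mod_cast hN.ne'
          have h4 : (((N : F)⁻¹ * v0 : F) : ℂ) = (N : ℂ)⁻¹ * (v0 : ℂ) := by
            push_cast; rfl
          rw [h4, hv0']
          field_simp
        · set w' : F := ⟨cexp y, hwm⟩ with hw'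
          set v' : F := (N : F)⁻¹ * v0 with hv'
          have hw'0 : w' ≠ 0 := by
            intro h
            have : (w' : ℂ) = 0 := by rw [h]; rfl
            exact Complex.exp_ne_zero y this
          have h4 : w0 = w' ^ N := by
            apply Subtype.ext
            rw [hw0', Complex.exp_nat_mul]
            rfl
          have h5 : v0 = (N : F) * v' := by
            rw [hv']; field_simp
          rw [h4, h5, Derivation.leibniz_pow, Derivation.leibniz] at hd0
          have h6 : D (N : F) = 0 := by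
            exact Derivation.map_natCast D N
          rw [h6, smul_zero, add_zero, smul_eq_mul, smul_eq_mul, nsmul_eq_mul] at hd0
          obtain ⟨m, rfl⟩ : ∃ m, N = m + 1 := ⟨N - 1, by omega⟩
          have h7 : ((m + 1 : ℕ) : F) * w' ^ m * (D w' - w' * D v') = 0 := by
            have h8 : m + 1 - 1 = m := rfl
            rw [h8] at hd0
            rw [pow_succ] at hd0
            linear_combination hd0
          have h9 : ((m + 1 : ℕ) : F) * w' ^ m ≠ 0 := mul_ne_zero hNF (pow_ne_zero _ hw'0)
          have h10 := (mul_eq_zero.mp h7).resolve_left h9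
          exact sub_eq_zero.mp h10
      · intro i
        refine ⟨⟨z i, h1 i⟩, ⟨cexp (z i), h2 i⟩, rfl, rfl, ?_⟩
        have h4 : D ⟨z i, h1 i⟩ = ⟨v i, hvF i⟩ := hD (Sum.inl i)
        have h5 : D ⟨cexp (z i), h2 i⟩ = ⟨cexp (z i), h2 i⟩ * ⟨v i, hvF i⟩ := hD (Sum.inr i)
        rw [h4, h5]
    intro v1 w1 hv1 hw1
    obtain ⟨v2, w2, hv2, hw2, hd2⟩ := hG (v1 : ℂ) hv1
    have h4 : v1 = v2 := Subtype.ext hv2.symm
    have h5 : w1 = w2 := Subtype.ext (by rw [hw1, hw2])
    rw [h4, h5]
    exact hd2

end EPK
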