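import Pool.Agent.Lib.EPK.Spec1

set_option autoImplicit false

open Module

namespace EPK

open Differential IntermediateField in
/-- Galois case. -/
private theorem TR_galois {N E : Type} [Field N] [Field E] [CharZero N] [Differential N]
    [Differential E] [Algebra N E] [DifferentialAlgebra N E] [FiniteDimensional N E]
    [IsGalois N E] (s : ℕ) (a : Fin s → E) (g : E) (ha : ∀ j, a j ≠ 0) :
    ∃ (n : ℕ) (h : Fin s → N) (G : N), 0 < n ∧ (∀ j, h j ≠ 0) ∧
      (∀ j (b : N), algebraMap N E b = a j → h j = b ^ n) ∧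
      ∀ e : Fin s → N, ∑ j, algebraMap N E (e j) * logDeriv (a j) = g′ →
        ∑ j, e j * logDeriv (h j) = G′ := by
  classical
  have inj : Function.Injective (algebraMap N E) := FaithfulSMul.algebraMap_injective N E
  have ffb : fixedField (⊤ : Subgroup (E ≃ₐ[N] E)) = ⊥ :=
    (IsGalois.tfae.out 0 1).mp (inferInstance : IsGalois N E)
  have H1 : ∀ j, ∃ x : N, algebraMap N E x = ∏ σ : (E ≃ₐ[N] E), σ (a j) := by
    intro j
    have : (∏ σ : (E ≃ₐ[N] E), σ (a j)) ∈ fixedField (⊤ : Subgroup (E ≃ₐ[N] E)) := by
      rintro ⟨e, _⟩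
      change e (∏ σ : (E ≃ₐ[N] E), σ (a j)) = ∏ σ : (E ≃ₐ[N] E), σ (a j)
      simp only [map_prod]
      apply Fintype.prod_equiv (Equiv.mulLeft e)
      simp
    rw [ffb, IntermediateField.mem_bot] at this
    obtain ⟨x, hx⟩ := this
    exact ⟨x, hx⟩
  have H2 : ∃ x : N, algebraMap N E x = ∑ σ : (E ≃ₐ[N] E), σ g := by
    have : (∑ σ : (E ≃ₐ[N] E), σ g) ∈ fixedField (⊤ : Subgroup (E ≃ₐ[N] E)) := by
      rintro ⟨e, _⟩
      change e (∑ σ : (E ≃ₐ[N] E), σ g) = ∑ σ : (E ≃ₐ[N] E), σ g
      simp only [map_sum]
      apply Fintype.sum_equiv (Equiv.mulLeft e)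
      simp
    rw [ffb, IntermediateField.mem_bot] at this
    obtain ⟨x, hx⟩ := this
    exact ⟨x, hx⟩
  choose h hh using H1
  obtain ⟨G, hG⟩ := H2
  have hne : ∀ (σ : E ≃ₐ[N] E) j, σ (a j) ≠ 0 := fun σ j => by
    simpa using ha j
  refine ⟨Fintype.card (E ≃ₐ[N] E), h, G, Fintype.card_pos, ?_, ?_, ?_⟩
  · intro j hj
    have := hh j
    rw [hj, map_zero] at this
    exact (Finset.prod_ne_zero_iff.mpr (fun σ _ => hne σ j)) this.symm
  · intro j b hb
    apply inj
    rw [hh j, ← hb, map_pow]
    simp
  · intro e he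
    apply inj
    rw [map_sum, ← deriv_algebraMap, hG, map_sum]
    have key : ∀ σ : E ≃ₐ[N] E, ∑ j, algebraMap N E (e j) * logDeriv (σ (a j)) = (σ g)′ := by
      intro σ
      have := congrArg σ he
      rw [map_sum] at this
      rw [← algEquiv_deriv', ← this]
      refine Finset.sum_congr rfl fun j _ => ?_
      rw [map_mul, AlgEquiv.commutes, Differential.logDeriv, Differential.logDeriv, map_div₀, algEquiv_deriv']
    rw [← Finset.sum_congr rfl (fun σ _ => key σ), Finset.sum_comm]
    refine Finset.sum_congr rfl fun j _ => ?_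
    rw [map_mul, ← logDeriv_algebraMap, hh j, logDeriv_prod _ _ _ (fun σ _ => hne σ j),
      Finset.mul_sum]

open Differential IntermediateField in
/-- Finite extensions. -/
private theorem TR_finite {N M : Type} [Field N] [Field M] [CharZero N] [Differential N]
    [Differential M] [Algebra N M] [DifferentialAlgebra N M] [FiniteDimensional N M]
    (s : ℕ) (a : Fin s → M) (g : M) (ha : ∀ j, a j ≠ 0) :
    ∃ (n : ℕ) (h : Fin s → N) (G : N), 0 < n ∧ (∀ j, h j ≠ 0) ∧
      (∀ j (b : N), algebraMap N M b = a j → h j = b ^ n) ∧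
      ∀ e : Fin s → N, ∑ j, algebraMap N M (e j) * logDeriv (a j) = g′ →
        ∑ j, e j * logDeriv (h j) = G′ := by
  let map := IsAlgClosed.lift (M := AlgebraicClosure N) (R := N) (S := M)
  let K' := map.fieldRange
  have : FiniteDimensional N K' :=
    LinearMap.finiteDimensional_range map.toLinearMap
  let K'' := normalClosure N K' (AlgebraicClosure N)
  let B : IntermediateField N K'' := IntermediateField.restrict
    (F := K') (IntermediateField.le_normalClosure ..)
  have kequiv : M ≃ₐ[N] ↥B := (show M ≃ₐ[N] K' from AlgEquiv.ofInjectiveField map).trans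
    (IntermediateField.restrictAlgEquiv _)
  let f : M →ₐ[N] K'' := B.val.comp kequiv.toAlgHom
  have finj : Function.Injective f := f.injective
  have : IsGalois N K'' := inferInstance
  obtain ⟨n, h, G, hn, h1, h2, h3⟩ := TR_galois (N := N) (E := K'') s (fun j => f (a j)) (f g)
    (fun j => by simpa using ha j)
  refine ⟨n, h, G, hn, h1, ?_, ?_⟩
  · intro j b hb
    exact h2 j b (by rw [← hb]; simp)
  · intro e he
    apply h3 e
    have := congrArg f he
    rw [map_sum] at this
    rw [← algHom_deriv' f finj, ← this]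
    refine Finset.sum_congr rfl fun j _ => ?_
    rw [map_mul, AlgHom.commutes, Differential.logDeriv, Differential.logDeriv, map_div₀, algHom_deriv' f finj]

open Differential IntermediateField in
/-- Algebraic extensions. -/
private theorem TR_alg {N F : Type} [Field N] [Field F] [CharZero N] [Differential N]
    [Differential F] [Algebra N F] [DifferentialAlgebra N F]
    (hal : ∀ z : F, IsAlgebraic N z) (s : ℕ) (a : Fin s → F) (g : F) (ha : ∀ j, a j ≠ 0) :
    ∃ (n : ℕ) (h : Fin s → N) (G : N), 0 < n ∧ (∀ j, h j ≠ 0) ∧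
      (∀ j (b : N), algebraMap N F b = a j → h j = b ^ n) ∧
      ∀ e : Fin s → N, ∑ j, algebraMap N F (e j) * logDeriv (a j) = g′ →
        ∑ j, e j * logDeriv (h j) = G′ := by
  let S : Set F := insert g (Set.range a)
  let B : IntermediateField N F := IntermediateField.adjoin N S
  have hfin : FiniteDimensional N B := by
    have : Finite S := by
      have : S.Finite := (Set.finite_range a).insert g
      exact this
    exact IntermediateField.finiteDimensional_adjoin (fun x _ => (hal x).isIntegral)
  have haB : ∀ j, a j ∈ B := fun j =>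
    IntermediateField.subset_adjoin N S (Set.mem_insert_of_mem _ ⟨j, rfl⟩)
  have hgB : g ∈ B := IntermediateField.subset_adjoin N S (Set.mem_insert _ _)
  obtain ⟨n, h, G, hn, h1, h2, h3⟩ := TR_finite (N := N) (M := B) s (fun j => ⟨a j, haB j⟩)
    ⟨g, hgB⟩ (fun j hj => ha j (congrArg Subtype.val hj))
  refine ⟨n, h, G, hn, h1, ?_, ?_⟩
  · intro j b hb
    exact h2 j b (Subtype.ext hb)
  · intro e he
    apply h3 e
    apply FaithfulSMul.algebraMap_injective B F
    rw [← deriv_algebraMap, map_sum]
    change _ = Differential.deriv g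
    rw [← he]
    refine Finset.sum_congr rfl fun j _ => ?_
    rw [map_mul, ← logDeriv_algebraMap]
    rfl

/-- `d` maps `k(u)` into itself. -/
private theorem TR_maps {k F : Type} [Field k] [Field F] [Algebra k F] (u : F)
    (d : Derivation k F F) (hd : d u = 1) (x : F) (hx : x ∈ IntermediateField.adjoin k {u}) :
    d x ∈ IntermediateField.adjoin k {u} := by
  induction hx using IntermediateField.adjoin_induction with
  | mem x hx =>
    rw [Set.mem_singleton_iff] at hx
    rw [hx, hd]
    exact one_mem _
  | algebraMap x =>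
    rw [d.map_algebraMap]
    exact zero_mem _
  | add x y _ _ h1 h2 =>
    rw [map_add]
    exact add_mem h1 h2
  | inv x hx h1 =>
    rw [Derivation.leibniz_inv]
    rw [smul_eq_mul]
    exact mul_mem (neg_mem (pow_mem (inv_mem hx) 2)) h1
  | mul x y hx hy h1 h2 =>
    rw [Derivation.leibniz, smul_eq_mul, smul_eq_mul]
    exact add_mem (mul_mem hx h2) (mul_mem hy h1)

/-- Descent by norm and trace. -/
theorem kTR : S_TR := by
  intro k F _ _ _ _ u d htr hal hdu s a g ha
  let N := IntermediateField.adjoin k ({u} : Set F)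
  have hmap : ∀ x : N, d (x : F) ∈ N := fun x => TR_maps u d hdu x x.2
  let iF : Differential F := ⟨d.restrictScalars ℤ⟩
  let iN : Differential N := ⟨Derivation.mk' (AddMonoidHom.toIntLinearMap
    { toFun := fun x => (⟨d (x : F), hmap x⟩ : N)
      map_zero' := by
        apply Subtype.ext
        change d ((0 : N) : F) = 0
        simp
      map_add' := fun x y => by
        apply Subtype.ext
        change d ((x + y : N) : F) = d (x : F) + d (y : F)
        simp }) (fun x y => by
        apply Subtype.ext
        change d ((x * y : N) : F) = (x : F) • d (y : F) + (y : F) • d (x : F)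
        simp)⟩
  have hNF : DifferentialAlgebra N F := ⟨fun a => rfl⟩
  obtain ⟨n, h, G, hn, h1, h2, h3⟩ := TR_alg (N := N) (F := F) hal s a g ha
  refine ⟨n, fun j => (h j : F), (G : F), hn,
    fun j => ⟨(h j).2, fun h0 => h1 j (Subtype.ext h0)⟩, G.2, ?_, ?_⟩
  · intro j hj
    exact congrArg Subtype.val (h2 j ⟨a j, hj⟩ rfl)
  · intro e he
    have h4 := h3 (fun j => algebraMap k N (e j)) he
    have h5 := congrArg (algebraMap N F) h4
    rw [map_sum, ← deriv_algebraMap] at h5
    refine Eq.trans (Finset.sum_congr rfl fun j _ => ?_) h5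
    rw [map_mul, ← Differential.logDeriv_algebraMap]
    rfl

end EPK
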